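import Mathlib

/-!
Dirichlet series for the ratio of zeta values and for its inverse.
-/

namespace MPf1a024

open ArithmeticFunction Complex

/-- `sigma^Omega(k) * 2^omega(k)` for `k ≥ 1`, and `0` at `k = 0`. -/
noncomputable def cf (s : ℤ) (k : ℕ) : ℝ :=
  if k = 0 then 0 else (s : ℝ) ^ (cardFactors k) * 2 ^ (cardDistinctFactors k)

lemma cf_zero (s : ℤ) : cf s 0 = 0 := by simp [cf]

lemma cf_one (s : ℤ) : cf s 1 = 1 := by simp [cf]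

lemma cf_mul (s : ℤ) {m n : ℕ} (h : m.Coprime n) : cf s (m * n) = cf s m * cf s n := by
  unfold cf
  by_cases hm : m = 0
  · simp [hm]
  by_cases hn : n = 0
  · simp [hn]
  rw [if_neg hm, if_neg hn, if_neg (Nat.mul_ne_zero hm hn), cardFactors_mul hm hn,
    cardDistinctFactors_mul h]
  ring

lemma two_pow_omega_le (k : ℕ) (hk : k ≠ 0) : 2 ^ (cardDistinctFactors k) ≤ k := by
  rw [cardDistinctFactors_apply, ← List.card_toFinset]
  change 2 ^ k.primeFactors.card ≤ k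
  calc 2 ^ k.primeFactors.card ≤ ∏ p ∈ k.primeFactors, p := by
        apply Finset.pow_card_le_prod
        intro p hp
        exact (Nat.prime_of_mem_primeFactors hp).two_le
    _ ≤ k := Nat.le_of_dvd (Nat.pos_of_ne_zero hk) (Nat.prod_primeFactors_dvd k)

lemma abs_cf {s : ℤ} (hs : s = 1 ∨ s = -1) {k : ℕ} (hk : k ≠ 0) :
    |cf s k| = 2 ^ (cardDistinctFactors k) := by
  unfold cf
  rw [if_neg hk, abs_mul, abs_pow]
  have h1 : |(s : ℝ)| = 1 := by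
    rcases hs with h | h <;> simp [h]
  rw [h1, one_pow, one_mul]
  exact abs_of_pos (by positivity)

lemma one_le_abs_cf {s : ℤ} (hs : s = 1 ∨ s = -1) {k : ℕ} (hk : 1 ≤ k) : 1 ≤ |cf s k| := by
  rw [abs_cf hs (by omega)]
  exact one_le_pow₀ (by norm_num)

lemma abs_cf_le {s : ℤ} (hs : s = 1 ∨ s = -1) (k : ℕ) : |cf s k| ≤ k := by
  rcases Nat.eq_zero_or_pos k with h | h
  · subst h; simp [cf_zero]
  · rw [abs_cf hs (by omega)]
    exact_mod_cast two_pow_omega_le k (by omega)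

lemma summable_cf {s : ℤ} (hs : s = 1 ∨ s = -1) {n : ℕ} (hn : 3 ≤ n) :
    Summable (fun k : ℕ => cf s k / (k : ℝ) ^ n) := by
  have h2 : Summable (fun k : ℕ => 1 / (k : ℝ) ^ 2) :=
    (Real.summable_one_div_nat_pow (p := 2)).mpr (by norm_num)
  refine Summable.of_norm_bounded h2 ?_
  intro k
  rcases Nat.eq_zero_or_pos k with h | h
  · subst h; simp [cf_zero]
  · have hk : (1 : ℝ) ≤ k := by exact_mod_cast h
    rw [Real.norm_eq_abs, abs_div, abs_of_pos (by positivity : (0 : ℝ) < (k : ℝ) ^ n),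
      div_le_div_iff₀ (by positivity) (by positivity)]
    calc |cf s k| * (k : ℝ) ^ 2 ≤ k * (k : ℝ) ^ 2 := by
          gcongr
          exact abs_cf_le hs k
      _ = (k : ℝ) ^ 3 := by ring
      _ ≤ (k : ℝ) ^ n := pow_le_pow_right₀ hk hn
      _ = 1 * (k : ℝ) ^ n := by ring

/-- value of the Dirichlet series at `n` -/
noncomputable def T (s : ℤ) (n : ℕ) : ℝ := ∑' k : ℕ, cf s k / (k : ℝ) ^ n

lemma hasSum_T {s : ℤ} (hs : s = 1 ∨ s = -1) {n : ℕ} (hn : 3 ≤ n) :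
    HasSum (fun k : ℕ => cf s k / (k : ℝ) ^ n) (T s n) := (summable_cf hs hn).hasSum

lemma cf_prime_pow (s : ℤ) {p : ℕ} (hp : p.Prime) (e : ℕ) :
    cf s (p ^ (e + 1)) = 2 * (s : ℝ) ^ (e + 1) := by
  unfold cf
  rw [if_neg (pow_ne_zero _ hp.ne_zero), cardFactors_apply_prime_pow hp,
    cardDistinctFactors_apply_prime_pow hp (by omega)]
  ring

lemma euler_factor {s : ℤ} (hs : s = 1 ∨ s = -1) {p : ℕ} (hp : p.Prime) {n : ℕ} (hn : 3 ≤ n) :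
    ∑' e : ℕ, (cf s (p ^ e) / ((p ^ e : ℕ) : ℝ) ^ n)
      = (1 + s * ((p : ℝ) ^ n)⁻¹) / (1 - s * ((p : ℝ) ^ n)⁻¹) := by
  set x : ℝ := s * ((p : ℝ) ^ n)⁻¹ with hx
  have hp2 : (2 : ℝ) ≤ p := by exact_mod_cast hp.two_le
  have hpn : (2 : ℝ) ≤ (p : ℝ) ^ n := by
    calc (2 : ℝ) ≤ p := hp2
      _ = (p : ℝ) ^ 1 := by ring
      _ ≤ (p : ℝ) ^ n := pow_le_pow_right₀ (by linarith) (by omega)
  have hxabs : |x| ≤ 1 / 2 := by
    rw [hx, abs_mul]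
    have h1 : |(s : ℝ)| = 1 := by
      rcases hs with h | h <;> simp [h]
    rw [h1, one_mul, abs_inv, abs_of_pos (by positivity), inv_eq_one_div]
    exact one_div_le_one_div_of_le (by norm_num) hpn
  have hx1 : |x| < 1 := by linarith
  have hgeo : HasSum (fun e : ℕ => x ^ e) (1 - x)⁻¹ := hasSum_geometric_of_abs_lt_one hx1
  have hterm : ∀ e : ℕ, cf s (p ^ (e + 1)) / ((p ^ (e + 1) : ℕ) : ℝ) ^ n = 2 * x * x ^ e := by
    intro e
    rw [cf_prime_pow s hp, hx]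
    push_cast
    have e1 : ((p : ℝ) ^ (e + 1)) ^ n = ((p : ℝ) ^ n) ^ (e + 1) := by
      rw [← pow_mul, ← pow_mul, mul_comm]
    rw [e1, div_eq_mul_inv, ← inv_pow, mul_pow, pow_succ, pow_succ]
    ring
  have h1 : HasSum (fun e : ℕ => cf s (p ^ (e + 1)) / ((p ^ (e + 1) : ℕ) : ℝ) ^ n)
      (2 * x * (1 - x)⁻¹) := by
    simp_rw [hterm]
    exact hgeo.mul_left (2 * x)
  have h2 : HasSum (fun e : ℕ => cf s (p ^ e) / ((p ^ e : ℕ) : ℝ) ^ n)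
      (2 * x * (1 - x)⁻¹ + 1) := by
    have := (hasSum_nat_add_iff (f := fun e : ℕ => cf s (p ^ e) / ((p ^ e : ℕ) : ℝ) ^ n) 1).mp h1
    simpa [cf_one] using this
  rw [h2.tsum_eq]
  have : (1 - x) ≠ 0 := by
    have := (abs_lt.mp hx1).2
    linarith
  field_simp
  ring

lemma hasProd_T {s : ℤ} (hs : s = 1 ∨ s = -1) {n : ℕ} (hn : 3 ≤ n) :
    HasProd (fun p : Nat.Primes =>
      (1 + s * (((p : ℕ) : ℝ) ^ n)⁻¹) / (1 - s * (((p : ℕ) : ℝ) ^ n)⁻¹)) (T s n) := by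
  have hf1 : (fun k : ℕ => cf s k / (k : ℝ) ^ n) 1 = 1 := by simp [cf_one]
  have hmul : ∀ {a b : ℕ}, a.Coprime b →
      (fun k : ℕ => cf s k / (k : ℝ) ^ n) (a * b)
        = (fun k : ℕ => cf s k / (k : ℝ) ^ n) a * (fun k : ℕ => cf s k / (k : ℝ) ^ n) b := by
    intro a b hab
    simp only
    rw [cf_mul s hab]
    push_cast
    rw [mul_pow, mul_div_mul_comm]
  have h := EulerProduct.eulerProduct_hasProd (f := fun k : ℕ => cf s k / (k : ℝ) ^ n)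
    hf1 hmul (summable_cf hs hn).norm (by simp [cf_zero])
  have : (fun p : Nat.Primes => ∑' e : ℕ, (fun k : ℕ => cf s k / (k : ℝ) ^ n) ((p : ℕ) ^ e))
      = fun p : Nat.Primes =>
      (1 + s * (((p : ℕ) : ℝ) ^ n)⁻¹) / (1 - s * (((p : ℕ) : ℝ) ^ n)⁻¹) := by
    funext p
    exact euler_factor hs p.2 hn
  rw [this] at h
  exact h

lemma hasProd_T_complex {s : ℤ} (hs : s = 1 ∨ s = -1) {n : ℕ} (hn : 3 ≤ n) :
    HasProd (fun p : Nat.Primes =>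
      (1 + (s : ℂ) * (((p : ℕ) : ℂ) ^ n)⁻¹) / (1 - (s : ℂ) * (((p : ℕ) : ℂ) ^ n)⁻¹))
      (T s n : ℂ) := by
  have h := (hasProd_T hs hn).map Complex.ofRealHom.toMonoidHom Complex.continuous_ofReal
  convert h using 1
  · funext p
    simp
  · rfl

lemma hasProd_zeta {n : ℕ} (hn : 2 ≤ n) :
    HasProd (fun p : Nat.Primes => (1 - (((p : ℕ) : ℂ) ^ n)⁻¹)⁻¹) (riemannZeta n) := by
  have h := riemannZeta_eulerProduct_hasProd (s := (n : ℂ)) (by simp; omega)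
  convert h using 1
  funext p
  rw [Complex.cpow_neg, Complex.cpow_natCast]

lemma prime_pow_facts (p : Nat.Primes) {n : ℕ} (hn : 1 ≤ n) :
    (1 - (((p : ℕ) : ℂ) ^ n)⁻¹) ≠ 0 ∧ (1 + (((p : ℕ) : ℂ) ^ n)⁻¹) ≠ 0 := by
  have hp2 : (2 : ℝ) ≤ ((p : ℕ) : ℝ) := by exact_mod_cast p.2.two_le
  have hpn : (2 : ℝ) ≤ ((p : ℕ) : ℝ) ^ n := by
    calc (2 : ℝ) ≤ ((p : ℕ) : ℝ) := hp2
      _ = ((p : ℕ) : ℝ) ^ 1 := by ring
      _ ≤ ((p : ℕ) : ℝ) ^ n := pow_le_pow_right₀ (by linarith) (by omega)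
  have hinv : (((p : ℕ) : ℝ) ^ n)⁻¹ ≤ 1 / 2 := by
    rw [inv_eq_one_div]
    exact one_div_le_one_div_of_le (by norm_num) hpn
  have hpos : 0 < (((p : ℕ) : ℝ) ^ n)⁻¹ := by positivity
  constructor
  · have : (1 - (((p : ℕ) : ℂ) ^ n)⁻¹) = ((1 - (((p : ℕ) : ℝ) ^ n)⁻¹ : ℝ) : ℂ) := by
      push_cast; ring
    rw [this]
    have h0 : (1 - (((p : ℕ) : ℝ) ^ n)⁻¹ : ℝ) ≠ 0 := by
      intro h; linarith
    exact_mod_cast h0
  · have : (1 + (((p : ℕ) : ℂ) ^ n)⁻¹) = ((1 + (((p : ℕ) : ℝ) ^ n)⁻¹ : ℝ) : ℂ) := by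
      push_cast; ring
    rw [this]
    have h0 : (1 + (((p : ℕ) : ℝ) ^ n)⁻¹ : ℝ) ≠ 0 := by
      intro h; linarith
    exact_mod_cast h0

/-- `zeta(2n)/zeta(n)^2` is the Dirichlet series with coefficients `(-1)^Omega 2^omega`. -/
theorem ratio_eq {n : ℕ} (hn : 3 ≤ n) :
    riemannZeta (2 * n) / riemannZeta n ^ 2 = (T (-1) n : ℂ) := by
  have h1 := hasProd_T_complex (s := -1) (Or.inr rfl) hn
  have h2 := hasProd_zeta (n := n) (by omega)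
  have h3 := hasProd_zeta (n := 2 * n) (by omega)
  have h4 := (h1.mul h2).mul h2
  have h5 : (fun p : Nat.Primes =>
      ((1 + ((-1 : ℤ) : ℂ) * (((p : ℕ) : ℂ) ^ n)⁻¹) / (1 - ((-1 : ℤ) : ℂ) * (((p : ℕ) : ℂ) ^ n)⁻¹)
        * (1 - (((p : ℕ) : ℂ) ^ n)⁻¹)⁻¹) * (1 - (((p : ℕ) : ℂ) ^ n)⁻¹)⁻¹)
      = fun p : Nat.Primes => (1 - (((p : ℕ) : ℂ) ^ (2 * n))⁻¹)⁻¹ := by
    funext p
    obtain ⟨ha, hb⟩ := prime_pow_facts p (n := n) (by omega)
    have e1 : (((p : ℕ) : ℂ) ^ (2 * n))⁻¹ = ((((p : ℕ) : ℂ) ^ n)⁻¹) ^ 2 := by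
      rw [pow_mul', inv_pow]
    rw [e1]
    set x := (((p : ℕ) : ℂ) ^ n)⁻¹
    have e2 : (1 - x ^ 2) = (1 - x) * (1 + x) := by ring
    rw [e2]
    push_cast
    have hb' : (1 - -1 * x) ≠ 0 := by
      intro h
      apply hb
      rw [← h]; ring
    have e3 : (1 - -1 * x) = 1 + x := by ring
    rw [e3]
    field_simp
    ring
  rw [h5] at h4
  have h6 := h4.unique h3
  have hz : riemannZeta n ≠ 0 := riemannZeta_ne_zero_of_one_lt_re (by simp; omega)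
  push_cast at h6
  rw [← h6]
  field_simp

/-- `zeta(n)^2/zeta(2n)` is the Dirichlet series with coefficients `2^omega`. -/
theorem inv_ratio_eq {n : ℕ} (hn : 3 ≤ n) :
    riemannZeta n ^ 2 / riemannZeta (2 * n) = (T 1 n : ℂ) := by
  have h1 := hasProd_T_complex (s := 1) (Or.inl rfl) hn
  have h2 := hasProd_zeta (n := n) (by omega)
  have h3 := hasProd_zeta (n := 2 * n) (by omega)
  have h4 := h1.mul h3
  have h7 := h2.mul h2
  have h5 : (fun p : Nat.Primes =>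
      (1 + ((1 : ℤ) : ℂ) * (((p : ℕ) : ℂ) ^ n)⁻¹) / (1 - ((1 : ℤ) : ℂ) * (((p : ℕ) : ℂ) ^ n)⁻¹)
        * (1 - (((p : ℕ) : ℂ) ^ (2 * n))⁻¹)⁻¹)
      = fun p : Nat.Primes => (1 - (((p : ℕ) : ℂ) ^ n)⁻¹)⁻¹ * (1 - (((p : ℕ) : ℂ) ^ n)⁻¹)⁻¹ := by
    funext p
    obtain ⟨ha, hb⟩ := prime_pow_facts p (n := n) (by omega)
    have e1 : (((p : ℕ) : ℂ) ^ (2 * n))⁻¹ = ((((p : ℕ) : ℂ) ^ n)⁻¹) ^ 2 := by
      rw [pow_mul', inv_pow]
    rw [e1]
    set x := (((p : ℕ) : ℂ) ^ n)⁻¹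
    have e2 : (1 - x ^ 2) = (1 - x) * (1 + x) := by ring
    rw [e2]
    push_cast
    have e3 : (1 - 1 * x) = 1 - x := by ring
    rw [e3]
    field_simp
  rw [h5] at h4
  have h6 := h4.unique h7
  have hz : riemannZeta (2 * n) ≠ 0 := riemannZeta_ne_zero_of_one_lt_re (by
    have : (2 : ℂ) * n = ((2 * n : ℕ) : ℂ) := by push_cast; ring
    rw [this, Complex.natCast_re]
    exact_mod_cast (by omega : 1 < 2 * n))
  push_cast at h6
  rw [pow_two, ← h6]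
  field_simp

end MPf1a024
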