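import Mathlib
import Pool.Agent.Work.MP_f1a024_nt.Series

/-!
Dirichlet series of combinations `P_c(m) T(m) + P_d(m)`, where `P_c`, `P_d` are finite sums
of multiples of `k^(-m)`.
-/

namespace MPf1a024.H84

open Finset ArithmeticFunction
open scoped ArithmeticFunction.Moebius

/-- finite Dirichlet polynomial -/
noncomputable def DP (K : Finset ℕ) (c : ℕ → ℝ) (m : ℕ) : ℝ := ∑ k ∈ K, c k / (k : ℝ) ^ m

/-- coefficients of `DP K c * T(-1) + DP K d` -/
noncomputable def gco (K : Finset ℕ) (c d : ℕ → ℝ) (n : ℕ) : ℝ :=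
  ∑ k ∈ K, c k * (if k ∣ n then cf (-1) (n / k) else 0) + (if n ∈ K then d n else 0)

lemma hasSum_shift {k m : ℕ} (hk : 0 < k) (hm : 3 ≤ m) :
    HasSum (fun n : ℕ => (if k ∣ n then cf (-1) (n / k) else 0) / (n : ℝ) ^ m)
      (T (-1) m / (k : ℝ) ^ m) := by
  have hinj : Function.Injective (fun j : ℕ => k * j) := by
    intro a b h
    exact Nat.eq_of_mul_eq_mul_left hk h
  have h0 : ∀ x ∉ Set.range (fun j : ℕ => k * j),
      (if k ∣ x then cf (-1) (x / k) else 0) / (x : ℝ) ^ m = 0 := by
    intro x hx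
    have : ¬ k ∣ x := by
      rintro ⟨j, rfl⟩
      exact hx ⟨j, rfl⟩
    simp [this]
  rw [← hinj.hasSum_iff h0]
  have h1 := (hasSum_T (s := -1) (Or.inr rfl) hm).div_const ((k : ℝ) ^ m)
  have h2 : ((fun n : ℕ => (if k ∣ n then cf (-1) (n / k) else 0) / (n : ℝ) ^ m) ∘
      fun j : ℕ => k * j) = fun j : ℕ => cf (-1) j / (j : ℝ) ^ m / (k : ℝ) ^ m := by
    funext j
    simp only [Function.comp_apply, dvd_mul_right, if_true, Nat.mul_div_cancel_left _ hk]
    push_cast
    rw [mul_pow, div_div, mul_comm ((j : ℝ) ^ m)]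
  rw [h2]
  exact h1

theorem hasSum_gco {K : Finset ℕ} (hK : 0 ∉ K) (c d : ℕ → ℝ) {m : ℕ} (hm : 3 ≤ m) :
    HasSum (fun n : ℕ => gco K c d n / (n : ℝ) ^ m) (DP K c m * T (-1) m + DP K d m) := by
  have h1 : HasSum (fun n : ℕ => ∑ k ∈ K,
      c k * ((if k ∣ n then cf (-1) (n / k) else 0) / (n : ℝ) ^ m)) (DP K c m * T (-1) m) := by
    have : DP K c m * T (-1) m = ∑ k ∈ K, c k * (T (-1) m / (k : ℝ) ^ m) := by
      rw [DP, Finset.sum_mul]
      refine Finset.sum_congr rfl fun k _ => by ring
    rw [this]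
    apply hasSum_sum
    intro k hk
    have hk0 : 0 < k := Nat.pos_of_ne_zero (by rintro rfl; exact hK hk)
    exact (hasSum_shift hk0 hm).mul_left (c k)
  have h2 : HasSum (fun n : ℕ => (if n ∈ K then d n / (n : ℝ) ^ m else 0)) (DP K d m) := by
    have h := hasSum_sum_of_ne_finset_zero (L := SummationFilter.unconditional ℕ)
      (f := fun n : ℕ => (if n ∈ K then d n / (n : ℝ) ^ m else 0))
      (s := K) (by intro b hb; simp [hb])
    have e : ∑ b ∈ K, (if b ∈ K then d b / (b : ℝ) ^ m else 0) = DP K d m := by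
      rw [DP]
      exact Finset.sum_congr rfl fun k hk => by simp [hk]
    rwa [e] at h
  have h3 := h1.add h2
  have e : (fun n : ℕ => gco K c d n / (n : ℝ) ^ m) = fun n : ℕ =>
      (∑ k ∈ K, c k * ((if k ∣ n then cf (-1) (n / k) else 0) / (n : ℝ) ^ m)) +
        (if n ∈ K then d n / (n : ℝ) ^ m else 0) := by
    funext n
    unfold gco
    rw [add_div, Finset.sum_div]
    congr 1
    · exact Finset.sum_congr rfl fun k _ => by ring
    · split_ifs <;> simp
  rw [e]
  exact h3

lemma gco_zero {K : Finset ℕ} (hK : 0 ∉ K) (c d : ℕ → ℝ) : gco K c d 0 = 0 := by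
  unfold gco
  simp [hK, cf_zero]

lemma abs_gco_le {K : Finset ℕ} (hK : 0 ∉ K) (c d : ℕ → ℝ) {X : ℝ} (hX : 0 ≤ X)
    (hc : ∀ k ∈ K, |c k| ≤ X) (hd : ∀ k ∈ K, |d k| ≤ X) (n : ℕ) :
    |gco K c d n| ≤ ((K.card : ℝ) + 1) * X * n := by
  rcases Nat.eq_zero_or_pos n with h | h
  · subst h
    rw [gco_zero hK]
    simp
  have hn : (1 : ℝ) ≤ n := by exact_mod_cast h
  unfold gco
  have h1 : |∑ k ∈ K, c k * (if k ∣ n then cf (-1) (n / k) else 0)| ≤ K.card * (X * n) := by
    calc |∑ k ∈ K, c k * (if k ∣ n then cf (-1) (n / k) else 0)|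
        ≤ ∑ k ∈ K, |c k * (if k ∣ n then cf (-1) (n / k) else 0)| :=
          Finset.abs_sum_le_sum_abs _ _
      _ ≤ ∑ k ∈ K, X * n := by
          apply Finset.sum_le_sum
          intro k hk
          rw [abs_mul]
          apply mul_le_mul (hc k hk) _ (abs_nonneg _) hX
          split_ifs with hkn
          · refine (abs_cf_le (Or.inr rfl) _).trans ?_
            exact_mod_cast Nat.div_le_self n k
          · simp
      _ = K.card * (X * n) := by rw [Finset.sum_const, nsmul_eq_mul]
  have h2 : |if n ∈ K then d n else 0| ≤ X * n := by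
    split_ifs with hnK
    · calc |d n| ≤ X := hd n hnK
        _ ≤ X * n := le_mul_of_one_le_right hX hn
    · simp only [abs_zero]; positivity
  calc |∑ k ∈ K, c k * (if k ∣ n then cf (-1) (n / k) else 0) + (if n ∈ K then d n else 0)|
      ≤ |∑ k ∈ K, c k * (if k ∣ n then cf (-1) (n / k) else 0)| +
        |if n ∈ K then d n else 0| := abs_add_le _ _
    _ ≤ K.card * (X * n) + X * n := add_le_add h1 h2
    _ = ((K.card : ℝ) + 1) * X * n := by ring

/-- tails of Dirichlet series with coefficients `O(n)` -/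
lemma tail_le {h : ℕ → ℝ} {C : ℝ} (hC : 0 ≤ C) (hb : ∀ n, |h n| ≤ C * n) {q : ℕ} (hq : 1 ≤ q)
    (h0 : ∀ n, n < q → h n = 0) {m : ℕ} (hm : 3 ≤ m) {S : ℝ}
    (hS : HasSum (fun n : ℕ => h n / (n : ℝ) ^ m) S) :
    |S| ≤ 2 * C * (q : ℝ) ^ 3 / (q : ℝ) ^ m := by
  have hz := (hasSum_zeta_two).mul_left (C * (q : ℝ) ^ 3 / (q : ℝ) ^ m)
  have hq0 : (0 : ℝ) < q := by exact_mod_cast hq
  have h1 := hS.norm_le_of_bounded hz (by
    intro n
    rw [Real.norm_eq_abs]
    rcases lt_or_ge n q with hn | hn
    · rw [h0 n hn]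
      simp only [zero_div, abs_zero]
      positivity
    · have hn0 : (0 : ℝ) < n := by exact_mod_cast lt_of_lt_of_le hq hn
      have hqn : (q : ℝ) ≤ n := by exact_mod_cast hn
      rw [abs_div, abs_of_pos (by positivity : (0 : ℝ) < (n : ℝ) ^ m), mul_one_div,
        div_div, div_le_div_iff₀ (by positivity) (by positivity)]
      obtain ⟨e, rfl⟩ := Nat.exists_eq_add_of_le hm
      calc |h n| * ((q : ℝ) ^ (3 + e) * (n : ℝ) ^ 2)
          ≤ (C * n) * ((q : ℝ) ^ (3 + e) * (n : ℝ) ^ 2) := by
            gcongr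
            exact hb n
        _ = C * (q : ℝ) ^ 3 * (n : ℝ) ^ 3 * (q : ℝ) ^ e := by ring
        _ ≤ C * (q : ℝ) ^ 3 * (n : ℝ) ^ 3 * (n : ℝ) ^ e := by gcongr
        _ = C * (q : ℝ) ^ 3 * (n : ℝ) ^ (3 + e) := by ring)
  rw [Real.norm_eq_abs] at h1
  refine h1.trans ?_
  have hpi : Real.pi ^ 2 / 6 ≤ 2 := by
    have h3 := Real.pi_lt_d2
    have h4 := Real.pi_pos
    nlinarith
  calc C * (q : ℝ) ^ 3 / (q : ℝ) ^ m * (Real.pi ^ 2 / 6)
      ≤ C * (q : ℝ) ^ 3 / (q : ℝ) ^ m * 2 := by gcongr
    _ = 2 * C * (q : ℝ) ^ 3 / (q : ℝ) ^ m := by ring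

/-- integer version of the coefficients -/
def F : ArithmeticFunction ℤ :=
  ⟨fun k => if k = 0 then 0 else (-1) ^ (cardFactors k) * 2 ^ (cardDistinctFactors k), by simp⟩

lemma F_cast (k : ℕ) : ((F k : ℤ) : ℝ) = cf (-1) k := by
  unfold F cf
  simp only [ArithmeticFunction.coe_mk]
  split_ifs <;> simp

lemma F_mult : F.IsMultiplicative := by
  constructor
  · unfold F; simp
  · intro m n h
    have := cf_mul (-1) h
    rw [← F_cast, ← F_cast, ← F_cast] at this
    exact_mod_cast this

lemma F_prime_pow {p : ℕ} (hp : p.Prime) (e : ℕ) : F (p ^ (e + 1)) = 2 * (-1) ^ (e + 1) := by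
  have := cf_prime_pow (-1) hp e
  rw [← F_cast] at this
  exact_mod_cast this

lemma sq_mul_F : (ArithmeticFunction.pmul μ μ) * F = μ := by
  have hm : (ArithmeticFunction.pmul μ μ).IsMultiplicative := isMultiplicative_moebius.pmul isMultiplicative_moebius
  rw [(hm.mul F_mult).eq_iff_eq_on_prime_powers _ _ isMultiplicative_moebius]
  intro p k hp
  rw [ArithmeticFunction.mul_apply,
    Nat.sum_divisorsAntidiagonal (fun a b => (ArithmeticFunction.pmul μ μ) a * F b), Nat.divisors_prime_pow hp,
    Finset.sum_map]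
  simp only [Function.Embedding.coeFn_mk, ArithmeticFunction.pmul_apply]
  match k with
  | 0 => simp [F_mult.map_one]
  | 1 =>
    rw [Finset.sum_range_succ, Finset.sum_range_one]
    have h1 := F_prime_pow hp 0
    simp only [zero_add, pow_one] at h1
    simp [F_mult.map_one, h1, moebius_apply_prime hp, Nat.div_self hp.pos]
  | k + 2 =>
    rw [Finset.sum_range_succ', Finset.sum_range_succ']
    have h2 : ∀ i, μ (p ^ (i + 1 + 1)) = 0 := by
      intro i
      rw [moebius_apply_prime_pow hp (by omega)]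
      simp
    simp only [h2, mul_zero, zero_mul, Finset.sum_const_zero, zero_add, pow_zero, pow_one,
      moebius_apply_one, Nat.div_one, one_mul, moebius_apply_prime hp]
    have h3 : p ^ (k + 2) / p = p ^ (k + 1) := by
      rw [pow_succ, Nat.mul_div_cancel _ hp.pos]
    rw [h3, F_prime_pow hp k, F_prime_pow hp (k + 1)]
    ring

/-- For `n` with all prime factors below `q`, the convolution identity in the form we need. -/
lemma gco_small {q n : ℕ} (hn0 : 0 < n) (hnq : n < q) :
    gco (∏ p ∈ Finset.range q with p.Prime, p).divisors (fun _ => 1) (fun k => -(μ k : ℝ)) n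
      = 0 := by
  set P := ∏ p ∈ Finset.range q with p.Prime, p with hP
  have hP0 : P ≠ 0 := Finset.prod_ne_zero_iff.mpr fun p hp => (Finset.mem_filter.mp hp).2.ne_zero
  have hPsq : Squarefree P := by
    rw [hP]
    apply Finset.squarefree_prod_of_pairwise_isCoprime
    · intro a ha b hb hab
      simp only [Finset.coe_filter, Finset.mem_range, Set.mem_ofPred_eq] at ha hb
      change IsRelPrime a b
      rw [← Nat.coprime_iff_isRelPrime]
      exact (Nat.coprime_primes ha.2 hb.2).mpr hab
    · intro a ha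
      exact (Finset.mem_filter.mp ha).2.squarefree
  have hdvd : ∀ k, k ∣ n → (k ∣ P ↔ Squarefree k) := by
    intro k hk
    constructor
    · intro h; exact hPsq.squarefree_of_dvd h
    · intro h
      rw [← Nat.prod_primeFactors_of_squarefree h]
      apply Finset.prod_dvd_prod_of_subset
      intro p hp
      have h1 := Nat.prime_of_mem_primeFactors hp
      have h2 := Nat.le_of_dvd hn0 ((Nat.dvd_of_mem_primeFactors hp).trans hk)
      simp only [Finset.mem_filter, Finset.mem_range]
      exact ⟨by omega, h1⟩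
  have hconv := congrArg (fun f : ArithmeticFunction ℤ => ((f n : ℤ) : ℝ)) sq_mul_F
  simp only [ArithmeticFunction.mul_apply] at hconv
  rw [Nat.sum_divisorsAntidiagonal (fun a b => (ArithmeticFunction.pmul μ μ) a * F b)] at hconv
  unfold gco
  have h1 : ∑ k ∈ P.divisors, (1 : ℝ) * (if k ∣ n then cf (-1) (n / k) else 0) = (μ n : ℝ) := by
    rw [← hconv]
    push_cast
    have e1 : ∑ k ∈ P.divisors, (1 : ℝ) * (if k ∣ n then cf (-1) (n / k) else 0) =
        ∑ k ∈ P.divisors with k ∣ n, cf (-1) (n / k) := by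
      rw [Finset.sum_filter]
      exact Finset.sum_congr rfl fun k _ => by rw [one_mul]
    have e2 : ∑ k ∈ n.divisors, ((ArithmeticFunction.pmul μ μ k : ℤ) : ℝ) * ((F (n / k) : ℤ) : ℝ) =
        ∑ k ∈ n.divisors with Squarefree k, cf (-1) (n / k) := by
      rw [Finset.sum_filter]
      refine Finset.sum_congr rfl fun k _ => ?_
      rw [ArithmeticFunction.pmul_apply, F_cast]
      by_cases hk : Squarefree k
      · have : μ k * μ k = 1 := by
          have := moebius_sq_eq_one_of_squarefree hk
          rwa [pow_two] at this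
        rw [this, if_pos hk]; simp
      · rw [moebius_eq_zero_of_not_squarefree hk, if_neg hk]; simp
    rw [e1, e2]
    apply Finset.sum_congr _ fun _ _ => rfl
    ext k
    simp only [Finset.mem_filter, Nat.mem_divisors]
    constructor
    · rintro ⟨⟨ha, _⟩, hb⟩
      exact ⟨⟨hb, hn0.ne'⟩, (hdvd k hb).mp ha⟩
    · rintro ⟨⟨ha, _⟩, hb⟩
      exact ⟨⟨(hdvd k ha).mpr hb, hP0⟩, ha⟩
  rw [h1]
  by_cases hsq : Squarefree n
  · rw [if_pos (Nat.mem_divisors.mpr ⟨(hdvd n dvd_rfl).mpr hsq, hP0⟩)]
    ring
  · split_ifs <;> simp [moebius_eq_zero_of_not_squarefree hsq]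

/-- Injectivity of `(c, d) ↦ gco`, quantitative. -/
theorem gco_inj {q R : ℕ} (hq : q.Prime) (hR : R ≠ 0) (hqR : ¬ q ∣ R) :
    ∃ κ : ℝ, 0 < κ ∧ ∀ (c d : ℕ → ℝ) (δ : ℝ), 0 ≤ δ →
      (∀ n, 0 < n → n ≤ q * R → |gco R.divisors c d n| ≤ δ) →
      ∀ k ∈ R.divisors, |c k| ≤ κ * δ ∧ |d k| ≤ κ * δ := by
  set kap : ℕ → ℝ := fun k => ∏ i ∈ Finset.range (k + 1), ((i : ℝ) ^ 2 + 1) with hkap
  have hkap1 : ∀ k, 1 ≤ kap k := by
    intro k
    have : ∀ n : ℕ, (1 : ℝ) ≤ ∏ i ∈ Finset.range n, ((i : ℝ) ^ 2 + 1) := by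
      intro n
      induction n with
      | zero => simp
      | succ n ih =>
        rw [Finset.prod_range_succ]
        have h2 : (0 : ℝ) ≤ (n : ℝ) ^ 2 := by positivity
        nlinarith
    exact this (k + 1)
  have hkap_succ : ∀ k, kap (k + 1) = kap k * (((k + 1 : ℕ) : ℝ) ^ 2 + 1) := by
    intro k
    rw [hkap]
    simp only
    rw [Finset.prod_range_succ]
  have hkap_mono : Monotone kap := by
    apply monotone_nat_of_le_succ
    intro k
    rw [hkap_succ]
    have := hkap1 k
    have h2 : (0 : ℝ) ≤ ((k + 1 : ℕ) : ℝ) ^ 2 := by positivity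
    nlinarith
  refine ⟨kap (R + 1), by linarith [hkap1 (R + 1)], fun c d δ hδ hg => ?_⟩
  have key : ∀ k, k ∈ R.divisors → |c k| ≤ kap k * δ := by
    intro k
    induction k using Nat.strong_induction_on with
    | _ k ih =>
      intro hk
      have hkR : k ∣ R := Nat.dvd_of_mem_divisors hk
      have hk0 : 0 < k := Nat.pos_of_dvd_of_pos hkR (Nat.pos_of_ne_zero hR)
      have h1 := hg (k * q) (Nat.mul_pos hk0 hq.pos) (by
        rw [mul_comm]
        exact Nat.mul_le_mul_left _ (Nat.le_of_dvd (Nat.pos_of_ne_zero hR) hkR))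
      have hnot : k * q ∉ R.divisors := by
        intro h
        exact hqR ((dvd_mul_left q k).trans (Nat.dvd_of_mem_divisors h))
      have hcfq : cf (-1) q = -2 := by
        have := cf_prime_pow (-1) hq 0
        simpa using this
      have h2 : gco R.divisors c d (k * q) = -2 * ∑ i ∈ k.divisors, c i * cf (-1) (k / i) := by
        unfold gco
        rw [if_neg hnot, add_zero, Finset.mul_sum]
        have hsub : k.divisors ⊆ R.divisors := Nat.divisors_subset_of_dvd hR hkR
        rw [← Finset.sum_subset hsub]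
        · refine Finset.sum_congr rfl fun i hi => ?_
          have hik : i ∣ k := Nat.dvd_of_mem_divisors hi
          rw [if_pos (hik.mul_right q)]
          have hdiv : k * q / i = k / i * q := by
            rw [Nat.mul_comm, Nat.mul_div_assoc _ hik, Nat.mul_comm]
          have hcop : (k / i).Coprime q := by
            rw [Nat.coprime_comm, hq.coprime_iff_not_dvd]
            intro h
            exact hqR ((h.trans (Nat.div_dvd_of_dvd hik)).trans hkR)
          rw [hdiv, cf_mul _ hcop, hcfq]
          ring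
        · intro i hi hik
          have hiR : i ∣ R := Nat.dvd_of_mem_divisors hi
          have : ¬ i ∣ k * q := by
            intro h
            apply hik
            rw [Nat.mem_divisors]
            refine ⟨?_, hk0.ne'⟩
            have hcop : i.Coprime q := by
              rw [Nat.coprime_comm, hq.coprime_iff_not_dvd]
              intro h'
              exact hqR (h'.trans hiR)
            exact hcop.dvd_of_dvd_mul_right h
          rw [if_neg this, mul_zero]
      rw [h2, ← Nat.cons_self_properDivisors hk0.ne', Finset.sum_cons, Nat.div_self hk0,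
        cf_one, mul_one] at h1
      have h3 : |∑ i ∈ k.properDivisors, c i * cf (-1) (k / i)| ≤
          (k : ℝ) ^ 2 * (kap (k - 1) * δ) := by
        calc |∑ i ∈ k.properDivisors, c i * cf (-1) (k / i)|
            ≤ ∑ i ∈ k.properDivisors, |c i * cf (-1) (k / i)| := Finset.abs_sum_le_sum_abs _ _
          _ ≤ ∑ i ∈ k.properDivisors, (kap (k - 1) * δ) * k := by
              apply Finset.sum_le_sum
              intro i hi
              rw [Nat.mem_properDivisors] at hi
              rw [abs_mul]
              have hi2 : i ∈ R.divisors := Nat.mem_divisors.mpr ⟨hi.1.trans hkR, hR⟩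
              have h4 := ih i hi.2 hi2
              have h5 : kap i ≤ kap (k - 1) := hkap_mono (by omega)
              have h6 : |cf (-1) (k / i)| ≤ k := by
                refine (abs_cf_le (Or.inr rfl) _).trans ?_
                exact_mod_cast Nat.div_le_self k i
              apply mul_le_mul (h4.trans (by gcongr)) h6 (abs_nonneg _)
              have := hkap1 (k - 1)
              positivity
          _ = k.properDivisors.card * ((kap (k - 1) * δ) * k) := by
              rw [Finset.sum_const, nsmul_eq_mul]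
          _ ≤ k * ((kap (k - 1) * δ) * k) := by
              have h7 : k.properDivisors.card ≤ k := by
                calc k.properDivisors.card ≤ k.divisors.card :=
                      Finset.card_le_card Nat.properDivisors_subset_divisors
                  _ ≤ k := Nat.card_divisors_le_self k
              have := hkap1 (k - 1)
              have h8 : (k.properDivisors.card : ℝ) ≤ k := by exact_mod_cast h7
              apply mul_le_mul_of_nonneg_right h8
              positivity
          _ = (k : ℝ) ^ 2 * (kap (k - 1) * δ) := by ring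
      set S := ∑ i ∈ k.properDivisors, c i * cf (-1) (k / i) with hS
      have h4 : |c k + S| ≤ δ := by
        rw [abs_mul] at h1
        have : |(-2 : ℝ)| = 2 := by norm_num
        rw [this] at h1
        have := abs_nonneg (c k + S)
        linarith
      have h5 : |c k| ≤ δ + (k : ℝ) ^ 2 * (kap (k - 1) * δ) := by
        calc |c k| = |(c k + S) - S| := by ring_nf
          _ ≤ |c k + S| + |S| := abs_sub _ _
          _ ≤ _ := add_le_add h4 h3
      refine h5.trans ?_
      have h6 : kap k = kap (k - 1) * ((k : ℝ) ^ 2 + 1) := by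
        have := hkap_succ (k - 1)
        rwa [Nat.sub_add_cancel hk0] at this
      rw [h6]
      have := hkap1 (k - 1)
      nlinarith [mul_nonneg (sub_nonneg.mpr this) hδ]
  intro k hk
  have hkR : k ∣ R := Nat.dvd_of_mem_divisors hk
  have hk0 : 0 < k := Nat.pos_of_dvd_of_pos hkR (Nat.pos_of_ne_zero hR)
  have hkle : k ≤ R := Nat.le_of_dvd (Nat.pos_of_ne_zero hR) hkR
  have hRle : R ≤ q * R := Nat.le_mul_of_pos_left R hq.pos
  refine ⟨(key k hk).trans ?_, ?_⟩
  · have : kap k ≤ kap (R + 1) := hkap_mono (by omega)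
    gcongr
  · have h1 := hg k hk0 (hkle.trans hRle)
    unfold gco at h1
    rw [if_pos hk] at h1
    have h3 : |∑ i ∈ R.divisors, c i * (if i ∣ k then cf (-1) (k / i) else 0)| ≤
        (R : ℝ) ^ 2 * (kap R * δ) := by
      calc |∑ i ∈ R.divisors, c i * (if i ∣ k then cf (-1) (k / i) else 0)|
          ≤ ∑ i ∈ R.divisors, |c i * (if i ∣ k then cf (-1) (k / i) else 0)| :=
            Finset.abs_sum_le_sum_abs _ _
        _ ≤ ∑ i ∈ R.divisors, (kap R * δ) * R := by
            apply Finset.sum_le_sum
            intro i hi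
            rw [abs_mul]
            have hiR : i ≤ R := Nat.le_of_dvd (Nat.pos_of_ne_zero hR) (Nat.dvd_of_mem_divisors hi)
            have h5 : kap i ≤ kap R := hkap_mono hiR
            have h6 : |if i ∣ k then cf (-1) (k / i) else 0| ≤ R := by
              split_ifs
              · refine (abs_cf_le (Or.inr rfl) _).trans ?_
                exact_mod_cast (Nat.div_le_self k i).trans hkle
              · simp
            apply mul_le_mul ((key i hi).trans (by gcongr)) h6 (abs_nonneg _)
            have := hkap1 R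
            positivity
        _ = R.divisors.card * ((kap R * δ) * R) := by
            rw [Finset.sum_const, nsmul_eq_mul]
        _ ≤ R * ((kap R * δ) * R) := by
            have := hkap1 R
            have h8 : (R.divisors.card : ℝ) ≤ R := by exact_mod_cast Nat.card_divisors_le_self R
            apply mul_le_mul_of_nonneg_right h8
            positivity
        _ = (R : ℝ) ^ 2 * (kap R * δ) := by ring
    set S := ∑ i ∈ R.divisors, c i * (if i ∣ k then cf (-1) (k / i) else 0) with hS
    have h5 : |d k| ≤ δ + (R : ℝ) ^ 2 * (kap R * δ) := by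
      calc |d k| = |(S + d k) - S| := by ring_nf
        _ ≤ |S + d k| + |S| := abs_sub _ _
        _ ≤ _ := add_le_add h1 h3
    refine h5.trans ?_
    rw [hkap_succ R]
    have h7 := hkap1 R
    have h8 : (0 : ℝ) ≤ R := by positivity
    push_cast
    have h9 : 0 ≤ kap R * δ := by positivity
    nlinarith [mul_nonneg (sub_nonneg.mpr h7) hδ, mul_nonneg h9 h8]

end MPf1a024.H84
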