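import Mathlib
import Pool.Agent.Work.MP_f1a024_nt.Series

namespace MPf1a024

open Finset ArithmeticFunction

lemma cf_vals : cf (-1) 1 = 1 ∧ cf (-1) 2 = -2 ∧ cf (-1) 3 = -2 ∧ cf (-1) 4 = 2 ∧
    cf (-1) 5 = -2 ∧ cf (-1) 6 = 4 ∧ cf (-1) 7 = -2 ∧ cf (-1) 8 = -2 ∧ cf (-1) 9 = 2 ∧
    cf (-1) 10 = 4 := by
  have h2 := cf_prime_pow (-1) Nat.prime_two 0
  have h4 := cf_prime_pow (-1) Nat.prime_two 1
  have h8 := cf_prime_pow (-1) Nat.prime_two 2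
  have h3 := cf_prime_pow (-1) Nat.prime_three 0
  have h9 := cf_prime_pow (-1) Nat.prime_three 1
  have h5 := cf_prime_pow (-1) Nat.prime_five 0
  have h7 := cf_prime_pow (-1) (by norm_num : Nat.Prime 7) 0
  norm_num at h2 h4 h8 h3 h9 h5 h7
  have h6 := cf_mul (-1) (m := 2) (n := 3) (by norm_num)
  have h10 := cf_mul (-1) (m := 2) (n := 5) (by norm_num)
  norm_num [h2, h3, h5] at h6 h10
  refine ⟨cf_one _, h2, h3, h4, h5, h6, h7, h8, h9, h10⟩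

/-- main terms of the Dirichlet series -/
noncomputable def P (n : ℕ) : ℝ :=
  1 - 2 / 2 ^ n - 2 / 3 ^ n + 2 / 4 ^ n - 2 / 5 ^ n + 4 / 6 ^ n - 2 / 7 ^ n - 2 / 8 ^ n +
    2 / 9 ^ n + 4 / 10 ^ n

lemma tail : ∃ C : ℝ, 0 ≤ C ∧ ∀ n : ℕ, 3 ≤ n → |T (-1) n - P n| ≤ C * (1 / 11) ^ n := by
  have hsum2 : Summable (fun k : ℕ => 1 / ((k + 11 : ℕ) : ℝ) ^ 2) := by
    have := (Real.summable_one_div_nat_pow (p := 2)).mpr (by norm_num)
    exact (summable_nat_add_iff 11).mpr this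
  refine ⟨11 ^ 3 * ∑' k : ℕ, 1 / ((k + 11 : ℕ) : ℝ) ^ 2, by positivity, ?_⟩
  intro n hn
  have hs := summable_cf (s := -1) (Or.inr rfl) hn
  have h1 := hs.sum_add_tsum_nat_add 11
  have h2 : ∑ k ∈ Finset.range 11, cf (-1) k / (k : ℝ) ^ n = P n := by
    obtain ⟨c1, c2, c3, c4, c5, c6, c7, c8, c9, c10⟩ := cf_vals
    simp only [Finset.sum_range_succ, Finset.sum_range_zero]
    rw [cf_zero, c1, c2, c3, c4, c5, c6, c7, c8, c9, c10]
    unfold P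
    push_cast
    rw [one_pow]
    ring
  have h3 : T (-1) n - P n = ∑' k : ℕ, cf (-1) (k + 11) / ((k + 11 : ℕ) : ℝ) ^ n := by
    rw [← h2]
    unfold T
    linarith
  rw [h3]
  have h4 : ∀ k : ℕ, |cf (-1) (k + 11) / ((k + 11 : ℕ) : ℝ) ^ n| ≤
      11 ^ 3 * (1 / 11) ^ n * (1 / ((k + 11 : ℕ) : ℝ) ^ 2) := by
    intro k
    have hk : (11 : ℝ) ≤ ((k + 11 : ℕ) : ℝ) := by
      push_cast
      have : (0 : ℝ) ≤ k := by positivity
      linarith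
    have hk0 : (0 : ℝ) < ((k + 11 : ℕ) : ℝ) := by linarith
    rw [abs_div, abs_of_pos (pow_pos hk0 n), div_le_iff₀ (pow_pos hk0 n)]
    refine (abs_cf_le (s := -1) (Or.inr rfl) (k + 11)).trans ?_
    set x : ℝ := ((k + 11 : ℕ) : ℝ) with hx
    obtain ⟨j, rfl⟩ := Nat.exists_eq_add_of_le hn
    have h5 : (11 : ℝ) ^ 3 * (1 / 11) ^ (3 + j) * (1 / x ^ 2) * x ^ (3 + j) =
        x * (x / 11) ^ j := by
      rw [pow_add, pow_add, div_pow x]
      field_simp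
      rw [← mul_pow]; norm_num
    rw [h5]
    have h6 : 1 ≤ (x / 11) ^ j := by
      apply one_le_pow₀
      rw [le_div_iff₀ (by norm_num)]
      linarith
    nlinarith
  have h5 : Summable (fun k : ℕ => 11 ^ 3 * (1 / 11 : ℝ) ^ n * (1 / ((k + 11 : ℕ) : ℝ) ^ 2)) :=
    hsum2.mul_left _
  have h6 : Summable (fun k : ℕ => |cf (-1) (k + 11) / ((k + 11 : ℕ) : ℝ) ^ n|) :=
    Summable.of_nonneg_of_le (fun k => abs_nonneg _) h4 h5
  calc |∑' k : ℕ, cf (-1) (k + 11) / ((k + 11 : ℕ) : ℝ) ^ n|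
      ≤ ∑' k : ℕ, |cf (-1) (k + 11) / ((k + 11 : ℕ) : ℝ) ^ n| :=
        norm_tsum_le_tsum_norm (f := fun k : ℕ => cf (-1) (k + 11) / ((k + 11 : ℕ) : ℝ) ^ n) h6
    _ ≤ ∑' k : ℕ, 11 ^ 3 * (1 / 11 : ℝ) ^ n * (1 / ((k + 11 : ℕ) : ℝ) ^ 2) :=
        h6.tsum_le_tsum h4 h5
    _ = _ := by rw [tsum_mul_left]; ring

/-- `2^(-n)` -/
noncomputable def z (n : ℕ) : ℝ := (1 / 2) ^ n

/-- `3^(-n) + 5^(-n) + 7^(-n)` -/
noncomputable def v (n : ℕ) : ℝ := (1 / 3) ^ n + (1 / 5) ^ n + (1 / 7) ^ n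

/-- the model value of `t(n)` -/
noncomputable def t₀ (n : ℕ) : ℝ := (1 - z n) / (1 + z n) * ((1 - v n) / (1 + v n))

lemma pow_le_of_le {x y : ℝ} (hx : 0 ≤ x) (hxy : x ≤ y) (n : ℕ) : x ^ n ≤ y ^ n :=
  pow_le_pow_left₀ hx hxy n

lemma model : ∀ n : ℕ, 1 ≤ n → |t₀ n - P n| ≤ 600 * (1 / 11) ^ n := by
  intro n hn
  set M : ℝ := (1 / 11) ^ n with hM
  set zz : ℝ := (1 / 2) ^ n with hzz
  set a : ℝ := (1 / 3) ^ n with ha
  set b : ℝ := (1 / 5) ^ n with hb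
  set c : ℝ := (1 / 7) ^ n with hc
  have hM0 : 0 < M := by positivity
  have hz0 : 0 < zz := by positivity
  have ha0 : 0 < a := by positivity
  have hb0 : 0 < b := by positivity
  have hc0 : 0 < c := by positivity
  have hz1 : zz ≤ 1 := pow_le_one₀ (by norm_num) (by norm_num)
  have ha1 : a ≤ 1 := pow_le_one₀ (by norm_num) (by norm_num)
  have hb1 : b ≤ 1 := pow_le_one₀ (by norm_num) (by norm_num)
  have hc1 : c ≤ 1 := pow_le_one₀ (by norm_num) (by norm_num)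
  have hba : b ≤ a := pow_le_of_le (by norm_num) (by norm_num) n
  have hca : c ≤ a := pow_le_of_le (by norm_num) (by norm_num) n
  have mono : ∀ x : ℝ, 0 ≤ x → x ≤ 1 / 11 → x ^ n ≤ M := fun x h0 h1 => pow_le_of_le h0 h1 n
  have e1 : zz ^ 4 ≤ M := by
    rw [hzz, ← pow_mul, mul_comm, pow_mul]; exact mono _ (by norm_num) (by norm_num)
  have e2 : zz ^ 2 * a ≤ M := by
    rw [hzz, ha, ← pow_mul, mul_comm n 2, pow_mul, ← mul_pow]
    exact mono _ (by norm_num) (by norm_num)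
  have e3 : zz * c ≤ M := by
    rw [hzz, hc, ← mul_pow]; exact mono _ (by norm_num) (by norm_num)
  have e4 : zz * a ^ 2 ≤ M := by
    rw [hzz, ha, ← pow_mul, mul_comm n 2, pow_mul, ← mul_pow]
    exact mono _ (by norm_num) (by norm_num)
  have e5 : a * b ≤ M := by
    rw [ha, hb, ← mul_pow]; exact mono _ (by norm_num) (by norm_num)
  have e6 : a * c ≤ M := by
    rw [ha, hc, ← mul_pow]; exact mono _ (by norm_num) (by norm_num)
  have e7 : a ^ 3 ≤ M := by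
    rw [ha, ← pow_mul, mul_comm, pow_mul]; exact mono _ (by norm_num) (by norm_num)
  have e8 : b * b ≤ M := by
    rw [hb, ← mul_pow]; exact mono _ (by norm_num) (by norm_num)
  have e9 : b * c ≤ M := by
    rw [hb, hc, ← mul_pow]; exact mono _ (by norm_num) (by norm_num)
  have e10 : c * c ≤ M := by
    rw [hc, ← mul_pow]; exact mono _ (by norm_num) (by norm_num)
  have hP : P n = 1 - 2 * zz - 2 * a + 2 * zz ^ 2 - 2 * b + 4 * (zz * a) - 2 * c - 2 * zz ^ 3 +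
      2 * a ^ 2 + 4 * (zz * b) := by
    unfold P
    have k2 : (1 : ℝ) / 2 ^ n = zz := by rw [hzz, one_div_pow]
    have k3 : (1 : ℝ) / 3 ^ n = a := by rw [ha, one_div_pow]
    have k5 : (1 : ℝ) / 5 ^ n = b := by rw [hb, one_div_pow]
    have k7 : (1 : ℝ) / 7 ^ n = c := by rw [hc, one_div_pow]
    have k4 : (1 : ℝ) / 4 ^ n = zz ^ 2 := by
      rw [hzz, ← pow_mul, mul_comm, pow_mul, ← one_div_pow]; norm_num
    have k8 : (1 : ℝ) / 8 ^ n = zz ^ 3 := by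
      rw [hzz, ← pow_mul, mul_comm, pow_mul, ← one_div_pow]; norm_num
    have k9 : (1 : ℝ) / 9 ^ n = a ^ 2 := by
      rw [ha, ← pow_mul, mul_comm, pow_mul, ← one_div_pow]; norm_num
    have k6 : (1 : ℝ) / 6 ^ n = zz * a := by
      rw [hzz, ha, ← mul_pow, ← one_div_pow]; norm_num
    have k10 : (1 : ℝ) / 10 ^ n = zz * b := by
      rw [hzz, hb, ← mul_pow, ← one_div_pow]; norm_num
    rw [← k2, ← k3, ← k5, ← k7] at *
    have : ∀ (c x : ℝ), c / x = c * (1 / x) := fun c x => by ring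
    rw [this 2 (2 ^ n), this 2 (3 ^ n), this 2 (4 ^ n), this 2 (5 ^ n), this 4 (6 ^ n),
      this 2 (7 ^ n), this 2 (8 ^ n), this 2 (9 ^ n), this 4 (10 ^ n), k4, k6, k8, k9, k10]
  have hv : v n = a + b + c := rfl
  have hzn : z n = zz := rfl
  set w : ℝ := a + b + c with hw
  have hw0 : 0 < w := by positivity
  have hw3 : w ≤ 3 * a := by rw [hw]; linarith
  -- first factor
  have hA : (1 - zz) / (1 + zz) = 1 - 2 * zz + 2 * zz ^ 2 - 2 * zz ^ 3 + 2 * zz ^ 4 / (1 + zz) := by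
    field_simp; ring
  have hB : (1 - w) / (1 + w) = 1 - 2 * w + 2 * w ^ 2 - 2 * w ^ 3 / (1 + w) := by
    field_simp; ring
  set α : ℝ := 2 * zz ^ 4 / (1 + zz) with hα
  have hα0 : 0 ≤ α := by positivity
  have hα1 : α ≤ 2 * M := by
    rw [hα, div_le_iff₀ (by positivity)]
    nlinarith
  set β : ℝ := 2 * w ^ 2 - 2 * a ^ 2 - 2 * w ^ 3 / (1 + w) with hβ
  have hβ1 : |β| ≤ 70 * M := by
    have h1 : w ^ 2 - a ^ 2 = 2 * (a * b) + 2 * (a * c) + b * b + 2 * (b * c) + c * c := by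
      rw [hw]; ring
    have h2 : w ^ 3 / (1 + w) ≤ 27 * M := by
      rw [div_le_iff₀ (by positivity)]
      have : w ^ 3 ≤ (3 * a) ^ 3 := pow_le_pow_left₀ hw0.le hw3 3
      nlinarith
    have h3 : 0 ≤ w ^ 3 / (1 + w) := by positivity
    have h4 : 0 ≤ w ^ 2 - a ^ 2 := by rw [h1]; positivity
    have h5 : w ^ 2 - a ^ 2 ≤ 8 * M := by rw [h1]; linarith
    have h6 : β = 2 * (w ^ 2 - a ^ 2) - 2 * (w ^ 3 / (1 + w)) := by rw [hβ]; ring
    rw [h6, abs_le]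
    constructor <;> linarith
  have hBval : (1 - w) / (1 + w) = 1 - 2 * w + 2 * a ^ 2 + β := by rw [hB, hβ]; ring
  have hBabs : |(1 - w) / (1 + w)| ≤ 1 := by
    rw [abs_div, div_le_one (by positivity), abs_of_pos (by positivity : 0 < 1 + w), abs_le]
    constructor <;> linarith
  have hmain : t₀ n - P n = α * ((1 - w) / (1 + w)) +
      (1 - 2 * zz + 2 * zz ^ 2 - 2 * zz ^ 3) * β +
      (4 * (zz * c) - 4 * (zz * a ^ 2) - 4 * (zz ^ 2 * a) - 4 * (zz ^ 2 * b) - 4 * (zz ^ 2 * c) +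
        4 * (zz ^ 2 * a ^ 2) + 4 * (zz ^ 3 * a) + 4 * (zz ^ 3 * b) + 4 * (zz ^ 3 * c) -
        4 * (zz ^ 3 * a ^ 2)) := by
    have : t₀ n = (1 - zz) / (1 + zz) * ((1 - w) / (1 + w)) := rfl
    rw [this, hA, hP]
    have h1 : (1 - 2 * zz + 2 * zz ^ 2 - 2 * zz ^ 3 + α) * ((1 - w) / (1 + w)) =
        α * ((1 - w) / (1 + w)) + (1 - 2 * zz + 2 * zz ^ 2 - 2 * zz ^ 3) * ((1 - w) / (1 + w)) := by
      ring
    rw [h1]
    have h2 : (1 - 2 * zz + 2 * zz ^ 2 - 2 * zz ^ 3) * ((1 - w) / (1 + w)) =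
        (1 - 2 * zz + 2 * zz ^ 2 - 2 * zz ^ 3) * (1 - 2 * w + 2 * a ^ 2 + β) := by rw [hBval]
    rw [h2, hw]
    ring
  have hA3 : |1 - 2 * zz + 2 * zz ^ 2 - 2 * zz ^ 3| ≤ 7 := by
    have h2 : zz ^ 2 ≤ 1 := pow_le_one₀ hz0.le hz1
    have h3 : zz ^ 3 ≤ 1 := pow_le_one₀ hz0.le hz1
    have h4 : 0 ≤ zz ^ 2 := by positivity
    have h5 : 0 ≤ zz ^ 3 := by positivity
    rw [abs_le]; constructor <;> linarith
  have f1 : |α * ((1 - w) / (1 + w))| ≤ 2 * M := by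
    rw [abs_mul, abs_of_nonneg hα0]
    calc α * |(1 - w) / (1 + w)| ≤ (2 * M) * 1 := by gcongr
      _ = 2 * M := by ring
  have f2 : |(1 - 2 * zz + 2 * zz ^ 2 - 2 * zz ^ 3) * β| ≤ 490 * M := by
    rw [abs_mul]
    calc |1 - 2 * zz + 2 * zz ^ 2 - 2 * zz ^ 3| * |β| ≤ 7 * (70 * M) := by gcongr
      _ = 490 * M := by ring
  have g1 : zz ^ 2 * b ≤ M := le_trans (by gcongr) e2
  have g2 : zz ^ 2 * c ≤ M := le_trans (by gcongr) e2
  have g3 : zz ^ 2 * a ^ 2 ≤ M := by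
    have : zz ^ 2 * a ^ 2 ≤ zz ^ 2 * a := by
      have : a ^ 2 ≤ a := by nlinarith
      gcongr
    linarith
  have g4 : zz ^ 3 * a ≤ M := by
    have : zz ^ 3 * a ≤ zz ^ 2 * a := by
      have : zz ^ 3 ≤ zz ^ 2 := pow_le_pow_of_le_one hz0.le hz1 (by norm_num)
      gcongr
    linarith
  have g5 : zz ^ 3 * b ≤ M := le_trans (by gcongr) g4
  have g6 : zz ^ 3 * c ≤ M := le_trans (by gcongr) g4
  have g7 : zz ^ 3 * a ^ 2 ≤ M := by
    have : zz ^ 3 * a ^ 2 ≤ zz ^ 3 * a := by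
      have : a ^ 2 ≤ a := by nlinarith
      gcongr
    linarith
  have f3 : |4 * (zz * c) - 4 * (zz * a ^ 2) - 4 * (zz ^ 2 * a) - 4 * (zz ^ 2 * b) -
      4 * (zz ^ 2 * c) + 4 * (zz ^ 2 * a ^ 2) + 4 * (zz ^ 3 * a) + 4 * (zz ^ 3 * b) +
      4 * (zz ^ 3 * c) - 4 * (zz ^ 3 * a ^ 2)| ≤ 20 * M := by
    have p1 : 0 ≤ zz * c := by positivity
    have p2 : 0 ≤ zz * a ^ 2 := by positivity
    have p3 : 0 ≤ zz ^ 2 * a := by positivity
    have p4 : 0 ≤ zz ^ 2 * b := by positivity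
    have p5 : 0 ≤ zz ^ 2 * c := by positivity
    have p6 : 0 ≤ zz ^ 2 * a ^ 2 := by positivity
    have p7 : 0 ≤ zz ^ 3 * a := by positivity
    have p8 : 0 ≤ zz ^ 3 * b := by positivity
    have p9 : 0 ≤ zz ^ 3 * c := by positivity
    have p10 : 0 ≤ zz ^ 3 * a ^ 2 := by positivity
    rw [abs_le]; constructor <;> linarith
  rw [hmain]
  refine (abs_add_le _ _).trans ?_
  have := abs_add_le (α * ((1 - w) / (1 + w))) ((1 - 2 * zz + 2 * zz ^ 2 - 2 * zz ^ 3) * β)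
  linarith

end MPf1a024
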