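import Mathlib
import Pool.Agent.Work.MP_f1a024_nt.Expansion

namespace MPf1a024

open Finset

/-- `(1 + t(n))/(1 - t(n)) - 2^n` -/
noncomputable def Y (n : ℕ) : ℝ := (1 + T (-1) n) / (1 - T (-1) n) - 2 ^ n

/-- the seven leading exponentials -/
noncomputable def E (n : ℕ) : ℝ :=
  -(4 / 3) ^ n + (8 / 9) ^ n - (4 / 5) ^ n - (16 / 27) ^ n - (4 / 7) ^ n + 2 * (8 / 15) ^ n +
    (32 / 81) ^ n

lemma model_exp (n : ℕ) :
    |(1 + z n * v n) / (z n + v n) - 2 ^ n - E n| ≤ 400 * (8 / 21) ^ n := by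
  set ρ : ℝ := (8 / 21) ^ n with hρ
  set x : ℝ := (1 / 2) ^ n with hx
  set a : ℝ := (1 / 3) ^ n with ha
  set b : ℝ := (1 / 5) ^ n with hb
  set c : ℝ := (1 / 7) ^ n with hc
  have hρ0 : 0 < ρ := by positivity
  have hx0 : 0 < x := by positivity
  have ha0 : 0 < a := by positivity
  have hb0 : 0 < b := by positivity
  have hc0 : 0 < c := by positivity
  have hba : b ≤ a := pow_le_of_le (by norm_num) (by norm_num) n
  have hcb : c ≤ b := pow_le_of_le (by norm_num) (by norm_num) n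
  have hz : z n = x := rfl
  have hv : v n = a + b + c := rfl
  rw [hz, hv]
  set w : ℝ := a + b + c with hw
  have hw0 : 0 < w := by positivity
  have hw3 : w ≤ 3 * a := by rw [hw]; linarith
  have h2n : (2 : ℝ) ^ n = 1 / x := by rw [hx, one_div_pow, one_div_one_div]
  -- the exact values of the exponentials
  have k43 : (4 / 3 : ℝ) ^ n = a / x ^ 2 := by
    rw [ha, hx, ← pow_mul, mul_comm n 2, pow_mul, ← div_pow]; norm_num
  have k45 : (4 / 5 : ℝ) ^ n = b / x ^ 2 := by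
    rw [hb, hx, ← pow_mul, mul_comm n 2, pow_mul, ← div_pow]; norm_num
  have k47 : (4 / 7 : ℝ) ^ n = c / x ^ 2 := by
    rw [hc, hx, ← pow_mul, mul_comm n 2, pow_mul, ← div_pow]; norm_num
  have k89 : (8 / 9 : ℝ) ^ n = a ^ 2 / x ^ 3 := by
    rw [ha, hx, ← pow_mul, ← pow_mul, mul_comm n 2, mul_comm n 3, pow_mul, pow_mul, ← div_pow]
    norm_num
  have k815 : (8 / 15 : ℝ) ^ n = a * b / x ^ 3 := by
    rw [ha, hb, hx, ← pow_mul, mul_comm n 3, pow_mul, ← mul_pow, ← div_pow]; norm_num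
  have k821 : ρ = a * c / x ^ 3 := by
    rw [hρ, ha, hc, hx, ← pow_mul, mul_comm n 3, pow_mul, ← mul_pow, ← div_pow]; norm_num
  have k1627 : (16 / 27 : ℝ) ^ n = a ^ 3 / x ^ 4 := by
    rw [ha, hx, ← pow_mul, ← pow_mul, mul_comm n 3, mul_comm n 4, pow_mul, pow_mul, ← div_pow]
    norm_num
  have k3281 : (32 / 81 : ℝ) ^ n = a ^ 4 / x ^ 5 := by
    rw [ha, hx, ← pow_mul, ← pow_mul, mul_comm n 4, mul_comm n 5, pow_mul, pow_mul, ← div_pow]
    norm_num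
  -- the small exponentials
  have s1 : a ≤ ρ := pow_le_of_le (by norm_num) (by norm_num) n
  have s2 : b ^ 2 / x ^ 3 ≤ ρ := by
    have : b ^ 2 / x ^ 3 = (8 / 25 : ℝ) ^ n := by
      rw [hb, hx, ← pow_mul, ← pow_mul, mul_comm n 2, mul_comm n 3, pow_mul, pow_mul, ← div_pow]
      norm_num
    rw [this]; exact pow_le_of_le (by norm_num) (by norm_num) n
  have s3 : a ^ 2 * b / x ^ 4 ≤ ρ := by
    have : a ^ 2 * b / x ^ 4 = (16 / 45 : ℝ) ^ n := by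
      rw [ha, hb, hx, ← pow_mul, ← pow_mul, mul_comm n 2, mul_comm n 4, pow_mul, pow_mul,
        ← mul_pow, ← div_pow]
      norm_num
    rw [this]; exact pow_le_of_le (by norm_num) (by norm_num) n
  have s4 : a ^ 3 * b / x ^ 5 ≤ ρ := by
    have : a ^ 3 * b / x ^ 5 = (32 / 135 : ℝ) ^ n := by
      rw [ha, hb, hx, ← pow_mul, ← pow_mul, mul_comm n 3, mul_comm n 5, pow_mul, pow_mul,
        ← mul_pow, ← div_pow]
      norm_num
    rw [this]; exact pow_le_of_le (by norm_num) (by norm_num) n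
  have s5 : a ^ 5 / x ^ 6 ≤ ρ := by
    have : a ^ 5 / x ^ 6 = (64 / 243 : ℝ) ^ n := by
      rw [ha, hx, ← pow_mul, ← pow_mul, mul_comm n 5, mul_comm n 6, pow_mul, pow_mul, ← div_pow]
      norm_num
    rw [this]; exact pow_le_of_le (by norm_num) (by norm_num) n
  -- decomposition
  have hdec : (1 + x * w) / (x + w) - 2 ^ n - E n =
      (w ^ 2 - a ^ 2 - 2 * (a * b)) / x ^ 3 - (w ^ 3 - a ^ 3) / x ^ 4 + (w ^ 4 - a ^ 4) / x ^ 5 -
        w ^ 5 / (x ^ 5 * (x + w)) + x * w / (x + w) := by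
    unfold E
    rw [h2n, k43, k45, k47, k89, k815, k1627, k3281]
    have hE : (1 + x * w) / (x + w) - 1 / x =
        -(w / x ^ 2) + w ^ 2 / x ^ 3 - w ^ 3 / x ^ 4 + w ^ 4 / x ^ 5 - w ^ 5 / (x ^ 5 * (x + w)) +
          x * w / (x + w) := by
      field_simp
      ring
    rw [hE, hw]
    ring
  have r2 : |(w ^ 2 - a ^ 2 - 2 * (a * b)) / x ^ 3| ≤ 6 * ρ := by
    have e1 : w ^ 2 - a ^ 2 - 2 * (a * b) = b ^ 2 + c ^ 2 + 2 * (a * c) + 2 * (b * c) := by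
      rw [hw]; ring
    rw [e1, abs_of_nonneg (by positivity)]
    have e2 : c ^ 2 ≤ b ^ 2 := pow_le_pow_left₀ hc0.le hcb 2
    have e3 : b * c ≤ a * c := by gcongr
    have e4 : b ^ 2 + c ^ 2 + 2 * (a * c) + 2 * (b * c) ≤ 2 * b ^ 2 + 4 * (a * c) := by
      linarith
    calc (b ^ 2 + c ^ 2 + 2 * (a * c) + 2 * (b * c)) / x ^ 3
        ≤ (2 * b ^ 2 + 4 * (a * c)) / x ^ 3 :=
          div_le_div_of_nonneg_right e4 (by positivity)
      _ = 2 * (b ^ 2 / x ^ 3) + 4 * (a * c / x ^ 3) := by ring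
      _ ≤ 6 * ρ := by rw [← k821]; linarith
  have hu : w = a + (b + c) := by rw [hw]; ring
  have hu2 : b + c ≤ 2 * b := by linarith
  have hu0 : 0 ≤ b + c := by positivity
  have r3 : |(w ^ 3 - a ^ 3) / x ^ 4| ≤ 26 * ρ := by
    have e1 : w ^ 3 - a ^ 3 = 3 * a ^ 2 * (b + c) + 3 * a * (b + c) ^ 2 + (b + c) ^ 3 := by
      rw [hu]; ring
    rw [e1, abs_of_nonneg (by positivity)]
    have e2 : 3 * a ^ 2 * (b + c) + 3 * a * (b + c) ^ 2 + (b + c) ^ 3 ≤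
        3 * a ^ 2 * (2 * b) + 3 * a * (2 * b) ^ 2 + (2 * b) ^ 3 := by gcongr
    have e3 : 3 * a ^ 2 * (2 * b) + 3 * a * (2 * b) ^ 2 + (2 * b) ^ 3 ≤ 26 * (a ^ 2 * b) := by
      have f1 : a * b ^ 2 ≤ a ^ 2 * b := by
        have : a * b ^ 2 = a * b * b := by ring
        have h2 : a ^ 2 * b = a * b * a := by ring
        rw [this, h2]; gcongr
      have f2 : b ^ 3 ≤ a * b ^ 2 := by
        have : b ^ 3 = b * b ^ 2 := by ring
        rw [this]; gcongr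
      nlinarith
    calc (3 * a ^ 2 * (b + c) + 3 * a * (b + c) ^ 2 + (b + c) ^ 3) / x ^ 4
        ≤ (26 * (a ^ 2 * b)) / x ^ 4 := by gcongr; linarith
      _ = 26 * (a ^ 2 * b / x ^ 4) := by ring
      _ ≤ 26 * ρ := by linarith
  have r4 : |(w ^ 4 - a ^ 4) / x ^ 5| ≤ 80 * ρ := by
    have e1 : w ^ 4 - a ^ 4 = 4 * a ^ 3 * (b + c) + 6 * a ^ 2 * (b + c) ^ 2 +
        4 * a * (b + c) ^ 3 + (b + c) ^ 4 := by
      rw [hu]; ring
    rw [e1, abs_of_nonneg (by positivity)]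
    have e2 : 4 * a ^ 3 * (b + c) + 6 * a ^ 2 * (b + c) ^ 2 + 4 * a * (b + c) ^ 3 + (b + c) ^ 4 ≤
        4 * a ^ 3 * (2 * b) + 6 * a ^ 2 * (2 * b) ^ 2 + 4 * a * (2 * b) ^ 3 + (2 * b) ^ 4 := by
      gcongr
    have e3 : 4 * a ^ 3 * (2 * b) + 6 * a ^ 2 * (2 * b) ^ 2 + 4 * a * (2 * b) ^ 3 + (2 * b) ^ 4 ≤
        80 * (a ^ 3 * b) := by
      have f1 : a ^ 2 * b ^ 2 ≤ a ^ 3 * b := by
        have : a ^ 2 * b ^ 2 = a ^ 2 * b * b := by ring
        have h2 : a ^ 3 * b = a ^ 2 * b * a := by ring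
        rw [this, h2]; gcongr
      have f2 : a * b ^ 3 ≤ a ^ 2 * b ^ 2 := by
        have : a * b ^ 3 = a * b ^ 2 * b := by ring
        have h2 : a ^ 2 * b ^ 2 = a * b ^ 2 * a := by ring
        rw [this, h2]; gcongr
      have f3 : b ^ 4 ≤ a * b ^ 3 := by
        have : b ^ 4 = b * b ^ 3 := by ring
        rw [this]; gcongr
      nlinarith
    calc (4 * a ^ 3 * (b + c) + 6 * a ^ 2 * (b + c) ^ 2 + 4 * a * (b + c) ^ 3 + (b + c) ^ 4) / x ^ 5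
        ≤ (80 * (a ^ 3 * b)) / x ^ 5 := by gcongr; linarith
      _ = 80 * (a ^ 3 * b / x ^ 5) := by ring
      _ ≤ 80 * ρ := by linarith
  have r5 : |w ^ 5 / (x ^ 5 * (x + w))| ≤ 243 * ρ := by
    rw [abs_of_nonneg (by positivity)]
    have e1 : w ^ 5 ≤ (3 * a) ^ 5 := pow_le_pow_left₀ hw0.le hw3 5
    calc w ^ 5 / (x ^ 5 * (x + w)) ≤ (3 * a) ^ 5 / (x ^ 5 * x) := by
          gcongr
          linarith
      _ = 243 * (a ^ 5 / x ^ 6) := by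
          rw [mul_pow]; ring
      _ ≤ 243 * ρ := by linarith
  have r6 : |x * w / (x + w)| ≤ 3 * ρ := by
    rw [abs_of_nonneg (by positivity), div_le_iff₀ (by positivity)]
    have e1 : w ≤ 3 * ρ := by linarith
    nlinarith
  rw [hdec]
  have t1 := abs_add_le ((w ^ 2 - a ^ 2 - 2 * (a * b)) / x ^ 3 - (w ^ 3 - a ^ 3) / x ^ 4 +
    (w ^ 4 - a ^ 4) / x ^ 5 - w ^ 5 / (x ^ 5 * (x + w))) (x * w / (x + w))
  have t2 := abs_sub ((w ^ 2 - a ^ 2 - 2 * (a * b)) / x ^ 3 - (w ^ 3 - a ^ 3) / x ^ 4 +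
    (w ^ 4 - a ^ 4) / x ^ 5) (w ^ 5 / (x ^ 5 * (x + w)))
  have t3 := abs_add_le ((w ^ 2 - a ^ 2 - 2 * (a * b)) / x ^ 3 - (w ^ 3 - a ^ 3) / x ^ 4)
    ((w ^ 4 - a ^ 4) / x ^ 5)
  have t4 := abs_sub ((w ^ 2 - a ^ 2 - 2 * (a * b)) / x ^ 3) ((w ^ 3 - a ^ 3) / x ^ 4)
  linarith

/-- The asymptotic expansion of `Y`. -/
theorem Y_exp : ∃ C : ℝ, 0 ≤ C ∧ ∃ N : ℕ, 3 ≤ N ∧ ∀ n : ℕ, N ≤ n →
    (1 / 2) ^ n ≤ 1 - T (-1) n ∧ 1 - T (-1) n ≤ C * (1 / 2) ^ n ∧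
      |Y n - E n| ≤ C * (8 / 21) ^ n := by
  obtain ⟨C₀, hC₀, htail⟩ := tail
  set C₁ : ℝ := C₀ + 600 with hC₁
  have hdiff : ∀ n : ℕ, 3 ≤ n → |T (-1) n - t₀ n| ≤ C₁ * (1 / 11) ^ n := by
    intro n hn
    have h1 := htail n hn
    have h2 := model n (by omega)
    have h3 := abs_sub_le (T (-1) n) (P n) (t₀ n)
    rw [abs_sub_comm (P n) (t₀ n)] at h3
    rw [hC₁]
    linarith
  -- eventually `C₁ (2/11)^n ≤ 1/2`
  obtain ⟨N₁, hN₁⟩ : ∃ N₁ : ℕ, C₁ * (2 / 11) ^ N₁ ≤ 1 / 2 := by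
    obtain ⟨N₁, hN₁⟩ := exists_pow_lt_of_lt_one (show (0 : ℝ) < 1 / (2 * C₁) by positivity)
      (show (2 / 11 : ℝ) < 1 by norm_num)
    refine ⟨N₁, ?_⟩
    rw [lt_div_iff₀ (by positivity)] at hN₁
    linarith
  refine ⟨2 * C₁ + 410, by positivity, max 3 N₁, le_max_left _ _, ?_⟩
  intro n hn
  have hn3 : 3 ≤ n := (le_max_left _ _).trans hn
  have hnN : N₁ ≤ n := (le_max_right _ _).trans hn
  have hd := hdiff n hn3
  set τ : ℝ := T (-1) n with hτ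
  set x : ℝ := (1 / 2) ^ n with hx
  have hx0 : 0 < x := by positivity
  have hxz : z n = x := rfl
  have hx8 : x ≤ 1 / 8 := by
    calc x ≤ (1 / 2 : ℝ) ^ 3 := pow_le_pow_of_le_one (by norm_num) (by norm_num) hn3
      _ = 1 / 8 := by norm_num
  have hv0 : 0 < v n := by unfold v; positivity
  have hv9 : v n ≤ 1 / 9 := by
    unfold v
    have h3 : (1 / 3 : ℝ) ^ n ≤ (1 / 3) ^ 3 := pow_le_pow_of_le_one (by norm_num) (by norm_num) hn3
    have h5 : (1 / 5 : ℝ) ^ n ≤ (1 / 5) ^ 3 := pow_le_pow_of_le_one (by norm_num) (by norm_num) hn3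
    have h7 : (1 / 7 : ℝ) ^ n ≤ (1 / 7) ^ 3 := pow_le_pow_of_le_one (by norm_num) (by norm_num) hn3
    norm_num at h3 h5 h7
    norm_num
    linarith
  have hv3 : v n ≤ 3 * x := by
    unfold v
    have h3 : (1 / 3 : ℝ) ^ n ≤ x := pow_le_of_le (by norm_num) (by norm_num) n
    have h5 : (1 / 5 : ℝ) ^ n ≤ x := pow_le_of_le (by norm_num) (by norm_num) n
    have h7 : (1 / 7 : ℝ) ^ n ≤ x := pow_le_of_le (by norm_num) (by norm_num) n
    linarith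
  set y : ℝ := v n with hy
  have ht₀ : 1 - t₀ n = 2 * (x + y) / ((1 + x) * (1 + y)) := by
    unfold t₀
    rw [hxz, ← hy]
    field_simp
    ring
  have ht₀' : 1 + t₀ n = 2 * (1 + x * y) / ((1 + x) * (1 + y)) := by
    unfold t₀
    rw [hxz, ← hy]
    field_simp
    ring
  have hlow₀ : (3 / 2) * x ≤ 1 - t₀ n := by
    rw [ht₀, le_div_iff₀ (by positivity)]
    have : (1 + x) * (1 + y) ≤ 4 / 3 := by nlinarith
    nlinarith
  have hup₀ : 1 - t₀ n ≤ 8 * x := by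
    rw [ht₀, div_le_iff₀ (by positivity)]
    have : 1 ≤ (1 + x) * (1 + y) := by nlinarith
    nlinarith
  have h11 : C₁ * (1 / 11) ^ n ≤ (1 / 2) * x := by
    have e1 : (1 / 11 : ℝ) ^ n = (2 / 11) ^ n * x := by
      rw [hx, ← mul_pow]; norm_num
    have e2 : (2 / 11 : ℝ) ^ n ≤ (2 / 11) ^ N₁ :=
      pow_le_pow_of_le_one (by norm_num) (by norm_num) hnN
    rw [e1]
    have e3 : C₁ * (2 / 11 : ℝ) ^ n ≤ 1 / 2 := by
      have : C₁ * (2 / 11 : ℝ) ^ n ≤ C₁ * (2 / 11) ^ N₁ := by gcongr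
      linarith
    calc C₁ * ((2 / 11 : ℝ) ^ n * x) = (C₁ * (2 / 11 : ℝ) ^ n) * x := by ring
      _ ≤ (1 / 2) * x := by gcongr
  have hd' := abs_le.mp hd
  have hlow : x ≤ 1 - τ := by linarith [hd'.1, hd'.2]
  refine ⟨hlow, ?_, ?_⟩
  · have : 1 - τ ≤ 9 * x := by linarith [hd'.1, hd'.2]
    have hC : 9 ≤ 2 * C₁ + 410 := by
      have : 0 ≤ C₁ := by positivity
      linarith
    calc 1 - τ ≤ 9 * x := this
      _ ≤ (2 * C₁ + 410) * x := by gcongr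
  · have hmod := model_exp n
    rw [hxz, ← hy] at hmod
    have hH₀ : (1 + t₀ n) / (1 - t₀ n) = (1 + x * y) / (x + y) := by
      rw [ht₀, ht₀']
      field_simp
    have h1τ : 0 < 1 - τ := by linarith
    have h1t : 0 < 1 - t₀ n := by linarith
    have hHdiff : |(1 + τ) / (1 - τ) - (1 + t₀ n) / (1 - t₀ n)| ≤ 2 * C₁ * (8 / 21) ^ n := by
      have e1 : (1 + τ) / (1 - τ) - (1 + t₀ n) / (1 - t₀ n) =
          2 * (τ - t₀ n) / ((1 - τ) * (1 - t₀ n)) := by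
        field_simp
        ring
      rw [e1, abs_div, abs_of_pos (mul_pos h1τ h1t), abs_mul, abs_of_pos (by norm_num : (0:ℝ) < 2),
        div_le_iff₀ (mul_pos h1τ h1t)]
      have e2 : x * x ≤ (1 - τ) * (1 - t₀ n) := by
        apply mul_le_mul hlow (by linarith) hx0.le h1τ.le
      have e3 : (1 / 11 : ℝ) ^ n ≤ (8 / 21) ^ n * (x * x) := by
        rw [hx, ← mul_pow, ← mul_pow]
        exact pow_le_of_le (by norm_num) (by norm_num) n
      calc 2 * |τ - t₀ n| ≤ 2 * (C₁ * (1 / 11) ^ n) := by gcongr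
        _ ≤ 2 * (C₁ * ((8 / 21) ^ n * (x * x))) := by gcongr
        _ ≤ 2 * (C₁ * ((8 / 21) ^ n * ((1 - τ) * (1 - t₀ n)))) := by gcongr
        _ = 2 * C₁ * (8 / 21) ^ n * ((1 - τ) * (1 - t₀ n)) := by ring
    have e4 : Y n - E n = ((1 + τ) / (1 - τ) - (1 + t₀ n) / (1 - t₀ n)) +
        ((1 + x * y) / (x + y) - 2 ^ n - E n) := by
      rw [hH₀]; unfold Y; rw [← hτ]; ring
    rw [e4]
    have e5 := abs_add_le ((1 + τ) / (1 - τ) - (1 + t₀ n) / (1 - t₀ n))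
      ((1 + x * y) / (x + y) - 2 ^ n - E n)
    have e6 : (0 : ℝ) < (8 / 21) ^ n := by positivity
    nlinarith

end MPf1a024
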