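import Mathlib

/-!
Non-vanishing and size of Hankel determinants of a Dirichlet series sampled along an
arithmetic progression.
-/

namespace MPf1a024

open Polynomial

/-- Newton-type polynomial with nodes `1/l^q`. -/
noncomputable def P (q i : ℕ) : ℝ[X] :=
  ∏ l ∈ Finset.range i, (X - C (1 / ((l + 1 : ℕ) : ℝ) ^ q))

/-- value of `P q i` at `1/k^q`. -/
noncomputable def F (q i k : ℕ) : ℝ :=
  ∏ l ∈ Finset.range i, (1 / (k : ℝ) ^ q - 1 / ((l + 1 : ℕ) : ℝ) ^ q)

lemma P_monic (q i : ℕ) : (P q i).Monic :=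
  monic_prod_of_monic _ _ (fun _ _ => monic_X_sub_C _)

lemma P_natDegree (q i : ℕ) : (P q i).natDegree = i := by
  unfold P
  rw [natDegree_prod_of_monic _ _ (fun _ _ => monic_X_sub_C _)]
  simp

lemma P_eval (q i k : ℕ) : (P q i).eval (1 / (k : ℝ) ^ q) = F q i k := by
  unfold P F
  rw [eval_prod]
  simp

lemma F_eq_zero {q i k : ℕ} (hk : 1 ≤ k) (hki : k ≤ i) : F q i k = 0 := by
  unfold F
  apply Finset.prod_eq_zero (i := k - 1) (Finset.mem_range.mpr (by omega))
  rw [Nat.sub_add_cancel hk]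
  simp

lemma fac_pos {q s k : ℕ} (hq : 1 ≤ q) (hs : 1 ≤ s) (hsk : s < k) :
    0 < 1 / (s : ℝ) ^ q - 1 / (k : ℝ) ^ q := by
  have hs' : (0 : ℝ) < s := by exact_mod_cast hs
  have h1 : (s : ℝ) ^ q < (k : ℝ) ^ q :=
    pow_lt_pow_left₀ (by exact_mod_cast hsk) hs'.le (by omega)
  have : 1 / (k : ℝ) ^ q < 1 / (s : ℝ) ^ q := one_div_lt_one_div_of_lt (by positivity) h1
  linarith

lemma abs_F {q i k : ℕ} (hq : 1 ≤ q) (hk : i < k) :
    |F q i k| = ∏ l ∈ Finset.range i, (1 / ((l + 1 : ℕ) : ℝ) ^ q - 1 / (k : ℝ) ^ q) := by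
  unfold F
  rw [Finset.abs_prod]
  apply Finset.prod_congr rfl
  intro l hl
  have hl' := Finset.mem_range.mp hl
  have := fac_pos (q := q) (s := l + 1) (k := k) hq (by omega) (by omega)
  rw [abs_of_neg (by linarith)]
  ring

lemma abs_F_pos {q i k : ℕ} (hq : 1 ≤ q) (hk : i < k) : 0 < |F q i k| := by
  rw [abs_F hq hk]
  apply Finset.prod_pos
  intro l hl
  have hl' := Finset.mem_range.mp hl
  exact fac_pos hq (by omega) (by omega)

lemma abs_F_le_one {q i k : ℕ} (hq : 1 ≤ q) (hk : i < k) : |F q i k| ≤ 1 := by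
  rw [abs_F hq hk]
  apply Finset.prod_le_one
  · intro l hl
    have hl' := Finset.mem_range.mp hl
    exact (fac_pos hq (by omega) (by omega)).le
  · intro l hl
    have h1 : (1 : ℝ) ≤ ((l + 1 : ℕ) : ℝ) := by exact_mod_cast (by omega : 1 ≤ l + 1)
    have h2 : 1 / ((l + 1 : ℕ) : ℝ) ^ q ≤ 1 := by
      rw [div_le_one (by positivity)]
      exact one_le_pow₀ h1
    have h3 : 0 ≤ 1 / (k : ℝ) ^ q := by positivity
    linarith

lemma fac_mul {q s k : ℕ} (hs : 1 ≤ s) (hk : 1 ≤ k) :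
    1 / (s : ℝ) ^ q - 1 / (k : ℝ) ^ q
      = (1 / (s : ℝ) ^ q) * ((1 - (s : ℝ) / k) * ∑ j ∈ Finset.range q, ((s : ℝ) / k) ^ j) := by
  have hs' : (0 : ℝ) < s := by exact_mod_cast hs
  have hk' : (0 : ℝ) < k := by exact_mod_cast hk
  have h := mul_neg_geom_sum ((s : ℝ) / k) q
  rw [h, div_pow]
  field_simp

/-- first comparison: the factor ratio is at most `(k-s)/(m-s)`. -/
lemma fac_ratio {q s m k : ℕ} (hs : 1 ≤ s) (hsm : s < m) (hmk : m ≤ k) :
    (1 / (s : ℝ) ^ q - 1 / (k : ℝ) ^ q) * ((m : ℝ) - s)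
      ≤ ((k : ℝ) - s) * (1 / (s : ℝ) ^ q - 1 / (m : ℝ) ^ q) := by
  have hs' : (0 : ℝ) < s := by exact_mod_cast hs
  have hm' : (0 : ℝ) < m := by exact_mod_cast (by omega : 0 < m)
  have hk' : (0 : ℝ) < k := by exact_mod_cast (by omega : 0 < k)
  have hmk' : (m : ℝ) ≤ k := by exact_mod_cast hmk
  have hsm' : (s : ℝ) < m := by exact_mod_cast hsm
  rw [fac_mul hs (by omega : 1 ≤ k), fac_mul hs (by omega : 1 ≤ m)]
  have e1 : (1 - (s : ℝ) / k) = ((k : ℝ) - s) * (1 / k) := by field_simp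
  have e2 : (1 - (s : ℝ) / m) = ((m : ℝ) - s) * (1 / m) := by field_simp
  rw [e1, e2]
  have h1 : (1 : ℝ) / k ≤ 1 / m := one_div_le_one_div_of_le hm' hmk'
  have h2 : ∑ j ∈ Finset.range q, ((s : ℝ) / k) ^ j ≤ ∑ j ∈ Finset.range q, ((s : ℝ) / m) ^ j := by
    apply Finset.sum_le_sum
    intro j _
    apply pow_le_pow_left₀ (by positivity)
    exact div_le_div_of_nonneg_left hs'.le hm' hmk'
  have h3 : 0 ≤ ∑ j ∈ Finset.range q, ((s : ℝ) / k) ^ j :=
    Finset.sum_nonneg (fun j _ => by positivity)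
  have h4 : (1 / (k : ℝ)) * ∑ j ∈ Finset.range q, ((s : ℝ) / k) ^ j
      ≤ (1 / (m : ℝ)) * ∑ j ∈ Finset.range q, ((s : ℝ) / m) ^ j :=
    mul_le_mul h1 h2 h3 (by positivity)
  have h5 : 0 ≤ (1 / (s : ℝ) ^ q) * (((k : ℝ) - s) * ((m : ℝ) - s)) := by
    have a1 : 0 ≤ (k : ℝ) - s := by linarith
    have a2 : 0 ≤ (m : ℝ) - s := by linarith
    positivity
  calc 1 / (s : ℝ) ^ q * (((k : ℝ) - s) * (1 / k) * ∑ j ∈ Finset.range q, ((s : ℝ) / k) ^ j)
        * ((m : ℝ) - s)
      = ((1 / (s : ℝ) ^ q) * (((k : ℝ) - s) * ((m : ℝ) - s)))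
        * ((1 / (k : ℝ)) * ∑ j ∈ Finset.range q, ((s : ℝ) / k) ^ j) := by ring
    _ ≤ ((1 / (s : ℝ) ^ q) * (((k : ℝ) - s) * ((m : ℝ) - s)))
        * ((1 / (m : ℝ)) * ∑ j ∈ Finset.range q, ((s : ℝ) / m) ^ j) :=
        mul_le_mul_of_nonneg_left h4 h5
    _ = ((k : ℝ) - s) * (1 / (s : ℝ) ^ q * (((m : ℝ) - s) * (1 / m)
        * ∑ j ∈ Finset.range q, ((s : ℝ) / m) ^ j)) := by ring

/-- second comparison: the factor ratio is at most `m`. -/
lemma fac_ratio' {q s m k : ℕ} (hq : 1 ≤ q) (hs : 1 ≤ s) (hsm : s < m) :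
    (1 / (s : ℝ) ^ q - 1 / (k : ℝ) ^ q) ≤ (m : ℝ) * (1 / (s : ℝ) ^ q - 1 / (m : ℝ) ^ q) := by
  have hs' : (0 : ℝ) < s := by exact_mod_cast hs
  have hm' : (0 : ℝ) < m := by exact_mod_cast (by omega : 0 < m)
  have hsm1 : (s : ℝ) + 1 ≤ m := by exact_mod_cast hsm
  have h0 : 0 ≤ 1 / (k : ℝ) ^ q := by positivity
  rw [fac_mul hs (by omega : 1 ≤ m)]
  have h1 : (1 : ℝ) ≤ ∑ j ∈ Finset.range q, ((s : ℝ) / m) ^ j := by
    calc (1 : ℝ) = ∑ j ∈ Finset.range 1, ((s : ℝ) / m) ^ j := by simp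
      _ ≤ ∑ j ∈ Finset.range q, ((s : ℝ) / m) ^ j := by
        apply Finset.sum_le_sum_of_subset_of_nonneg
        · exact Finset.range_mono hq
        · intro j _ _
          positivity
  have h2 : (1 : ℝ) ≤ m * (1 - (s : ℝ) / m) := by
    have : (m : ℝ) * (1 - (s : ℝ) / m) = m - s := by field_simp
    rw [this]; linarith
  have h3 : (1 : ℝ) ≤ m * (1 - (s : ℝ) / m) * ∑ j ∈ Finset.range q, ((s : ℝ) / m) ^ j :=
    one_le_mul_of_one_le_of_one_le h2 h1
  calc 1 / (s : ℝ) ^ q - 1 / (k : ℝ) ^ q ≤ 1 / (s : ℝ) ^ q * 1 := by linarith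
    _ ≤ 1 / (s : ℝ) ^ q * (m * (1 - (s : ℝ) / m) * ∑ j ∈ Finset.range q, ((s : ℝ) / m) ^ j) := by
        gcongr
    _ = _ := by ring

lemma abs_F_le_pow {q i k : ℕ} (hq : 1 ≤ q) (hk : i + 1 ≤ k) :
    |F q i k| ≤ ((i + 1 : ℕ) : ℝ) ^ (i + 1) * |F q i (i + 1)| := by
  rw [abs_F hq (by omega), abs_F hq (by omega)]
  have h1 : ∏ l ∈ Finset.range i, (1 / ((l + 1 : ℕ) : ℝ) ^ q - 1 / (k : ℝ) ^ q)
      ≤ ∏ l ∈ Finset.range i, (((i + 1 : ℕ) : ℝ)
        * (1 / ((l + 1 : ℕ) : ℝ) ^ q - 1 / ((i + 1 : ℕ) : ℝ) ^ q)) := by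
    apply Finset.prod_le_prod
    · intro l hl
      have hl' := Finset.mem_range.mp hl
      exact (fac_pos hq (by omega) (by omega)).le
    · intro l hl
      have hl' := Finset.mem_range.mp hl
      exact fac_ratio' hq (by omega) (by omega)
  rw [Finset.prod_mul_distrib, Finset.prod_const, Finset.card_range] at h1
  refine h1.trans ?_
  apply mul_le_mul_of_nonneg_right
  · have : (1 : ℝ) ≤ ((i + 1 : ℕ) : ℝ) := by exact_mod_cast (by omega : 1 ≤ i + 1)
    exact pow_le_pow_right₀ this (by omega)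
  · apply Finset.prod_nonneg
    intro l hl
    have hl' := Finset.mem_range.mp hl
    exact (fac_pos hq (by omega) (by omega)).le

lemma abs_F_le_choose {q i k : ℕ} (hq : 1 ≤ q) (hk : i + 1 ≤ k) :
    |F q i k| ≤ ((k - 1).choose i : ℝ) * |F q i (i + 1)| := by
  have h1 : |F q i k| * ∏ l ∈ Finset.range i, (((i + 1 : ℕ) : ℝ) - ((l + 1 : ℕ) : ℝ))
      ≤ (∏ l ∈ Finset.range i, ((k : ℝ) - ((l + 1 : ℕ) : ℝ))) * |F q i (i + 1)| := by
    rw [abs_F hq (by omega), abs_F hq (by omega), ← Finset.prod_mul_distrib,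
      ← Finset.prod_mul_distrib]
    apply Finset.prod_le_prod
    · intro l hl
      have hl' := Finset.mem_range.mp hl
      have a1 := (fac_pos (q := q) (s := l + 1) (k := k) hq (by omega) (by omega)).le
      have a2 : (0 : ℝ) ≤ ((i + 1 : ℕ) : ℝ) - ((l + 1 : ℕ) : ℝ) := by
        have : ((l + 1 : ℕ) : ℝ) ≤ ((i + 1 : ℕ) : ℝ) := by exact_mod_cast (by omega : l + 1 ≤ i + 1)
        linarith
      exact mul_nonneg a1 a2
    · intro l hl
      have hl' := Finset.mem_range.mp hl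
      exact fac_ratio (by omega) (by omega) hk
  have e1 : ∏ l ∈ Finset.range i, (((i + 1 : ℕ) : ℝ) - ((l + 1 : ℕ) : ℝ)) = (i.factorial : ℝ) := by
    rw [← Nat.descFactorial_self, Nat.descFactorial_eq_prod_range]
    push_cast
    apply Finset.prod_congr rfl
    intro l hl
    have hl' := Finset.mem_range.mp hl
    rw [Nat.cast_sub (by omega)]
    ring
  have e2 : (∏ l ∈ Finset.range i, ((k : ℝ) - ((l + 1 : ℕ) : ℝ)))
      = (i.factorial : ℝ) * ((k - 1).choose i : ℝ) := by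
    have := Nat.descFactorial_eq_factorial_mul_choose (k - 1) i
    rw [Nat.descFactorial_eq_prod_range] at this
    have h' : ((∏ l ∈ Finset.range i, (k - 1 - l) : ℕ) : ℝ)
        = (i.factorial : ℝ) * ((k - 1).choose i : ℝ) := by
      rw [this]; push_cast; ring
    rw [← h']
    push_cast
    apply Finset.prod_congr rfl
    intro l hl
    have hl' := Finset.mem_range.mp hl
    rw [Nat.cast_sub (by omega), Nat.cast_sub (by omega)]
    push_cast
    ring
  rw [e1, e2] at h1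
  have hpos : (0 : ℝ) < (i.factorial : ℝ) := by exact_mod_cast Nat.factorial_pos i
  have h2 : (i.factorial : ℝ) * |F q i k|
      ≤ (i.factorial : ℝ) * (((k - 1).choose i : ℝ) * |F q i (i + 1)|) := by
    calc (i.factorial : ℝ) * |F q i k| = |F q i k| * (i.factorial : ℝ) := by ring
      _ ≤ _ := h1
      _ = _ := by ring
  exact le_of_mul_le_mul_left h2 hpos

lemma choose_le (i k : ℕ) (hk : i + 1 ≤ k) : (k - 1).choose i ≤ k ^ (k - (i + 1)) := by
  have h1 : (k - 1).choose i = (k - 1).choose (k - (i + 1)) := by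
    rw [← Nat.choose_symm (by omega : i ≤ k - 1)]
    congr 1
    omega
  rw [h1]
  calc (k - 1).choose (k - (i + 1)) ≤ (k - 1) ^ (k - (i + 1)) := Nat.choose_le_pow _ _
    _ ≤ k ^ (k - (i + 1)) := Nat.pow_le_pow_left (by omega) _

/-- normalised tail factor -/
noncomputable def S (q h i k : ℕ) : ℝ :=
  (((i + 1 : ℕ) : ℝ) / k) ^ h * (|F q i k| / |F q i (i + 1)|)

lemma S_nonneg (q h i k : ℕ) : 0 ≤ S q h i k := by unfold S; positivity

lemma S_self {q h i : ℕ} (hq : 1 ≤ q) : S q h i (i + 1) = 1 := by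
  unfold S
  have h1 := abs_F_pos (q := q) (i := i) (k := i + 1) hq (by omega)
  have h2 : ((i + 1 : ℕ) : ℝ) ≠ 0 := by exact_mod_cast (by omega : i + 1 ≠ 0)
  rw [div_self h2, div_self h1.ne', one_pow, one_mul]

lemma S_le {q h i k N : ℕ} (hq : 1 ≤ q) (hi : i < N) (hk : i + 1 < k)
    (hh : 10 * (N : ℝ) * Real.log (2 * N) ≤ h) :
    S q h i k ≤ 1 / (4 * (N : ℝ) ^ 2 * (k : ℝ) ^ 2) := by
  have hN : (1 : ℝ) ≤ N := by exact_mod_cast (by omega : 1 ≤ N)
  have hN0 : (0 : ℝ) < N := by linarith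
  have hk0 : (0 : ℝ) < k := by exact_mod_cast (by omega : 0 < k)
  have hm0 : (0 : ℝ) < ((i + 1 : ℕ) : ℝ) := by exact_mod_cast (by omega : 0 < i + 1)
  have hmN : ((i + 1 : ℕ) : ℝ) ≤ N := by exact_mod_cast (by omega : i + 1 ≤ N)
  have hFm := abs_F_pos (q := q) (i := i) (k := i + 1) hq (by omega)
  have hlog : 0 ≤ Real.log (2 * N) := Real.log_nonneg (by linarith)
  set m : ℝ := ((i + 1 : ℕ) : ℝ) with hm
  rcases le_or_gt k (2 * (i + 1)) with hcase | hcase
  · -- case k ≤ 2m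
    obtain ⟨j, hj⟩ : ∃ j, k = (i + 1) + j := ⟨k - (i + 1), by omega⟩
    have hj1 : 1 ≤ j := by omega
    have hkm : (k : ℝ) = m + j := by rw [hj, hm]; push_cast; ring
    have hk2N : (k : ℝ) ≤ 2 * N := by
      have : (k : ℝ) ≤ ((2 * (i + 1) : ℕ) : ℝ) := by exact_mod_cast hcase
      have e : ((2 * (i + 1) : ℕ) : ℝ) = 2 * m := by rw [hm]; push_cast; ring
      linarith
    have hR : |F q i k| / |F q i (i + 1)| ≤ (k : ℝ) ^ j := by
      rw [div_le_iff₀ hFm]
      refine (abs_F_le_choose hq (by omega)).trans ?_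
      apply mul_le_mul_of_nonneg_right _ hFm.le
      have := choose_le i k (by omega)
      have e : k - (i + 1) = j := by omega
      rw [e] at this
      exact_mod_cast this
    have hexp : (m / k) ^ h ≤ Real.exp (-(5 * j * Real.log (2 * N))) := by
      have h1 : m / k ≤ Real.exp (-(j / k : ℝ)) := by
        have := Real.add_one_le_exp (-(j / k : ℝ))
        have e : m / k = -(j / k : ℝ) + 1 := by
          rw [hkm]
          have : m + j ≠ 0 := by
            rw [← hkm]; exact hk0.ne'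
          field_simp
          ring
        rw [e]; exact this
      calc (m / k) ^ h ≤ (Real.exp (-(j / k : ℝ))) ^ h := by
            apply pow_le_pow_left₀ (by positivity) h1
        _ = Real.exp (-(h * (j / k : ℝ))) := by
            rw [← Real.exp_nat_mul]; congr 1; ring
        _ ≤ Real.exp (-(5 * j * Real.log (2 * N))) := by
            apply Real.exp_le_exp.mpr
            have h2 : (j : ℝ) / (2 * N) ≤ j / k :=
              div_le_div_of_nonneg_left (by positivity) hk0 hk2N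
            have h3 : 10 * (N : ℝ) * Real.log (2 * N) * ((j : ℝ) / (2 * N)) ≤ h * (j / k : ℝ) := by
              apply mul_le_mul hh h2 (by positivity) (by positivity)
            have e : 10 * (N : ℝ) * Real.log (2 * N) * ((j : ℝ) / (2 * N))
                = 5 * j * Real.log (2 * N) := by
              field_simp
              ring
            rw [e] at h3
            linarith
    have hexp2 : Real.exp (-(5 * j * Real.log (2 * N))) = 1 / (2 * (N : ℝ)) ^ (5 * j) := by
      rw [Real.exp_neg, one_div]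
      congr 1
      have : (5 * (j : ℝ) * Real.log (2 * N)) = ((5 * j : ℕ) : ℝ) * Real.log (2 * N) := by
        push_cast; ring
      rw [this, Real.exp_nat_mul, Real.exp_log (by positivity)]
    rw [hexp2] at hexp
    have hprod : S q h i k ≤ 1 / (2 * (N : ℝ)) ^ (5 * j) * (k : ℝ) ^ j := by
      unfold S
      exact mul_le_mul hexp hR (by positivity) (by positivity)
    refine hprod.trans ?_
    rw [div_mul_eq_mul_div, one_mul, div_le_div_iff₀ (by positivity) (by positivity), one_mul]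
    have h2N : (1 : ℝ) ≤ 2 * N := by linarith
    calc (k : ℝ) ^ j * (4 * (N : ℝ) ^ 2 * (k : ℝ) ^ 2)
        ≤ (2 * (N : ℝ)) ^ j * ((2 * (N : ℝ)) ^ 2 * (2 * (N : ℝ)) ^ 2) := by
          have e : 4 * (N : ℝ) ^ 2 = (2 * (N : ℝ)) ^ 2 := by ring
          rw [e]
          gcongr
      _ = (2 * (N : ℝ)) ^ (j + 4) := by ring
      _ ≤ (2 * (N : ℝ)) ^ (5 * j) := pow_le_pow_right₀ h2N (by omega)
  · -- case k > 2m
    have hkm : 2 * m ≤ k := by
      have : ((2 * (i + 1) : ℕ) : ℝ) ≤ k := by exact_mod_cast hcase.le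
      have e : ((2 * (i + 1) : ℕ) : ℝ) = 2 * m := by rw [hm]; push_cast; ring
      linarith
    have hR : |F q i k| / |F q i (i + 1)| ≤ (N : ℝ) ^ N := by
      rw [div_le_iff₀ hFm]
      refine (abs_F_le_pow hq (by omega)).trans ?_
      apply mul_le_mul_of_nonneg_right _ hFm.le
      calc ((i + 1 : ℕ) : ℝ) ^ (i + 1) ≤ (N : ℝ) ^ (i + 1) := pow_le_pow_left₀ hm0.le hmN _
        _ ≤ (N : ℝ) ^ N := pow_le_pow_right₀ hN (by omega)
    have hlog2 : (0.6 : ℝ) < Real.log 2 := by
      have := Real.log_two_gt_d9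
      linarith
    have hlog2N : Real.log 2 ≤ Real.log (2 * N) := Real.log_le_log (by norm_num) (by linarith)
    have hh6 : (6 : ℝ) ≤ h := by
      have : 10 * (1 : ℝ) * 0.6 ≤ 10 * (N : ℝ) * Real.log (2 * N) := by
        have : (0.6 : ℝ) ≤ Real.log (2 * N) := by linarith
        gcongr
      linarith
    have hh6' : 6 ≤ h := by exact_mod_cast hh6
    have h2h : (2 * (N : ℝ)) ^ (6 * N) ≤ 2 ^ h := by
      have h1 : ((6 * N : ℕ) : ℝ) * Real.log (2 * N) ≤ h * Real.log 2 := by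
        calc ((6 * N : ℕ) : ℝ) * Real.log (2 * N)
            = (10 * (N : ℝ) * Real.log (2 * N)) * 0.6 := by push_cast; ring
          _ ≤ h * Real.log 2 := by
            apply mul_le_mul hh hlog2.le (by norm_num) (by positivity)
      have h2 := Real.exp_le_exp.mpr h1
      rwa [Real.exp_nat_mul, Real.exp_nat_mul, Real.exp_log (by positivity),
        Real.exp_log (by norm_num)] at h2
    have hmk : (m / k) ^ h ≤ (m / k) ^ 2 * (1 / 2) ^ (h - 2) := by
      have e : (m / k) ^ h = (m / k) ^ 2 * (m / k) ^ (h - 2) := by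
        rw [← pow_add]; congr 1; omega
      rw [e]
      apply mul_le_mul_of_nonneg_left _ (by positivity)
      apply pow_le_pow_left₀ (by positivity)
      rw [div_le_div_iff₀ hk0 (by norm_num)]
      linarith
    have hprod : S q h i k ≤ ((m / k) ^ 2 * (1 / 2) ^ (h - 2)) * (N : ℝ) ^ N := by
      unfold S
      exact mul_le_mul hmk hR (by positivity) (by positivity)
    refine hprod.trans ?_
    have e2 : ((1 : ℝ) / 2) ^ (h - 2) = 4 / 2 ^ h := by
      rw [one_div, inv_pow, eq_div_iff (by positivity), inv_mul_eq_iff_eq_mul₀ (by positivity)]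
      have : (2 : ℝ) ^ h = 2 ^ (h - 2) * 2 ^ 2 := by
        rw [← pow_add]; congr 1; omega
      rw [this]; ring
    rw [e2]
    have h16 : 16 * (N : ℝ) ^ 4 * (N : ℝ) ^ N ≤ 2 ^ h := by
      refine le_trans ?_ h2h
      have e3 : (2 * (N : ℝ)) ^ (6 * N) = (2 * (N : ℝ)) ^ N * (2 * (N : ℝ)) ^ (5 * N) := by
        rw [← pow_add]; congr 1; ring
      rw [e3]
      have hNN : 1 ≤ N := by omega
      calc 16 * (N : ℝ) ^ 4 * (N : ℝ) ^ N = (N : ℝ) ^ N * (2 * (N : ℝ)) ^ 4 := by ring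
        _ ≤ (2 * (N : ℝ)) ^ N * (2 * (N : ℝ)) ^ (5 * N) := by
          have h2N : (1 : ℝ) ≤ 2 * N := by linarith
          apply mul_le_mul
          · exact pow_le_pow_left₀ hN0.le (by linarith) _
          · exact pow_le_pow_right₀ h2N (by omega)
          · positivity
          · positivity
    have hpow : (0 : ℝ) < 2 ^ h := by positivity
    rw [div_pow, div_mul_div_comm, div_mul_eq_mul_div,
      div_le_div_iff₀ (by positivity) (by positivity), one_mul]
    calc m ^ 2 * 4 * (N : ℝ) ^ N * (4 * (N : ℝ) ^ 2 * (k : ℝ) ^ 2)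
        ≤ (N : ℝ) ^ 2 * 4 * (N : ℝ) ^ N * (4 * (N : ℝ) ^ 2 * (k : ℝ) ^ 2) := by gcongr
      _ = (k : ℝ) ^ 2 * (16 * (N : ℝ) ^ 4 * (N : ℝ) ^ N) := by ring
      _ ≤ (k : ℝ) ^ 2 * 2 ^ h := by gcongr

/-- the normalising factors -/
noncomputable def al (q h i : ℕ) : ℝ := F q i (i + 1) / ((i + 1 : ℕ) : ℝ) ^ (h + 1)

/-- the normalising factors -/
noncomputable def be (q h i : ℕ) : ℝ := F q i (i + 1) / ((i + 1 : ℕ) : ℝ) ^ h

lemma F_self_ne {q i : ℕ} (hq : 1 ≤ q) : F q i (i + 1) ≠ 0 :=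
  abs_pos.mp (abs_F_pos hq (by omega))

lemma al_ne {q h i : ℕ} (hq : 1 ≤ q) : al q h i ≠ 0 := by
  unfold al
  have h1 := F_self_ne (q := q) (i := i) hq
  positivity

lemma be_ne {q h i : ℕ} (hq : 1 ≤ q) : be q h i ≠ 0 := by
  unfold be
  have h1 := F_self_ne (q := q) (i := i) hq
  positivity

/-- normalised summand -/
noncomputable def term (c : ℕ → ℝ) (q h i j k : ℕ) : ℝ :=
  c k / (k : ℝ) ^ (2 * h + 1) * F q i k * F q j k / (al q h i * be q h j)

lemma term_self {c : ℕ → ℝ} {q h i : ℕ} (hq : 1 ≤ q) : term c q h i i (i + 1) = c (i + 1) := by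
  unfold term al be
  have h1 := F_self_ne (q := q) (i := i) hq
  have h2 : ((i + 1 : ℕ) : ℝ) ≠ 0 := by exact_mod_cast (by omega : i + 1 ≠ 0)
  rw [div_mul_div_comm]
  have e : ((i + 1 : ℕ) : ℝ) ^ (2 * h + 1) = ((i + 1 : ℕ) : ℝ) ^ (h + 1) * ((i + 1 : ℕ) : ℝ) ^ h := by
    rw [← pow_add]; congr 1; ring
  rw [e]
  field_simp

lemma abs_term {c : ℕ → ℝ} {q h i j k : ℕ} (hk : 1 ≤ k) :
    |term c q h i j k| = (|c k| * (((i + 1 : ℕ) : ℝ) / k)) * (S q h i k * S q h j k) := by
  have hk0 : (0 : ℝ) < k := by exact_mod_cast hk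
  have hi : (0 : ℝ) < ((i + 1 : ℕ) : ℝ) := by exact_mod_cast (by omega : 0 < i + 1)
  have hj : (0 : ℝ) < ((j + 1 : ℕ) : ℝ) := by exact_mod_cast (by omega : 0 < j + 1)
  unfold term al be S
  rw [abs_div, abs_mul, abs_mul, abs_mul, abs_div, abs_div, abs_div,
    abs_of_pos (by positivity : (0 : ℝ) < (k : ℝ) ^ (2 * h + 1)),
    abs_of_pos (by positivity : (0 : ℝ) < ((i + 1 : ℕ) : ℝ) ^ (h + 1)),
    abs_of_pos (by positivity : (0 : ℝ) < ((j + 1 : ℕ) : ℝ) ^ h)]
  have e : (k : ℝ) ^ (2 * h + 1) = k * ((k : ℝ) ^ h * (k : ℝ) ^ h) := by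
    rw [← pow_add, ← pow_succ']; congr 1; ring
  rw [e, div_pow, div_pow, pow_succ']
  simp only [div_eq_mul_inv, mul_inv, inv_inv]
  ring

/-- the pointwise bound for the normalised summands -/
lemma term_bound {c : ℕ → ℝ} (hc2 : ∀ k, |c k| ≤ k) {q h i j k N : ℕ} (hq : 1 ≤ q)
    (hi : i < N) (hj : j < N) (hh : 10 * (N : ℝ) * Real.log (2 * N) ≤ h) :
    |term c q h i j k - (if i = j ∧ k = i + 1 then c k else 0)|
      ≤ (1 / (4 * (N : ℝ))) * (1 / (k : ℝ) ^ 2) := by
  have hN : (1 : ℝ) ≤ N := by exact_mod_cast (by omega : 1 ≤ N)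
  have hN0 : (0 : ℝ) < N := by linarith
  have hc0 : c 0 = 0 := by
    have := hc2 0
    simpa using this
  rcases Nat.eq_zero_or_pos k with h0 | h0
  · subst h0
    have : term c q h i j 0 = 0 := by simp [term, hc0]
    rw [this]
    simp
  by_cases hki : k ≤ i
  · have : term c q h i j k = 0 := by simp [term, F_eq_zero (q := q) h0 hki]
    rw [this, if_neg (by omega)]
    simp only [sub_zero, abs_zero]
    positivity
  by_cases hkj : k ≤ j
  · have : term c q h i j k = 0 := by simp [term, F_eq_zero (q := q) h0 hkj]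
    rw [this, if_neg (by omega)]
    simp only [sub_zero, abs_zero]
    positivity
  by_cases hbig : i = j ∧ k = i + 1
  · obtain ⟨h1, h2⟩ := hbig
    subst h1; subst h2
    rw [if_pos ⟨rfl, rfl⟩, term_self hq, sub_self, abs_zero]
    positivity
  · rw [if_neg hbig, sub_zero, abs_term h0]
    have hk0 : (0 : ℝ) < k := by exact_mod_cast h0
    have hk1 : (1 : ℝ) ≤ k := by exact_mod_cast h0
    have hb : 1 / (4 * (N : ℝ) ^ 2 * (k : ℝ) ^ 2) ≤ 1 := by
      rw [div_le_one (by positivity)]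
      have a1 : (1 : ℝ) ≤ (N : ℝ) ^ 2 := one_le_pow₀ hN
      have a2 : (1 : ℝ) ≤ (k : ℝ) ^ 2 := one_le_pow₀ hk1
      nlinarith
    have hSS : S q h i k * S q h j k ≤ 1 / (4 * (N : ℝ) ^ 2 * (k : ℝ) ^ 2) := by
      have case1 : ∀ a, a < N → a + 1 ≤ k → S q h a k ≤ 1 := by
        intro a ha hak
        rcases Nat.eq_or_lt_of_le hak with h1 | h1
        · rw [← h1, S_self hq]
        · exact (S_le hq ha h1 hh).trans hb
      rcases Nat.lt_or_ge (i + 1) k with h1 | h1
      · calc S q h i k * S q h j k ≤ (1 / (4 * (N : ℝ) ^ 2 * (k : ℝ) ^ 2)) * 1 :=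
              mul_le_mul (S_le hq hi h1 hh) (case1 j hj (by omega)) (S_nonneg _ _ _ _)
                (by positivity)
          _ = _ := mul_one _
      · have h2 : j + 1 < k := by omega
        calc S q h i k * S q h j k ≤ 1 * (1 / (4 * (N : ℝ) ^ 2 * (k : ℝ) ^ 2)) :=
              mul_le_mul (case1 i hi (by omega)) (S_le hq hj h2 hh) (S_nonneg _ _ _ _)
                (by norm_num)
          _ = _ := one_mul _
    have hck : |c k| * (((i + 1 : ℕ) : ℝ) / k) ≤ N := by
      have hi' : ((i + 1 : ℕ) : ℝ) ≤ N := by exact_mod_cast (by omega : i + 1 ≤ N)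
      calc |c k| * (((i + 1 : ℕ) : ℝ) / k) ≤ k * (((i + 1 : ℕ) : ℝ) / k) :=
            mul_le_mul_of_nonneg_right (hc2 k) (by positivity)
        _ = ((i + 1 : ℕ) : ℝ) := by field_simp
        _ ≤ N := hi'
    calc (|c k| * (((i + 1 : ℕ) : ℝ) / k)) * (S q h i k * S q h j k)
        ≤ N * (1 / (4 * (N : ℝ) ^ 2 * (k : ℝ) ^ 2)) :=
          mul_le_mul hck hSS (mul_nonneg (S_nonneg _ _ _ _) (S_nonneg _ _ _ _)) hN0.le
      _ = (1 / (4 * (N : ℝ))) * (1 / (k : ℝ) ^ 2) := by
          field_simp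

/-- The core statement. -/
theorem core {c : ℕ → ℝ} (hc1 : ∀ k, 1 ≤ k → 1 ≤ |c k|) (hc2 : ∀ k, |c k| ≤ k)
    {q N h : ℕ} (hq : 1 ≤ q) (hN : 1 ≤ N) (hh : 10 * (N : ℝ) * Real.log (2 * N) ≤ h)
    {t : ℕ → ℝ} (ht : ∀ n, 3 ≤ n → HasSum (fun k : ℕ => c k / (k : ℝ) ^ n) (t n)) :
    (Matrix.of fun i j : Fin N => t (2 * h + 1 + q * (i + j))).det ≠ 0 ∧
    |(Matrix.of fun i j : Fin N => t (2 * h + 1 + q * (i + j))).det|
      ≤ (N.factorial : ℝ) * ((N : ℝ) + 1) ^ N / (N.factorial : ℝ) ^ (2 * h + 1) := by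
  have hNr : (1 : ℝ) ≤ N := by exact_mod_cast hN
  have hN0 : (0 : ℝ) < N := by linarith
  have hh1 : 1 ≤ h := by
    have h1 : (0.6 : ℝ) ≤ Real.log (2 * N) := by
      have h2 : (0.6 : ℝ) < Real.log 2 := by
        have := Real.log_two_gt_d9
        linarith
      have h3 : Real.log 2 ≤ Real.log (2 * N) := Real.log_le_log (by norm_num) (by linarith)
      linarith
    have h4 : 10 * (1 : ℝ) * 0.6 ≤ 10 * (N : ℝ) * Real.log (2 * N) := by gcongr
    have h5 : (1 : ℝ) ≤ h := by linarith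
    exact_mod_cast h5
  set H : Matrix (Fin N) (Fin N) ℝ := Matrix.of fun i j : Fin N => t (2 * h + 1 + q * (i + j))
    with hH
  let B : Matrix (Fin N) (Fin N) ℝ := Matrix.of fun i j : Fin N => (P q j).coeff i
  have hBdet : B.det = 1 :=
    Matrix.det_matrixOfPolynomials (fun i : Fin N => P q i) (fun i => P_natDegree q i)
      (fun i => P_monic q i)
  let G : Matrix (Fin N) (Fin N) ℝ := B.transpose * H * B
  have hGdet : G.det = H.det := by
    simp only [G, Matrix.det_mul, Matrix.det_transpose, hBdet, one_mul, mul_one]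
  -- the entries of G as series
  have hG : ∀ i j : Fin N, HasSum
      (fun k : ℕ => c k / (k : ℝ) ^ (2 * h + 1) * F q i k * F q j k) (G i j) := by
    intro i j
    have h1 : HasSum (fun k : ℕ => ∑ s : Fin N, (∑ r : Fin N, (P q i).coeff r *
        (c k / (k : ℝ) ^ (2 * h + 1 + q * (r + s)))) * (P q j).coeff s) (G i j) := by
      simp only [G, Matrix.mul_apply, Matrix.transpose_apply, B, Matrix.of_apply]
      apply hasSum_sum
      intro s _
      apply HasSum.mul_right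
      apply hasSum_sum
      intro r _
      apply HasSum.mul_left
      exact ht _ (by omega)
    convert h1 using 1
    funext k
    rw [← P_eval, ← P_eval,
      Polynomial.eval_eq_sum_range' (by rw [P_natDegree]; exact i.2 : (P q i).natDegree < N),
      Polynomial.eval_eq_sum_range' (by rw [P_natDegree]; exact j.2 : (P q j).natDegree < N),
      ← Fin.sum_univ_eq_sum_range (fun r => (P q i).coeff r * (1 / (k : ℝ) ^ q) ^ r),
      ← Fin.sum_univ_eq_sum_range (fun s => (P q j).coeff s * (1 / (k : ℝ) ^ q) ^ s),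
      Finset.mul_sum]
    apply Finset.sum_congr rfl
    intro s _
    rw [Finset.mul_sum, Finset.sum_mul, Finset.sum_mul]
    apply Finset.sum_congr rfl
    intro r _
    rw [pow_add, pow_mul, pow_add, one_div, inv_pow, inv_pow]
    simp only [div_eq_mul_inv, mul_inv]
    ring
  -- normalised matrix
  let E : Matrix (Fin N) (Fin N) ℝ :=
    Matrix.of fun i j : Fin N => G i j / (al q h i * be q h j)
  have hE : ∀ i j : Fin N, HasSum (fun k : ℕ => term c q h i j k) (E i j) := by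
    intro i j
    exact (hG i j).div_const _
  have hGE : G = Matrix.diagonal (fun i : Fin N => al q h i) * E
      * Matrix.diagonal (fun i : Fin N => be q h i) := by
    ext i j
    rw [Matrix.mul_diagonal, Matrix.diagonal_mul]
    simp only [E, Matrix.of_apply]
    have h1 := al_ne (q := q) (h := h) (i := i) hq
    have h2 := be_ne (q := q) (h := h) (i := j) hq
    field_simp
  -- entry bounds
  have hpi : Real.pi ^ 2 / 6 ≤ 5 / 3 := by
    have h1 := Real.pi_lt_d2
    have h2 := Real.pi_pos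
    nlinarith
  have hEb : ∀ i j : Fin N, |E i j - (if i = j then c (i + 1) else 0)| ≤ 5 / (12 * N) := by
    intro i j
    have h1 : HasSum (fun k : ℕ => (if (i : ℕ) = j ∧ k = i + 1 then c k else 0))
        (if i = j then c (i + 1) else 0) := by
      have h2 := hasSum_single (f := fun k : ℕ => (if (i : ℕ) = j ∧ k = i + 1 then c k else 0))
        ((i : ℕ) + 1) (by
          intro k hk
          rw [if_neg]
          rintro ⟨_, h3⟩
          exact hk h3)
      convert h2 using 1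
      by_cases h4 : i = j
      · simp [h4]
      · have h5 : ¬ ((i : ℕ) = j) := fun h6 => h4 (Fin.ext h6)
        simp [h4, h5]
    have h2 := (hE i j).sub h1
    have h3 : HasSum (fun k : ℕ => (1 / (4 * (N : ℝ))) * (1 / (k : ℝ) ^ 2))
        ((1 / (4 * (N : ℝ))) * (Real.pi ^ 2 / 6)) := hasSum_zeta_two.mul_left _
    have h4 := tsum_of_norm_bounded h3 (fun k => by
      rw [Real.norm_eq_abs]
      exact term_bound hc2 (k := k) hq i.2 j.2 hh)
    rw [h2.tsum_eq, Real.norm_eq_abs] at h4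
    refine h4.trans ?_
    calc (1 / (4 * (N : ℝ))) * (Real.pi ^ 2 / 6) ≤ (1 / (4 * (N : ℝ))) * (5 / 3) := by gcongr
      _ = 5 / (12 * N) := by field_simp; norm_num
  have hsmall : 5 / (12 * (N : ℝ)) ≤ 5 / 12 := by
    rw [div_le_div_iff₀ (by positivity) (by norm_num)]
    nlinarith
  have hEdet : E.det ≠ 0 := by
    apply det_ne_zero_of_sum_row_lt_diag
    intro i
    have hdiag : 7 / 12 ≤ ‖E i i‖ := by
      have h1 := hEb i i
      rw [if_pos rfl] at h1
      have h2 := hc1 ((i : ℕ) + 1) (by omega)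
      have h3 : |c (i + 1)| ≤ |E i i| + |E i i - c (i + 1)| := by
        have h5 := abs_sub_abs_le_abs_sub (c (i + 1)) (E i i)
        rw [abs_sub_comm (c (i + 1)) (E i i)] at h5
        linarith
      rw [Real.norm_eq_abs]
      linarith
    have hoff : ∑ j ∈ Finset.univ.erase i, ‖E i j‖ ≤ (N : ℝ) * (5 / (12 * N)) - 5 / (12 * N) := by
      calc ∑ j ∈ Finset.univ.erase i, ‖E i j‖
          ≤ ∑ j ∈ Finset.univ.erase i, (5 / (12 * (N : ℝ))) := by
            apply Finset.sum_le_sum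
            intro j hj
            have h1 := hEb i j
            have h2 : i ≠ j := fun h => (Finset.mem_erase.mp hj).1 h.symm
            rw [if_neg h2, sub_zero] at h1
            rw [Real.norm_eq_abs]
            exact h1
        _ = (N : ℝ) * (5 / (12 * N)) - 5 / (12 * N) := by
            rw [Finset.sum_const, Finset.card_erase_of_mem (Finset.mem_univ i),
              Finset.card_univ, Fintype.card_fin, nsmul_eq_mul, Nat.cast_sub hN]
            push_cast
            ring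
    have h12 : (N : ℝ) * (5 / (12 * N)) = 5 / 12 := by field_simp
    have hpos : 0 < 5 / (12 * (N : ℝ)) := by positivity
    rw [h12] at hoff
    linarith
  have hEle : |E.det| ≤ (N.factorial : ℝ) * ((N : ℝ) + 1) ^ N := by
    have h1 := Matrix.det_le (A := E) (abv := AbsoluteValue.abs) (x := (N : ℝ) + 1) (by
      intro i j
      have h2 := hEb i j
      change |E i j| ≤ (N : ℝ) + 1
      have h3 : |E i j| ≤ |E i j - (if i = j then c (i + 1) else 0)|
          + |(if i = j then c (i + 1) else 0)| := by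
        have := abs_add_le (E i j - (if i = j then c (i + 1) else 0))
          (if i = j then c (i + 1) else 0)
        simpa using this
      have h4 : |(if i = j then c (i + 1) else 0)| ≤ N := by
        split_ifs
        · refine (hc2 _).trans ?_
          exact_mod_cast i.2
        · simp
      linarith)
    rw [Fintype.card_fin, nsmul_eq_mul] at h1
    exact h1
  have hdetG : G.det = (∏ i : Fin N, al q h i) * E.det * ∏ i : Fin N, be q h i := by
    rw [hGE, Matrix.det_mul, Matrix.det_mul, Matrix.det_diagonal, Matrix.det_diagonal]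
  have halpos : (∏ i : Fin N, al q h i) ≠ 0 :=
    Finset.prod_ne_zero_iff.mpr (fun i _ => al_ne hq)
  have hbepos : (∏ i : Fin N, be q h i) ≠ 0 :=
    Finset.prod_ne_zero_iff.mpr (fun i _ => be_ne hq)
  have hfac : ∏ i : Fin N, (((i : ℕ) + 1 : ℕ) : ℝ) = (N.factorial : ℝ) := by
    rw [Fin.prod_univ_eq_prod_range (fun i : ℕ => ((i + 1 : ℕ) : ℝ)) N]
    rw [← Finset.prod_range_add_one_eq_factorial]
    push_cast
    rfl
  have hal : |∏ i : Fin N, al q h i| ≤ 1 / (N.factorial : ℝ) ^ (h + 1) := by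
    rw [Finset.abs_prod, ← hfac, ← Finset.prod_pow, one_div, ← Finset.prod_inv_distrib]
    apply Finset.prod_le_prod
    · intro i _; positivity
    · intro i _
      unfold al
      have h0 : (0 : ℝ) < (((i : ℕ) + 1 : ℕ) : ℝ) := by exact_mod_cast (by omega : 0 < (i : ℕ) + 1)
      rw [abs_div, abs_of_pos (by positivity : (0 : ℝ) < (((i : ℕ) + 1 : ℕ) : ℝ) ^ (h + 1)),
        ← one_div]
      exact div_le_div_of_nonneg_right (abs_F_le_one hq (by omega)) (by positivity)
  have hbe : |∏ i : Fin N, be q h i| ≤ 1 / (N.factorial : ℝ) ^ h := by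
    rw [Finset.abs_prod, ← hfac, ← Finset.prod_pow, one_div, ← Finset.prod_inv_distrib]
    apply Finset.prod_le_prod
    · intro i _; positivity
    · intro i _
      unfold be
      have h0 : (0 : ℝ) < (((i : ℕ) + 1 : ℕ) : ℝ) := by exact_mod_cast (by omega : 0 < (i : ℕ) + 1)
      rw [abs_div, abs_of_pos (by positivity : (0 : ℝ) < (((i : ℕ) + 1 : ℕ) : ℝ) ^ h),
        ← one_div]
      exact div_le_div_of_nonneg_right (abs_F_le_one hq (by omega)) (by positivity)
  rw [← hGdet, hdetG]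
  refine ⟨mul_ne_zero (mul_ne_zero halpos hEdet) hbepos, ?_⟩
  rw [abs_mul, abs_mul]
  have hfpos : (0 : ℝ) < N.factorial := by exact_mod_cast Nat.factorial_pos N
  calc |∏ i : Fin N, al q h i| * |E.det| * |∏ i : Fin N, be q h i|
      ≤ (1 / (N.factorial : ℝ) ^ (h + 1)) * ((N.factorial : ℝ) * ((N : ℝ) + 1) ^ N)
        * (1 / (N.factorial : ℝ) ^ h) := by
        gcongr
    _ = (N.factorial : ℝ) * ((N : ℝ) + 1) ^ N / (N.factorial : ℝ) ^ (2 * h + 1) := by
        have e : (N.factorial : ℝ) ^ (2 * h + 1)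
            = (N.factorial : ℝ) ^ (h + 1) * (N.factorial : ℝ) ^ h := by
          rw [← pow_add]; congr 1; ring
        rw [e]
        field_simp

end MPf1a024
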