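import Mathlib
import Pool.Agent.Work.MP_f1a024_nt.Series
import Pool.Agent.Work.MP_f1a024_nt.Hankel

/-!
Explicit and asymptotic lower bounds for common denominators.
-/

namespace MPf1a024

open Filter

/-- explicit inequality -/
theorem explicit {s : ℤ} (hs : s = 1 ∨ s = -1) {q N h : ℕ} (hq : 1 ≤ q) (hN : 1 ≤ N)
    (hh : 10 * (N : ℝ) * Real.log (2 * N) ≤ h) {D : ℕ} (hD : 0 < D)
    (hint : ∀ j : ℕ, j + 2 ≤ 2 * N → ∃ z : ℤ, (D : ℝ) * T s (2 * h + 1 + q * j) = z) :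
    ((N.factorial : ℝ)) ^ (2 * h) ≤ ((D : ℝ) * (N + 1)) ^ N := by
  obtain ⟨h1, h2⟩ := core (c := cf s) (fun k hk => one_le_abs_cf hs hk) (abs_cf_le hs) hq hN hh
    (t := T s) (fun n hn => hasSum_T hs hn)
  set H : Matrix (Fin N) (Fin N) ℝ := Matrix.of fun i j : Fin N => T s (2 * h + 1 + q * (i + j))
    with hH
  have hex : ∀ i j : Fin N, ∃ z : ℤ, (D : ℝ) * T s (2 * h + 1 + q * (i + j)) = z := by
    intro i j
    have hi := i.2
    have hj := j.2
    exact hint _ (by omega)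
  choose z hz using hex
  let Z : Matrix (Fin N) (Fin N) ℤ := Matrix.of fun i j => z i j
  have hZ : (D : ℝ) • H = Z.map (fun a : ℤ => (a : ℝ)) := by
    ext i j
    simp only [Matrix.smul_apply, Matrix.map_apply, smul_eq_mul, H, Z, Matrix.of_apply]
    exact hz i j
  have hdet : (D : ℝ) ^ N * H.det = ((Z.det : ℤ) : ℝ) := by
    have e1 : ((D : ℝ) • H).det = (D : ℝ) ^ N * H.det := by
      rw [Matrix.det_smul, Fintype.card_fin]
    rw [← e1, hZ]
    exact (Int.cast_det (R := ℝ) Z).symm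
  have hD' : (0 : ℝ) < D := by exact_mod_cast hD
  have hne : Z.det ≠ 0 := by
    intro h0
    rw [h0, Int.cast_zero] at hdet
    exact (mul_ne_zero (pow_ne_zero _ hD'.ne') h1) hdet
  have hge : (1 : ℝ) ≤ (D : ℝ) ^ N * |H.det| := by
    have : |(D : ℝ) ^ N * H.det| = (D : ℝ) ^ N * |H.det| := by
      rw [abs_mul, abs_of_pos (by positivity)]
    rw [← this, hdet]
    exact_mod_cast Int.one_le_abs hne
  have hfpos : (0 : ℝ) < N.factorial := by exact_mod_cast Nat.factorial_pos N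
  have h3 : (1 : ℝ) ≤ (D : ℝ) ^ N * ((N.factorial : ℝ) * ((N : ℝ) + 1) ^ N
      / (N.factorial : ℝ) ^ (2 * h + 1)) := by
    refine hge.trans ?_
    gcongr
  have h4 : (N.factorial : ℝ) ^ (2 * h + 1)
      ≤ (D : ℝ) ^ N * ((N.factorial : ℝ) * ((N : ℝ) + 1) ^ N) := by
    rw [mul_div_assoc', le_div_iff₀ (by positivity), one_mul] at h3
    exact h3
  have h5 : (N.factorial : ℝ) * (N.factorial : ℝ) ^ (2 * h)
      ≤ (N.factorial : ℝ) * ((D : ℝ) * (N + 1)) ^ N := by
    calc (N.factorial : ℝ) * (N.factorial : ℝ) ^ (2 * h) = (N.factorial : ℝ) ^ (2 * h + 1) := by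
          ring
      _ ≤ _ := h4
      _ = _ := by rw [mul_pow]; ring
  exact le_of_mul_le_mul_left h5 hfpos

lemma factorial_lower (N : ℕ) : ((N : ℝ) / Real.exp 1) ^ N ≤ N.factorial := by
  have h := Real.sum_le_exp_of_nonneg (x := (N : ℝ)) (by positivity) (N + 1)
  have h1 : (N : ℝ) ^ N / N.factorial ≤ Real.exp N := by
    refine le_trans ?_ h
    exact Finset.single_le_sum (f := fun i : ℕ => (N : ℝ) ^ i / (i.factorial : ℝ))
      (fun i _ => by positivity) (Finset.mem_range.mpr (by omega))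
  have hf : (0 : ℝ) < N.factorial := by exact_mod_cast Nat.factorial_pos N
  rw [div_le_iff₀ hf] at h1
  rw [div_pow, div_le_iff₀ (by positivity), ← Real.exp_nat_mul, mul_one]
  linarith

/-- logarithmic form of the explicit inequality -/
theorem explicit_log {s : ℤ} (hs : s = 1 ∨ s = -1) {q N h : ℕ} (hq : 1 ≤ q) (hN : 1 ≤ N)
    (hh : 10 * (N : ℝ) * Real.log (2 * N) ≤ h) {D : ℕ} (hD : 0 < D)
    (hint : ∀ j : ℕ, j + 2 ≤ 2 * N → ∃ z : ℤ, (D : ℝ) * T s (2 * h + 1 + q * j) = z) :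
    (2 * h : ℝ) * (Real.log N - 1) - Real.log (N + 1) ≤ Real.log D := by
  have h1 := explicit hs hq hN hh hD hint
  have hD' : (0 : ℝ) < D := by exact_mod_cast hD
  have hN' : (0 : ℝ) < N := by exact_mod_cast hN
  have h2 : (((N : ℝ) / Real.exp 1) ^ (2 * h)) ^ N ≤ ((D : ℝ) * (N + 1)) ^ N := by
    calc (((N : ℝ) / Real.exp 1) ^ (2 * h)) ^ N = (((N : ℝ) / Real.exp 1) ^ N) ^ (2 * h) := by
          rw [← pow_mul, ← pow_mul, mul_comm]
      _ ≤ (N.factorial : ℝ) ^ (2 * h) :=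
          pow_le_pow_left₀ (by positivity) (factorial_lower N) _
      _ ≤ _ := h1
  have h3 : ((N : ℝ) / Real.exp 1) ^ (2 * h) ≤ (D : ℝ) * (N + 1) :=
    le_of_pow_le_pow_left₀ (by omega) (by positivity) h2
  have h4 := Real.log_le_log (by positivity) h3
  rw [Real.log_pow, Real.log_div hN'.ne' (Real.exp_pos 1).ne', Real.log_exp,
    Real.log_mul hD'.ne' (by positivity)] at h4
  push_cast at h4
  linarith

/-- eventual inequalities -/
lemma eventual (q : ℕ) (hq : 1 ≤ q) {θ ε : ℝ} (hε : 0 < ε) (hεθ : ε < θ) (hθ : θ ≤ 1) :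
    ∀ᶠ x : ℝ in atTop, 2 ≤ x ∧ 4 * q * x ^ (θ - ε / 2) + 2 * q ≤ x ^ θ ∧
      4 * q * x ^ (θ - ε / 2) + 2 * q ≤ (ε / 4) * x ∧
      10 * x ^ (θ - ε / 2) * Real.log (2 * x) ≤ (3 / 8) * x ∧
      4 ≤ (ε / 4) * Real.log x := by
  have hq' : (1 : ℝ) ≤ q := by exact_mod_cast hq
  set r : ℝ := (1 - (θ - ε / 2)) / 2 with hr
  have hr0 : 0 < r := by rw [hr]; linarith
  have t1 := (tendsto_rpow_atTop (by linarith : 0 < ε / 2)).eventually_ge_atTop (8 * (q : ℝ))
  have t2 := (tendsto_rpow_atTop (by linarith : 0 < θ)).eventually_ge_atTop (4 * (q : ℝ))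
  have t3 := (tendsto_rpow_atTop (by linarith : 0 < 1 - (θ - ε / 2))).eventually_ge_atTop
    (32 * (q : ℝ) / ε)
  have t4 := eventually_ge_atTop (16 * (q : ℝ) / ε)
  have t5 := (tendsto_rpow_atTop hr0).eventually_ge_atTop (160 / (3 * r))
  have t6 := Real.tendsto_log_atTop.eventually_ge_atTop (16 / ε)
  filter_upwards [t1, t2, t3, t4, t5, t6, eventually_ge_atTop (2 : ℝ)] with x h1 h2 h3 h4 h5 h6 h7
  have hx : 0 < x := by linarith
  refine ⟨h7, ?_, ?_, ?_, ?_⟩
  · have e : x ^ θ = x ^ (θ - ε / 2) * x ^ (ε / 2) := by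
      rw [← Real.rpow_add hx]; congr 1; ring
    have hp : 0 < x ^ (θ - ε / 2) := Real.rpow_pos_of_pos hx _
    have h8 : x ^ (θ - ε / 2) * (8 * q) ≤ x ^ θ := by
      rw [e]; gcongr
    linarith
  · have e : x = x ^ (θ - ε / 2) * x ^ (1 - (θ - ε / 2)) := by
      rw [← Real.rpow_add hx, add_sub_cancel, Real.rpow_one]
    have hp : 0 < x ^ (θ - ε / 2) := Real.rpow_pos_of_pos hx _
    have h8 : x ^ (θ - ε / 2) * (32 * (q : ℝ) / ε) ≤ x := by
      calc x ^ (θ - ε / 2) * (32 * (q : ℝ) / ε) ≤ x ^ (θ - ε / 2) * x ^ (1 - (θ - ε / 2)) := by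
            gcongr
        _ = x := e.symm
    have h9 : 4 * q * x ^ (θ - ε / 2) ≤ (ε / 8) * x := by
      calc 4 * q * x ^ (θ - ε / 2) = (ε / 8) * (x ^ (θ - ε / 2) * (32 * (q : ℝ) / ε)) := by
            field_simp
            ring
        _ ≤ _ := by gcongr
    have h10 : 2 * (q : ℝ) ≤ (ε / 8) * x := by
      calc 2 * (q : ℝ) = (ε / 8) * (16 * (q : ℝ) / ε) := by
            field_simp
            ring
        _ ≤ _ := by gcongr
    linarith
  · have hlog : Real.log (2 * x) ≤ 2 * (x ^ r / r) := by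
      have a1 : Real.log (2 * x) ≤ Real.log (x * x) := by
        apply Real.log_le_log (by positivity)
        gcongr
      have a2 : Real.log (x * x) = 2 * Real.log x := by
        rw [Real.log_mul hx.ne' hx.ne']; ring
      have a3 : Real.log x ≤ x ^ r / r := Real.log_le_rpow_div hx.le hr0
      linarith
    have hp : 0 < x ^ (θ - ε / 2) := Real.rpow_pos_of_pos hx _
    have hpr : 0 < x ^ r := Real.rpow_pos_of_pos hx _
    have e : x = x ^ (θ - ε / 2) * x ^ r * x ^ r := by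
      rw [← Real.rpow_add hx, ← Real.rpow_add hx]
      have : θ - ε / 2 + r + r = 1 := by rw [hr]; ring
      rw [this, Real.rpow_one]
    calc 10 * x ^ (θ - ε / 2) * Real.log (2 * x)
        ≤ 10 * x ^ (θ - ε / 2) * (2 * (x ^ r / r)) := by gcongr
      _ = (3 / 8) * (x ^ (θ - ε / 2) * x ^ r * (160 / (3 * r))) := by
          field_simp
          ring
      _ ≤ (3 / 8) * (x ^ (θ - ε / 2) * x ^ r * x ^ r) := by gcongr
      _ = (3 / 8) * x := by rw [← e]
  · calc (4 : ℝ) = (ε / 4) * (16 / ε) := by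
          field_simp
          ring
      _ ≤ _ := by gcongr

lemma exists_residue (q a M' : ℕ) (hq : 1 ≤ q) (hM : 2 * q ≤ M') :
    ∃ n0, n0 ≡ a [MOD 2 * q] ∧ n0 ≤ M' ∧ M' < n0 + 2 * q := by
  set r := (M' + (2 * q - 1) * a) % (2 * q) with hr
  have hlt : r < 2 * q := Nat.mod_lt _ (by omega)
  refine ⟨M' - r, ?_, by omega, by omega⟩
  have h1 : r ≡ M' + (2 * q - 1) * a [MOD 2 * q] := Nat.mod_modEq _ _
  have h2 : (M' - r) + r ≡ (M' - r) + (M' + (2 * q - 1) * a) [MOD 2 * q] :=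
    Nat.ModEq.add_left _ h1
  have h3 : (M' - r) + r = M' := by omega
  rw [h3] at h2
  -- M' ≡ (M' - r) + M' + (2q-1) a
  have h4 : M' + 0 ≡ M' + ((M' - r) + (2 * q - 1) * a) [MOD 2 * q] := by
    have e : (M' - r) + (M' + (2 * q - 1) * a) = M' + ((M' - r) + (2 * q - 1) * a) := by ring
    rw [e] at h2
    simpa using h2
  have h5 : 0 ≡ (M' - r) + (2 * q - 1) * a [MOD 2 * q] := Nat.ModEq.add_left_cancel' _ h4
  have h6 : 0 + a ≡ (M' - r) + (2 * q - 1) * a + a [MOD 2 * q] := Nat.ModEq.add_right _ h5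
  have e : (M' - r) + (2 * q - 1) * a + a = (M' - r) + 2 * q * a := by
    obtain ⟨u, hu⟩ : ∃ u, 2 * q = u + 1 := ⟨2 * q - 1, by omega⟩
    rw [hu]
    simp only [Nat.add_sub_cancel]
    ring
  rw [e, zero_add] at h6
  have h7 : (M' - r) + 2 * q * a ≡ (M' - r) + 0 [MOD 2 * q] :=
    Nat.ModEq.add_left _ ((Nat.modEq_zero_iff_dvd).mpr (Dvd.intro _ rfl))
  exact (h6.trans h7).symm

/-- asymptotic form for the real series -/
theorem growth (q a : ℕ) (hq : 1 ≤ q) (ha : Odd a) {θ ε : ℝ} (hε : 0 < ε) (hεθ : ε < θ)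
    (hθ : θ ≤ 1) :
    ∃ M₀ : ℕ, 2 ≤ M₀ ∧ ∀ M : ℕ, M₀ ≤ M →
      ∀ s : ℤ, (s = 1 ∨ s = -1) → ∀ D : ℕ, 0 < D →
      (∀ n : ℕ, 3 ≤ n → n ≡ a [MOD 2 * q] → (M : ℝ) - (M : ℝ) ^ θ ≤ n → n ≤ M →
        ∃ z : ℤ, (D : ℝ) * T s n = z) →
      (M : ℝ) ^ ((θ - ε) * M) ≤ D := by
  obtain ⟨M₁, hM₁⟩ := eventually_atTop.mp
    (tendsto_natCast_atTop_atTop.eventually (eventual q hq hε hεθ hθ))
  refine ⟨max M₁ 2, le_max_right _ _, ?_⟩
  intro M hM s hs D hD hint
  obtain ⟨h2, hC1, hC2, hC3, hC4⟩ := hM₁ M (le_trans (le_max_left _ _) hM)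
  set x : ℝ := (M : ℝ) with hx
  have hx0 : 0 < x := by linarith
  have hq' : (1 : ℝ) ≤ q := by exact_mod_cast hq
  set N : ℕ := ⌊x ^ (θ - ε / 2)⌋₊ with hN
  have hpos : 0 < θ - ε / 2 := by linarith
  have hpow1 : 1 ≤ x ^ (θ - ε / 2) := Real.one_le_rpow (by linarith) hpos.le
  have hN1 : 1 ≤ N := by
    rw [hN]
    exact Nat.floor_pos.mpr hpow1
  have hNle : (N : ℝ) ≤ x ^ (θ - ε / 2) := Nat.floor_le (by positivity)
  have hN1' : (1 : ℝ) ≤ N := by exact_mod_cast hN1
  have hNge : x ^ (θ - ε / 2) / 2 ≤ N := by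
    have := Nat.lt_floor_add_one (x ^ (θ - ε / 2))
    rw [← hN] at this
    linarith
  have hsmall : 4 * (q : ℝ) * N + 2 * q ≤ (ε / 4) * x := by
    refine le_trans ?_ hC2
    gcongr
  have hsmall' : 4 * (q : ℝ) * N + 2 * q ≤ x ^ θ := by
    refine le_trans ?_ hC1
    gcongr
  have hleM : 4 * q * N + 2 * q ≤ M := by
    have : 4 * (q : ℝ) * N + 2 * q ≤ M := by
      refine hsmall.trans ?_
      rw [← hx]
      have : ε / 4 ≤ 1 := by linarith
      nlinarith
    exact_mod_cast this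
  obtain ⟨n0, hn0a, hn0le, hn0lt⟩ := exists_residue q a (M - 4 * q * N) hq (by omega)
  have hodd : Odd n0 := by
    have h1 : n0 ≡ a [MOD 2] := hn0a.of_mul_right q
    rw [Nat.odd_iff] at ha ⊢
    rw [← ha]
    exact h1
  obtain ⟨h, hh⟩ := hodd
  -- lower bound for h
  have h2h : M - 4 * q * N - 2 * q ≤ 2 * h := by omega
  have h2h' : x - 4 * q * N - 2 * q ≤ 2 * (h : ℝ) := by
    have : (M : ℝ) ≤ ((2 * h + 4 * q * N + 2 * q : ℕ) : ℝ) := by
      exact_mod_cast (by omega : M ≤ 2 * h + 4 * q * N + 2 * q)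
    push_cast at this
    linarith
  have h2hx : (1 - ε / 4) * x ≤ 2 * (h : ℝ) := by linarith
  have hNx : (N : ℝ) ≤ x := by
    refine hNle.trans ?_
    calc x ^ (θ - ε / 2) ≤ x ^ (1 : ℝ) :=
          Real.rpow_le_rpow_of_exponent_le (by linarith) (by linarith)
      _ = x := Real.rpow_one x
  have hlogx : 0 < Real.log x := Real.log_pos (by linarith)
  have hcond : 10 * (N : ℝ) * Real.log (2 * N) ≤ h := by
    have hl0 : 0 ≤ Real.log (2 * N) := Real.log_nonneg (by linarith)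
    calc 10 * (N : ℝ) * Real.log (2 * N) ≤ 10 * x ^ (θ - ε / 2) * Real.log (2 * x) := by
          have : Real.log (2 * N) ≤ Real.log (2 * x) :=
            Real.log_le_log (by positivity) (by linarith)
          gcongr
      _ ≤ (3 / 8) * x := hC3
      _ ≤ h := by
          have : (3 / 4) * x ≤ (1 - ε / 4) * x := by
            have : (3 / 4 : ℝ) ≤ 1 - ε / 4 := by linarith
            gcongr
          linarith
  have hh1 : 1 ≤ h := by
    have : (3 / 4) * x ≤ (1 - ε / 4) * x := by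
      have : (3 / 4 : ℝ) ≤ 1 - ε / 4 := by linarith
      gcongr
    have h3 : (0 : ℝ) < h := by nlinarith
    have h4 : 0 < h := by exact_mod_cast h3
    omega
  have hkey := explicit_log hs (q := 2 * q) (N := N) (h := h) (by omega) hN1 hcond hD (by
    intro j hj
    apply hint
    · omega
    · rw [← hh]
      have : n0 + 2 * q * j ≡ n0 + 0 [MOD 2 * q] :=
        Nat.ModEq.add_left _ ((Nat.modEq_zero_iff_dvd).mpr (Dvd.intro _ rfl))
      exact this.trans hn0a
    · rw [← hh]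
      have h5 : (M : ℝ) ≤ ((n0 + 4 * q * N + 2 * q : ℕ) : ℝ) := by
        exact_mod_cast (by omega : M ≤ n0 + 4 * q * N + 2 * q)
      push_cast at h5 ⊢
      have h6 : (0 : ℝ) ≤ 2 * (q : ℝ) * j := by positivity
      linarith
    · rw [← hh]
      have h7 : 2 * q * j ≤ 2 * q * (2 * N) := Nat.mul_le_mul_left _ (by omega)
      have h8 : 2 * q * (2 * N) = 4 * q * N := by ring
      omega)
  have hD' : (0 : ℝ) < D := by exact_mod_cast hD
  have hlogN : (θ - ε / 2) * Real.log x - 1 ≤ Real.log N := by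
    have h1 : Real.log (x ^ (θ - ε / 2) / 2) ≤ Real.log N := Real.log_le_log (by positivity) hNge
    rw [Real.log_div (by positivity) (by norm_num), Real.log_rpow hx0] at h1
    have h3 : Real.log 2 ≤ 1 := by
      have := Real.log_two_lt_d9
      linarith
    linarith
  have hlogN1 : Real.log (N + 1) ≤ x := by
    have h1 := Real.log_le_sub_one_of_pos (by positivity : (0 : ℝ) < (N : ℝ) + 1)
    linarith
  have hfac1 : 0 ≤ (θ - ε / 2) * Real.log x - 2 := by
    have h1 : (ε / 4) * Real.log x ≤ (θ - ε / 2) * Real.log x := by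
      apply mul_le_mul_of_nonneg_right _ hlogx.le
      linarith
    linarith
  have hmain : (1 - ε / 4) * x * ((θ - ε / 2) * Real.log x - 2) - x ≤ Real.log D := by
    calc (1 - ε / 4) * x * ((θ - ε / 2) * Real.log x - 2) - x
        ≤ (2 * h : ℝ) * (Real.log N - 1) - Real.log (N + 1) := by
          have h3 : (1 - ε / 4) * x * ((θ - ε / 2) * Real.log x - 2)
              ≤ (2 * h : ℝ) * (Real.log N - 1) := by
            apply mul_le_mul h2hx (by linarith) hfac1 (by positivity)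
          linarith
      _ ≤ Real.log D := hkey
  have hfinal : (θ - ε) * x * Real.log x ≤ Real.log D := by
    refine le_trans ?_ hmain
    have e : (1 - ε / 4) * x * ((θ - ε / 2) * Real.log x - 2) - x - (θ - ε) * x * Real.log x
        = x * ((ε / 2 - (ε / 4) * (θ - ε / 2)) * Real.log x - 3 + ε / 2) := by ring
    have h3 : (ε / 4) ≤ (ε / 2 - (ε / 4) * (θ - ε / 2)) := by
      have : (ε / 4) * (θ - ε / 2) ≤ (ε / 4) * 1 := by
        apply mul_le_mul_of_nonneg_left _ (by linarith)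
        linarith
      linarith
    have h4 : (ε / 4) * Real.log x ≤ (ε / 2 - (ε / 4) * (θ - ε / 2)) * Real.log x := by
      gcongr
    have h5 : 0 ≤ x * ((ε / 2 - (ε / 4) * (θ - ε / 2)) * Real.log x - 3 + ε / 2) := by
      apply mul_nonneg hx0.le
      linarith
    linarith
  calc x ^ ((θ - ε) * x) = Real.exp ((θ - ε) * x * Real.log x) := by
        rw [Real.rpow_def_of_pos hx0]
        congr 1
        ring
    _ ≤ Real.exp (Real.log D) := Real.exp_le_exp.mpr hfinal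
    _ = D := Real.exp_log hD'

end MPf1a024
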