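import Mathlib
import Pool.Agent.Work.MP_f1a024_nt.H84Ser

/-!
The change of columns: for `k ∣ R' = P^(l-1)` the column `a / k^m` is replaced by
`k^(-m) (a D(m) - b N(m))`.
-/

namespace MPf1a024.H84

open Finset ArithmeticFunction Matrix
open scoped ArithmeticFunction.Moebius

/-- product of the primes below `q` -/
def PP (q : ℕ) : ℕ := ∏ p ∈ Finset.range q with p.Prime, p

/-- column indices -/
abbrev Ix (R : ℕ) : Type := Bool × {k // k ∈ R.divisors}

/-- the change of columns -/
def TT (P R R' : ℕ) : Matrix (Ix R) (Ix R) ℤ := Matrix.of fun x y =>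
  if y.1 = true then
    (if (y.2 : ℕ) ∣ R' then
      (if (y.2 : ℕ) ∣ (x.2 : ℕ) ∧ (x.2 : ℕ) / (y.2 : ℕ) ∣ P then
        (if x.1 = true then 1 else -μ ((x.2 : ℕ) / (y.2 : ℕ))) else 0)
    else (if x = y then 1 else 0))
  else (if x = y then 1 else 0)

/-- the row attached to `m`, `a`, `b` -/
noncomputable def row (R : ℕ) (m : ℕ) (a b : ℤ) (x : Ix R) : ℝ :=
  (if x.1 = true then (a : ℝ) else (b : ℝ)) / ((x.2 : ℕ) : ℝ) ^ m

lemma pos_of_mem {R : ℕ} (k : {k // k ∈ R.divisors}) : 0 < (k : ℕ) :=
  Nat.pos_of_mem_divisors k.2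

theorem TT_det_ne (P R R' : ℕ) : (TT P R R').det ≠ 0 := by
  intro h0
  obtain ⟨v, hv, hTv⟩ := Matrix.exists_mulVec_eq_zero_iff.mpr h0
  apply hv
  -- the `true` part
  have htrue : ∀ n : ℕ, ∀ k : {k // k ∈ R.divisors}, (k : ℕ) = n → v (true, k) = 0 := by
    intro n
    induction n using Nat.strong_induction_on with
    | _ n ih =>
      intro k hk
      have h1 := congrFun hTv (true, k)
      simp only [Matrix.mulVec, dotProduct, Pi.zero_apply] at h1
      rw [Finset.sum_eq_single (true, k)] at h1
      · have hd : TT P R R' (true, k) (true, k) = 1 := by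
          simp only [TT, Matrix.of_apply, if_true, dvd_refl, true_and]
          rw [Nat.div_self (pos_of_mem k)]
          simp
        rwa [hd, one_mul] at h1
      · rintro ⟨s, j⟩ - hne
        cases s with
        | false =>
          have : TT P R R' (true, k) (false, j) = 0 := by
            simp [TT]
          rw [this, zero_mul]
        | true =>
          by_cases hdvd : (j : ℕ) ∣ (k : ℕ)
          · have hjk : (j : ℕ) ≠ (k : ℕ) := by
              intro h
              apply hne
              rw [Subtype.ext h]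
            have hlt : (j : ℕ) < n := by
              rw [← hk]
              exact lt_of_le_of_ne (Nat.le_of_dvd (pos_of_mem k) hdvd) hjk
            rw [ih _ hlt j rfl, mul_zero]
          · have hkj : (k : ℕ) ≠ (j : ℕ) := fun h => hdvd (h ▸ dvd_rfl)
            have : TT P R R' (true, k) (true, j) = 0 := by
              simp only [TT, Matrix.of_apply, if_true, hdvd, false_and, if_false]
              have : ¬ ((true, k) : Ix R) = (true, j) := by
                intro h
                exact hkj (congrArg (fun x : Ix R => (x.2 : ℕ)) h)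
              rw [if_neg this]
              simp
            rw [this, zero_mul]
      · intro h; exact absurd (Finset.mem_univ _) h
  funext x
  obtain ⟨s, k⟩ := x
  cases s with
  | true => exact htrue _ k rfl
  | false =>
    have h1 := congrFun hTv (false, k)
    simp only [Matrix.mulVec, dotProduct, Pi.zero_apply] at h1
    rw [Finset.sum_eq_single (false, k)] at h1
    · have hd : TT P R R' (false, k) (false, k) = 1 := by
        simp [TT]
      rwa [hd, one_mul] at h1
    · rintro ⟨s, j⟩ - hne
      cases s with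
      | true => rw [htrue _ j rfl, mul_zero]
      | false =>
        have : TT P R R' (false, k) (false, j) = 0 := by
          have : ¬ ((false, k) : Ix R) = (false, j) := fun h => hne h.symm
          simp only [TT, Matrix.of_apply]
          rw [if_neg this]
          simp
        rw [this, zero_mul]
    · intro h; exact absurd (Finset.mem_univ _) h

/-- a `true` column that is changed -/
theorem row_TT_true {P R R' : ℕ} (hR : R = P * R') (hR0 : R ≠ 0) (m : ℕ) (a b : ℤ)
    (k : {k // k ∈ R.divisors}) (hk : (k : ℕ) ∣ R') :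
    ∑ x, row R m a b x * ((TT P R R' x (true, k) : ℤ) : ℝ) =
      (a * DP P.divisors (fun _ => 1) m + b * DP P.divisors (fun d => -(μ d : ℝ)) m) /
        ((k : ℕ) : ℝ) ^ m := by
  have hk0 : 0 < (k : ℕ) := pos_of_mem k
  have hkR : (((k : ℕ) : ℝ)) ≠ 0 := by exact_mod_cast hk0.ne'
  have hP0 : P ≠ 0 := by rintro rfl; simp at hR; exact hR0 hR
  rw [Fintype.sum_prod_type, Fintype.sum_bool]
  have e1 : ∑ y : {k // k ∈ R.divisors},
      row R m a b (true, y) * ((TT P R R' (true, y) (true, k) : ℤ) : ℝ) =
      a * DP P.divisors (fun _ => 1) m / ((k : ℕ) : ℝ) ^ m := by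
    have e2 : ∀ y : {k // k ∈ R.divisors},
        row R m a b (true, y) * ((TT P R R' (true, y) (true, k) : ℤ) : ℝ) =
        (if (k : ℕ) ∣ (y : ℕ) ∧ (y : ℕ) / (k : ℕ) ∣ P then (a : ℝ) / ((y : ℕ) : ℝ) ^ m else 0) := by
      intro y
      simp only [TT, row, Matrix.of_apply, if_true, hk]
      split_ifs <;> simp
    rw [Finset.sum_congr rfl fun y _ => e2 y,
      Finset.sum_coe_sort R.divisors (fun y => if (k : ℕ) ∣ y ∧ y / (k : ℕ) ∣ P then
        (a : ℝ) / (y : ℝ) ^ m else 0), ← Finset.sum_filter, DP, Finset.mul_sum, Finset.sum_div]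
    symm
    refine Finset.sum_nbij' (fun d => (k : ℕ) * d) (fun y => y / (k : ℕ)) ?_ ?_ ?_ ?_ ?_
    · intro d hd
      have hd' := Nat.dvd_of_mem_divisors hd
      simp only [Finset.mem_filter, Nat.mem_divisors]
      refine ⟨⟨?_, hR0⟩, dvd_mul_right _ _, ?_⟩
      · have h5 : (k : ℕ) * d ∣ R' * P := mul_dvd_mul hk hd'
        rw [mul_comm R' P] at h5
        exact h5.trans (dvd_of_eq hR.symm)
      · rwa [Nat.mul_div_cancel_left _ hk0]
    · intro y hy
      simp only [Finset.mem_filter] at hy
      exact Nat.mem_divisors.mpr ⟨hy.2.2, hP0⟩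
    · intro d _
      exact Nat.mul_div_cancel_left _ hk0
    · intro y hy
      simp only [Finset.mem_filter] at hy
      exact Nat.mul_div_cancel' hy.2.1
    · intro d hd
      push_cast
      rw [mul_pow, mul_one_div, div_div, mul_comm ((d : ℝ) ^ m)]
  have e3 : ∑ y : {k // k ∈ R.divisors},
      row R m a b (false, y) * ((TT P R R' (false, y) (true, k) : ℤ) : ℝ) =
      b * DP P.divisors (fun d => -(μ d : ℝ)) m / ((k : ℕ) : ℝ) ^ m := by
    have e2 : ∀ y : {k // k ∈ R.divisors},
        row R m a b (false, y) * ((TT P R R' (false, y) (true, k) : ℤ) : ℝ) =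
        (if (k : ℕ) ∣ (y : ℕ) ∧ (y : ℕ) / (k : ℕ) ∣ P then
          (b : ℝ) * -(μ ((y : ℕ) / (k : ℕ)) : ℝ) / ((y : ℕ) : ℝ) ^ m else 0) := by
      intro y
      simp only [TT, row, Matrix.of_apply, if_true, hk, Bool.false_eq_true, if_false]
      split_ifs
      · push_cast; ring
      · simp
    rw [Finset.sum_congr rfl fun y _ => e2 y,
      Finset.sum_coe_sort R.divisors (fun y => if (k : ℕ) ∣ y ∧ y / (k : ℕ) ∣ P then
        (b : ℝ) * -(μ (y / (k : ℕ)) : ℝ) / (y : ℝ) ^ m else 0), ← Finset.sum_filter, DP,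
      Finset.mul_sum, Finset.sum_div]
    symm
    refine Finset.sum_nbij' (fun d => (k : ℕ) * d) (fun y => y / (k : ℕ)) ?_ ?_ ?_ ?_ ?_
    · intro d hd
      have hd' := Nat.dvd_of_mem_divisors hd
      simp only [Finset.mem_filter, Nat.mem_divisors]
      refine ⟨⟨?_, hR0⟩, dvd_mul_right _ _, ?_⟩
      · have h5 : (k : ℕ) * d ∣ R' * P := mul_dvd_mul hk hd'
        rw [mul_comm R' P] at h5
        exact h5.trans (dvd_of_eq hR.symm)
      · rwa [Nat.mul_div_cancel_left _ hk0]
    · intro y hy
      simp only [Finset.mem_filter] at hy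
      exact Nat.mem_divisors.mpr ⟨hy.2.2, hP0⟩
    · intro d _
      exact Nat.mul_div_cancel_left _ hk0
    · intro y hy
      simp only [Finset.mem_filter] at hy
      exact Nat.mul_div_cancel' hy.2.1
    · intro d hd
      rw [Nat.mul_div_cancel_left _ hk0]
      push_cast
      rw [mul_pow, mul_div_assoc', div_div, mul_comm ((d : ℝ) ^ m)]
  rw [e1, e3]
  ring

/-- the other columns are not changed -/
theorem row_TT_other {P R R' : ℕ} (m : ℕ) (a b : ℤ) (y : Ix R)
    (hy : y.1 = false ∨ ¬ (y.2 : ℕ) ∣ R') :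
    ∑ x, row R m a b x * ((TT P R R' x y : ℤ) : ℝ) = row R m a b y := by
  have hT : ∀ x, TT P R R' x y = if x = y then 1 else 0 := by
    intro x
    simp only [TT, Matrix.of_apply]
    rcases hy with h | h
    · simp [h]
    · split_ifs <;> rfl
  rw [Finset.sum_eq_single y]
  · rw [hT y]; simp
  · intro x _ hx
    rw [hT x, if_neg hx]; simp
  · intro h; exact absurd (Finset.mem_univ _) h

end MPf1a024.H84
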