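import Mathlib
import Pool.Agent.Work.MP_f1a024_nt.H84Col
import Pool.Agent.Work.MP_f1a024_nt.Bd.B01

/-!
Choice of the parameters and the size of the changed columns.
-/

namespace MPf1a024.H84

open Finset ArithmeticFunction
open scoped ArithmeticFunction.Moebius

lemma PP_ne (q : ℕ) : PP q ≠ 0 :=
  Finset.prod_ne_zero_iff.mpr fun _ hp => (Finset.mem_filter.mp hp).2.ne_zero

lemma PP_squarefree (q : ℕ) : Squarefree (PP q) := by
  unfold PP
  apply Finset.squarefree_prod_of_pairwise_isCoprime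
  · intro a ha b hb hab
    simp only [Finset.coe_filter, Finset.mem_range, Set.mem_ofPred_eq] at ha hb
    change IsRelPrime a b
    rw [← Nat.coprime_iff_isRelPrime]
    exact (Nat.coprime_primes ha.2 hb.2).mpr hab
  · intro a ha
    exact (Finset.mem_filter.mp ha).2.squarefree

lemma not_dvd_PP_pow {q : ℕ} (hq : q.Prime) (l : ℕ) : ¬ q ∣ PP q ^ l := by
  intro h
  have h1 := hq.dvd_of_dvd_pow h
  unfold PP at h1
  rw [hq.prime.dvd_finsetProd_iff] at h1
  obtain ⟨p, hp, hqp⟩ := h1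
  simp only [Finset.mem_filter, Finset.mem_range] at hp
  have := (Nat.prime_dvd_prime_iff_eq hq hp.2).mp hqp
  omega

lemma card_divisors_PP (q l : ℕ) :
    (PP q ^ l).divisors.card = (l + 1) ^ (PP q).primeFactors.card := by
  rcases Nat.eq_zero_or_pos l with h | h
  · subst h; simp
  rw [Nat.card_divisors (pow_ne_zero _ (PP_ne q)), Nat.primeFactors_pow _ h.ne']
  rw [Finset.prod_congr rfl (g := fun _ => l + 1), Finset.prod_const]
  intro p hp
  rw [Nat.factorization_pow, Finsupp.smul_apply, smul_eq_mul]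
  have h1 : (PP q).factorization p = 1 := by
    exact Nat.factorization_eq_one_of_squarefree (PP_squarefree q)
      (Nat.prime_of_mem_primeFactors hp) (Nat.dvd_of_mem_primeFactors hp)
  rw [h1, mul_one]

/-- the parameters -/
theorem exists_params (B : ℝ) (hB : 1 ≤ B) : ∃ q L : ℕ, q.Prime ∧
    B ^ (2 * (PP q ^ (L + 1)).divisors.card) < (q : ℝ) ^ (PP q ^ L).divisors.card := by
  obtain ⟨M, hM⟩ := exists_nat_gt (B ^ 4)
  obtain ⟨q, hqM, hq⟩ := Nat.exists_infinite_primes M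
  set s := (PP q).primeFactors.card with hs
  refine ⟨q, 2 * s, hq, ?_⟩
  rw [card_divisors_PP, card_divisors_PP, ← hs]
  have hBq : B ^ 4 < q := hM.trans_le (by exact_mod_cast hqM)
  have h1 : ((2 * s + 1 + 1 : ℕ) : ℝ) ^ s ≤ 2 * ((2 * s + 1 : ℕ) : ℝ) ^ s := by
    have h2 : ((2 * s + 1 + 1 : ℕ) : ℝ) = ((2 * s + 1 : ℕ) : ℝ) * (1 + 1 / (2 * s + 1)) := by
      push_cast
      field_simp
    rw [h2, mul_pow, mul_comm]
    gcongr
    have h3 : (1 + 1 / (2 * (s : ℝ) + 1)) ≤ Real.exp (1 / (2 * (s : ℝ) + 1)) := by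
      have := Real.add_one_le_exp (1 / (2 * (s : ℝ) + 1))
      linarith
    calc (1 + 1 / (2 * (s : ℝ) + 1)) ^ s ≤ Real.exp (1 / (2 * (s : ℝ) + 1)) ^ s := by gcongr
      _ = Real.exp (s * (1 / (2 * (s : ℝ) + 1))) := by rw [← Real.exp_nat_mul]
      _ ≤ Real.exp (1 / 2) := by
          apply Real.exp_le_exp.mpr
          rw [mul_one_div, div_le_div_iff₀ (by positivity) (by norm_num)]
          linarith
      _ ≤ 2 := by
          have h4 := Real.exp_one_lt_d9
          have h5 : Real.exp (1 / 2) ^ 2 = Real.exp 1 := by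
            rw [← Real.exp_nat_mul]; norm_num
          have h6 := Real.exp_pos (1 / 2)
          nlinarith
  have h2 : (2 * s + 1 + 1) ^ s ≤ 2 * (2 * s + 1) ^ s := by exact_mod_cast h1
  calc B ^ (2 * (2 * s + 1 + 1) ^ s) ≤ B ^ (4 * (2 * s + 1) ^ s) :=
        pow_le_pow_right₀ hB (by omega)
    _ = (B ^ 4) ^ ((2 * s + 1) ^ s) := by rw [pow_mul]
    _ < (q : ℝ) ^ ((2 * s + 1) ^ s) := by
        apply pow_lt_pow_left₀ hBq (by positivity)
        positivity

/-- `D(m) T(m) - N(m)` is small -/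
theorem DTN_small {q m : ℕ} (hq : 1 ≤ q) (hm : 3 ≤ m) :
    |DP (PP q).divisors (fun _ => 1) m * T (-1) m +
      DP (PP q).divisors (fun d => -(μ d : ℝ)) m| ≤
      2 * ((PP q).divisors.card + 1) * (q : ℝ) ^ 3 / (q : ℝ) ^ m := by
  have h0 := zero_notMem_divisors (PP q)
  have h1 := hasSum_gco h0 (fun _ => 1) (fun d => -(μ d : ℝ)) hm
  refine (tail_le (C := ((PP q).divisors.card + 1) * 1) (by positivity) ?_ hq ?_ hm h1).trans
    (le_of_eq (by ring))
  · intro n
    apply abs_gco_le h0 _ _ zero_le_one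
    · intro k _; simp
    · intro k _
      rw [abs_neg]
      have := ArithmeticFunction.abs_moebius_le_one (n := k)
      exact_mod_cast this
  · intro n hn
    rcases Nat.eq_zero_or_pos n with h | h
    · rw [h]; exact gco_zero h0 _ _
    · exact gco_small h hn

/-- `m` is such that `T(m)` is very close to a rational number with a small denominator -/
def Near (B θ : ℝ) (m : ℕ) : Prop :=
  ∃ a b : ℤ, 0 < b ∧ (b : ℝ) ≤ B ^ m ∧ |T (-1) m - a / b| ≤ θ ^ m

/-- size of the changed columns -/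
noncomputable def C4 (q : ℕ) : ℝ :=
  3 + (PP q).divisors.card + 2 * ((PP q).divisors.card + 1) * (q : ℝ) ^ 3

lemma C4_pos (q : ℕ) : 0 < C4 q := by unfold C4; positivity

/-- bounds for the columns -/
noncomputable def colb (q : ℕ) (R R' : ℕ) (B : ℝ) (n H : ℕ) (x : Ix R) : ℝ :=
  C4 q * B ^ H / ((x.2 : ℕ) : ℝ) ^ n *
    (if x.1 = true ∧ (x.2 : ℕ) ∣ R' then 1 / (q : ℝ) ^ n else 1)

theorem col_le {q R R' : ℕ} (hq : 1 ≤ q) (hR : R = PP q * R') (hR0 : R ≠ 0) {B θ : ℝ}
    (hB : 1 ≤ B) (hθ0 : 0 < θ) (hθ : θ ≤ 1 / q) {n H m : ℕ} (hn3 : 3 ≤ n) (hnm : n ≤ m)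
    (hmH : m ≤ H) {a b : ℤ} (hb : 0 < b) (hbB : (b : ℝ) ≤ B ^ m)
    (hab : |T (-1) m - a / b| ≤ θ ^ m) (y : Ix R) :
    |∑ x, row R m a b x * ((TT (PP q) R R' x y : ℤ) : ℝ)| ≤ colb q R R' B n H y := by
  have hbR : (0 : ℝ) < b := by exact_mod_cast hb
  have hq0 : (0 : ℝ) < q := by exact_mod_cast hq
  have hk0 : 0 < ((y.2 : ℕ)) := pos_of_mem y.2
  have hk1 : (1 : ℝ) ≤ ((y.2 : ℕ) : ℝ) := by exact_mod_cast hk0
  have hm3 : 3 ≤ m := hn3.trans hnm
  have hbH : (b : ℝ) ≤ B ^ H := hbB.trans (pow_le_pow_right₀ hB hmH)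
  have hT := abs_T_le hm3
  have hq1 : (1 : ℝ) ≤ q := by exact_mod_cast hq
  have hθ1 : θ ≤ 1 := hθ.trans (by rw [div_le_one hq0]; exact hq1)
  have hθm : θ ^ m ≤ 1 / (q : ℝ) ^ m := by
    calc θ ^ m ≤ (1 / (q : ℝ)) ^ m := by gcongr
      _ = 1 / (q : ℝ) ^ m := by rw [div_pow, one_pow]
  have hqmn : 1 / (q : ℝ) ^ m ≤ 1 / (q : ℝ) ^ n :=
    one_div_le_one_div_of_le (by positivity) (pow_le_pow_right₀ hq1 hnm)
  have hkmn : 1 / ((y.2 : ℕ) : ℝ) ^ m ≤ 1 / ((y.2 : ℕ) : ℝ) ^ n :=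
    one_div_le_one_div_of_le (by positivity) (pow_le_pow_right₀ hk1 hnm)
  have haB : |(a : ℝ)| ≤ 3 * B ^ H := by
    have h1 : |(a : ℝ) / b| ≤ 3 := by
      calc |(a : ℝ) / b| = |T (-1) m - (T (-1) m - a / b)| := by ring_nf
        _ ≤ |T (-1) m| + |T (-1) m - a / b| := abs_sub _ _
        _ ≤ 2 + 1 := add_le_add hT (hab.trans (pow_le_one₀ hθ0.le hθ1))
        _ = 3 := by norm_num
    rw [abs_div, abs_of_pos hbR, div_le_iff₀ hbR] at h1
    exact h1.trans (by gcongr)
  by_cases hy : y.1 = true ∧ (y.2 : ℕ) ∣ R'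
  · obtain ⟨s, k⟩ := y
    simp only at hy hk0 hk1 hkmn
    obtain ⟨rfl, hkR'⟩ := hy
    rw [row_TT_true hR hR0 m a b k hkR']
    set D := DP (PP q).divisors (fun _ => 1) m with hD
    set N' := DP (PP q).divisors (fun d => -(μ d : ℝ)) m with hN'
    have hDle : |D| ≤ (PP q).divisors.card := by
      refine (abs_DP_le (zero_notMem_divisors _) _ _).trans ?_
      simp
    have h1 : (a : ℝ) * D + b * N' = b * ((D * T (-1) m + N') - D * (T (-1) m - a / b)) := by
      field_simp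
      ring
    have h2 : |(a : ℝ) * D + b * N'| ≤ B ^ H * ((C4 q) * (1 / (q : ℝ) ^ n)) := by
      rw [h1, abs_mul, abs_of_pos hbR]
      apply mul_le_mul hbH _ (abs_nonneg _) (by positivity)
      calc |(D * T (-1) m + N') - D * (T (-1) m - a / b)|
          ≤ |D * T (-1) m + N'| + |D * (T (-1) m - a / b)| := abs_sub _ _
        _ ≤ 2 * ((PP q).divisors.card + 1) * (q : ℝ) ^ 3 * (1 / (q : ℝ) ^ m) +
            (PP q).divisors.card * (1 / (q : ℝ) ^ m) := by
            apply add_le_add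
            · rw [mul_one_div]
              exact DTN_small hq hm3
            · rw [abs_mul]
              exact mul_le_mul hDle (hab.trans hθm) (abs_nonneg _) (by positivity)
        _ = (2 * ((PP q).divisors.card + 1) * (q : ℝ) ^ 3 + (PP q).divisors.card) *
            (1 / (q : ℝ) ^ m) := by ring
        _ ≤ C4 q * (1 / (q : ℝ) ^ n) := by
            apply mul_le_mul _ hqmn (by positivity) (C4_pos q).le
            unfold C4
            linarith
    unfold colb
    rw [if_pos ⟨rfl, hkR'⟩, abs_div, abs_of_pos (by positivity : (0 : ℝ) < ((k : ℕ) : ℝ) ^ m),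
      div_eq_mul_one_div]
    calc |(a : ℝ) * D + b * N'| * (1 / ((k : ℕ) : ℝ) ^ m)
        ≤ (B ^ H * ((C4 q) * (1 / (q : ℝ) ^ n))) * (1 / ((k : ℕ) : ℝ) ^ n) :=
          mul_le_mul h2 hkmn (by positivity) (by have := C4_pos q; positivity)
      _ = _ := by ring
  · have hy' : y.1 = false ∨ ¬ (y.2 : ℕ) ∣ R' := by
      by_contra hcon
      push Not at hcon
      exact hy ⟨by simpa using hcon.1, hcon.2⟩
    rw [row_TT_other m a b y hy']
    unfold colb
    rw [if_neg hy, mul_one]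
    unfold row
    rw [abs_div, abs_of_pos (by positivity : (0 : ℝ) < ((y.2 : ℕ) : ℝ) ^ m),
      div_eq_mul_one_div, div_eq_mul_one_div (C4 q * B ^ H)]
    have hC4 : 3 ≤ C4 q := by
      unfold C4
      have : (0 : ℝ) ≤ (PP q).divisors.card + 2 * ((PP q).divisors.card + 1) * (q : ℝ) ^ 3 := by
        positivity
      linarith
    have hBH : (0 : ℝ) < B ^ H := by positivity
    apply mul_le_mul _ hkmn (by positivity) (by positivity)
    split_ifs
    · exact haB.trans (by gcongr)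
    · rw [abs_of_pos hbR]
      calc (b : ℝ) ≤ 1 * B ^ H := by rw [one_mul]; exact hbH
        _ ≤ C4 q * B ^ H := by gcongr; linarith

end MPf1a024.H84
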