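import Mathlib
import Pool.Agent.Work.MP_f1a024_nt.H84Par

/-!
The window theorem for every `B`.
-/

namespace MPf1a024.H84

open Finset ArithmeticFunction

lemma card_Ix (R : ℕ) : Fintype.card (Ix R) = 2 * R.divisors.card := by
  rw [Fintype.card_prod, Fintype.card_bool, Fintype.card_coe]

lemma prod_colb (q : ℕ) {R R' : ℕ} (hR0 : R ≠ 0) (hRR : R' ∣ R) (B : ℝ) (n H : ℕ) :
    ∏ x : Ix R, colb q R R' B n H x =
      (C4 q * B ^ H) ^ (2 * R.divisors.card) / (∏ x : Ix R, ((x.2 : ℕ) : ℝ)) ^ n *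
        (1 / (q : ℝ) ^ n) ^ R'.divisors.card := by
  unfold colb
  rw [Finset.prod_mul_distrib, Finset.prod_div_distrib, Finset.prod_const, Finset.prod_pow,
    Finset.card_univ, card_Ix]
  congr 1
  rw [Fintype.prod_prod_type, Fintype.prod_bool]
  simp only [true_and, Bool.false_eq_true, false_and, if_false, Finset.prod_const_one, mul_one]
  rw [Finset.prod_coe_sort R.divisors (fun k => if k ∣ R' then 1 / (q : ℝ) ^ n else 1),
    ← Finset.prod_filter, Finset.prod_const]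
  congr 2
  ext k
  simp only [Finset.mem_filter, Nat.mem_divisors]
  constructor
  · rintro ⟨-, h⟩
    refine ⟨h, ?_⟩
    rintro rfl
    exact hR0 (Nat.eq_zero_of_zero_dvd hRR)
  · rintro ⟨h, -⟩
    exact ⟨⟨h.trans hRR, hR0⟩, h⟩

lemma final_id {W : ℝ} (hW : 0 < W) (q B C F : ℝ) (τ τ' n h : ℕ) :
    W ^ (n + h) * (F * ((C * B ^ (n + h)) ^ (2 * τ) / W ^ n * (1 / q ^ n) ^ τ')) =
      (F * C ^ (2 * τ)) * ((W * B ^ (2 * τ)) ^ h * (B ^ (2 * τ) / q ^ τ') ^ n) := by
  have hWn : W ^ (n + h) = W ^ n * W ^ h := pow_add _ _ _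
  have hBn : (B ^ (n + h)) ^ (2 * τ) = (B ^ (2 * τ)) ^ n * (B ^ (2 * τ)) ^ h := by
    rw [← pow_mul, mul_comm, pow_mul, pow_add]
  have hqn : (1 / q ^ n) ^ τ' = 1 / (q ^ τ') ^ n := by
    rw [div_pow, one_pow, ← pow_mul, ← pow_mul, mul_comm]
  rw [mul_pow C, hBn, hqn, hWn, mul_pow W, div_pow]
  have hW' : W ^ n ≠ 0 := (pow_pos hW n).ne'
  generalize W ^ n = w at *
  generalize (B ^ (2 * τ)) ^ n = x at *
  generalize (B ^ (2 * τ)) ^ h = y at *
  generalize (q ^ τ') ^ n = z at *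
  generalize W ^ h = u at *
  generalize C ^ (2 * τ) = t at *
  field_simp

lemma rank_cond {κ : Type*} (R : ℕ) (m : κ → ℕ) (a b : κ → ℤ) (hb : ∀ i, 0 < b i)
    (hcd : ∀ c d : ℕ → ℝ, (∀ i, DP R.divisors c (m i) * ((a i : ℝ) / b i) +
      DP R.divisors d (m i) = 0) → ∀ k ∈ R.divisors, c k = 0 ∧ d k = 0)
    (v : Ix R → ℝ) (hv : ∀ i, ∑ x, row R (m i) (a i) (b i) x * v x = 0) : v = 0 := by
  classical
  have hc : ∀ k (h : k ∈ R.divisors),
      (if h : k ∈ R.divisors then v (true, ⟨k, h⟩) else 0) = v (true, ⟨k, h⟩) :=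
    fun k h => dif_pos h
  have hd : ∀ k (h : k ∈ R.divisors),
      (if h : k ∈ R.divisors then v (false, ⟨k, h⟩) else 0) = v (false, ⟨k, h⟩) :=
    fun k h => dif_pos h
  have key := hcd (fun k => if h : k ∈ R.divisors then v (true, ⟨k, h⟩) else 0)
    (fun k => if h : k ∈ R.divisors then v (false, ⟨k, h⟩) else 0) (by
      intro i
      have h1 := hv i
      rw [Fintype.sum_prod_type, Fintype.sum_bool] at h1
      have hbR : (b i : ℝ) ≠ 0 := by exact_mod_cast (hb i).ne'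
      have h2 : ∑ y : {k // k ∈ R.divisors}, row R (m i) (a i) (b i) (true, y) * v (true, y) =
          DP R.divisors (fun k => if h : k ∈ R.divisors then v (true, ⟨k, h⟩) else 0) (m i)
            * a i := by
        rw [DP, ← Finset.sum_coe_sort R.divisors, Finset.sum_mul]
        refine Finset.sum_congr rfl fun y _ => ?_
        rw [hc y y.2]
        simp only [row, if_true]
        ring
      have h3 : ∑ y : {k // k ∈ R.divisors}, row R (m i) (a i) (b i) (false, y) * v (false, y) =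
          DP R.divisors (fun k => if h : k ∈ R.divisors then v (false, ⟨k, h⟩) else 0) (m i)
            * b i := by
        rw [DP, ← Finset.sum_coe_sort R.divisors, Finset.sum_mul]
        refine Finset.sum_congr rfl fun y _ => ?_
        rw [hd y y.2]
        simp only [row, Bool.false_eq_true, if_false]
        ring
      rw [h2, h3] at h1
      have h4 : ∀ x y A C : ℝ, C ≠ 0 → x * A + y * C = 0 → x * (A / C) + y = 0 := by
        intro x y A C hC h
        field_simp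
        linarith
      exact h4 _ _ _ _ hbR h1)
  funext x
  obtain ⟨s, k⟩ := x
  obtain ⟨h1, h2⟩ := key k k.2
  cases s with
  | true => exact (hc k k.2).symm.trans h1
  | false => exact (hd k k.2).symm.trans h2

/-- The determinant inequality -/
theorem det_ineq {q R R' : ℕ} (hq1 : 1 ≤ q) (hR : R = PP q * R') (hR0 : R ≠ 0)
    {B θ : ℝ} (hB : 1 ≤ B) (hθ0 : 0 < θ) (hθq : θ ≤ 1 / q) {n H : ℕ} (hn3 : 3 ≤ n)
    {κ : Type*} (m : κ → ℕ) (hm : ∀ i, n ≤ m i ∧ m i ≤ H)
    (a b : κ → ℤ) (hb : ∀ i, 0 < b i)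
    (hbB : ∀ i, (b i : ℝ) ≤ B ^ (m i)) (hab : ∀ i, |T (-1) (m i) - a i / b i| ≤ θ ^ (m i))
    (hcd : ∀ c d : ℕ → ℝ, (∀ i, DP R.divisors c (m i) * ((a i : ℝ) / b i) +
      DP R.divisors d (m i) = 0) → ∀ k ∈ R.divisors, c k = 0 ∧ d k = 0) :
    1 ≤ (∏ x : Ix R, ((x.2 : ℕ) : ℝ)) ^ H *
      (((2 * R.divisors.card).factorial : ℝ) *
        ((C4 q * B ^ H) ^ (2 * R.divisors.card) / (∏ x : Ix R, ((x.2 : ℕ) : ℝ)) ^ n *
        (1 / (q : ℝ) ^ n) ^ R'.divisors.card)) := by
  have hRR : R' ∣ R := ⟨PP q, by rw [hR, mul_comm]⟩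
  obtain ⟨f, hf⟩ := exists_rows (fun (i : κ) (x : Ix R) => row R (m i) (a i) (b i) x)
    (rank_cond R m a b hb hcd)
  have hkey := det_bound (Matrix.of fun i j => row R (m (f i)) (a (f i)) (b (f i)) j)
    (fun x => (x.2 : ℕ)) (fun i => m (f i)) H
    (fun i => (hm (f i)).2) (fun x => pos_of_mem x.2)
    (fun i x => if x.1 = true then a (f i) else b (f i))
    (fun i x => by
      rw [Matrix.of_apply, row]
      split_ifs <;> rfl) hf (TT (PP q) R R') (TT_det_ne _ _ _)
    (colb q R R' B n H)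
    (fun x => by
      unfold colb
      have h1 := C4_pos q
      have h2 : (0 : ℝ) < ((x.2 : ℕ) : ℝ) := by exact_mod_cast pos_of_mem x.2
      split_ifs <;> positivity)
    (fun i y => by
      have := col_le hq1 hR hR0 hB hθ0 hθq hn3 (hm (f i)).1 (hm (f i)).2
        (hb (f i)) (hbB (f i)) (hab (f i)) y
      simpa [Matrix.mul_apply] using this)
  rw [prod_colb q hR0 hRR, card_Ix] at hkey
  exact hkey

end MPf1a024.H84
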