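import Mathlib
import Pool.Agent.Work.MP_f1a024_nt.H84Main

/-!
The window theorem for every `B`.
-/

namespace MPf1a024.H84

open Finset ArithmeticFunction

/-- numerical end of the argument -/
lemma num_end {a0 : ℝ} (ha00 : 0 < a0) (ha01 : a0 < 1) {Y : ℝ} (hY0 : 0 < Y) {C5 : ℝ}
    (hC50 : 0 < C5) : ∃ E1 : ℕ, ∃ N2 : ℕ, ∀ E, E1 ≤ E → 0 < E → ∀ n, N2 ≤ n →
      C5 * (Y ^ (n / E) * a0 ^ n) < 1 := by
  obtain ⟨σ, hσ1, hσa⟩ : ∃ σ : ℝ, 1 < σ ∧ σ * a0 < 1 := by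
    refine ⟨(1 + 1 / a0) / 2, ?_, ?_⟩
    · have : 1 < 1 / a0 := by rw [lt_div_iff₀ ha00]; linarith
      linarith
    · have : (1 + 1 / a0) / 2 * a0 = (a0 + 1) / 2 := by field_simp
      rw [this]; linarith
  obtain ⟨E1, hE1⟩ := pow_unbounded_of_one_lt Y hσ1
  have hσa0 : 0 < σ * a0 := by positivity
  obtain ⟨N2, hN2⟩ := exists_pow_lt_of_lt_one (by positivity : (0 : ℝ) < 1 / C5) hσa
  refine ⟨E1, N2, fun E hE hEpos n hn => ?_⟩
  have hYpow : Y ^ (n / E) ≤ σ ^ n := by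
    calc Y ^ (n / E) ≤ (σ ^ E) ^ (n / E) := by
          apply pow_le_pow_left₀ hY0.le
          exact hE1.le.trans (pow_le_pow_right₀ hσ1.le hE)
      _ = σ ^ (E * (n / E)) := by rw [pow_mul]
      _ ≤ σ ^ n := pow_le_pow_right₀ hσ1.le (Nat.mul_div_le n E)
  have h1 : (σ * a0) ^ n ≤ (σ * a0) ^ N2 := pow_le_pow_of_le_one hσa0.le hσa.le hn
  have h2 : (σ * a0) ^ n < 1 / C5 := lt_of_le_of_lt h1 hN2
  rw [lt_div_iff₀ hC50] at h2
  calc C5 * (Y ^ (n / E) * a0 ^ n) ≤ C5 * (σ ^ n * a0 ^ n) := by gcongr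
    _ = (σ * a0) ^ n * C5 := by rw [mul_pow]; ring
    _ < 1 := h2

theorem window (B : ℝ) (hB : 1 ≤ B) :
    ∃ θ : ℝ, 0 < θ ∧ θ < 1 ∧ ∃ E : ℕ, 0 < E ∧ ∃ N L : ℕ, ∀ n, N ≤ n → ∀ S : Finset ℕ,
      (∀ m ∈ S, n ≤ m ∧ m ≤ n + n / E ∧ Near B θ m) → S.card ≤ L := by
  obtain ⟨q, L, hq, hpar⟩ := exists_params B hB
  obtain ⟨R', hR'⟩ : ∃ R' : ℕ, R' = PP q ^ L := ⟨_, rfl⟩
  obtain ⟨R, hRdef⟩ : ∃ R : ℕ, R = PP q ^ (L + 1) := ⟨_, rfl⟩
  rw [← hR', ← hRdef] at hpar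
  have hR : R = PP q * R' := by rw [hRdef, hR', pow_succ']
  have hR0 : R ≠ 0 := by rw [hRdef]; exact pow_ne_zero _ (PP_ne q)
  have hqR : ¬ q ∣ R := by rw [hRdef]; exact not_dvd_PP_pow hq _
  have hq1 : 1 ≤ q := hq.pos
  have hq2 : 2 ≤ q := hq.two_le
  have hq0 : (0 : ℝ) < q := by exact_mod_cast hq1
  have hqR1 : (0 : ℝ) < ((q * R + 1 : ℕ) : ℝ) := by positivity
  obtain ⟨θ, hθ⟩ : ∃ θ : ℝ, θ = 1 / ((q * R + 1 : ℕ) : ℝ) := ⟨_, rfl⟩
  have hθ0 : 0 < θ := by rw [hθ]; positivity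
  have hqle : q ≤ q * R + 1 := by
    have := Nat.le_mul_of_pos_right q (Nat.pos_of_ne_zero hR0)
    omega
  have hθq : θ ≤ 1 / q := by
    rw [hθ]
    apply one_div_le_one_div_of_le hq0
    exact_mod_cast hqle
  have hθ1 : θ < 1 := by
    refine hθq.trans_lt ?_
    rw [div_lt_one hq0]
    exact_mod_cast hq2
  obtain ⟨E0, hE0, hzero⟩ := zero_est hq hR0 hqR θ hθ0 hθ.le
  -- sizes
  have hW0 : 0 < ∏ x : Ix R, ((x.2 : ℕ) : ℝ) :=
    Finset.prod_pos fun x _ => by exact_mod_cast pos_of_mem x.2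
  have hB0 : 0 < B := by linarith
  have hY0 : 0 < (∏ x : Ix R, ((x.2 : ℕ) : ℝ)) * B ^ (2 * R.divisors.card) := by positivity
  have ha00 : 0 < B ^ (2 * R.divisors.card) / (q : ℝ) ^ R'.divisors.card := by positivity
  have ha01 : B ^ (2 * R.divisors.card) / (q : ℝ) ^ R'.divisors.card < 1 := by
    rw [div_lt_one (by positivity)]; exact hpar
  have hC50 : 0 < ((2 * R.divisors.card).factorial : ℝ) * C4 q ^ (2 * R.divisors.card) := by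
    have := C4_pos q
    have h2 : (0 : ℝ) < (2 * R.divisors.card).factorial := by
      exact_mod_cast Nat.factorial_pos _
    positivity
  obtain ⟨E1, N2, hnum⟩ := num_end ha00 ha01 hY0 hC50
  obtain ⟨E, hE⟩ : ∃ E : ℕ, E = max (max E0 E1) 1 := ⟨_, rfl⟩
  have hEE0 : E0 ≤ E := by omega
  have hEE1 : E1 ≤ E := by omega
  have hEpos : 0 < E := by omega
  obtain ⟨N1, hN1⟩ := hzero E hEE0
  refine ⟨θ, hθ0, hθ1, E, hEpos, max (max N1 N2) 3, q * R, fun n hn S hS => ?_⟩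
  have hnN1 : N1 ≤ n := by omega
  have hnN2 : N2 ≤ n := by omega
  have hn3 : 3 ≤ n := by omega
  by_contra hcard
  push Not at hcard
  -- data
  have hdata : ∀ m : {m // m ∈ S}, ∃ a b : ℤ, 0 < b ∧ (b : ℝ) ≤ B ^ (m : ℕ) ∧
      |T (-1) m - a / b| ≤ θ ^ (m : ℕ) := fun m => (hS m m.2).2.2
  choose a b hb hbB hab using hdata
  obtain ⟨e⟩ : Nonempty (Fin (q * R) ↪ {m // m ∈ S}) := by
    rw [Function.Embedding.nonempty_iff_card_le, Fintype.card_fin, Fintype.card_coe]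
    exact hcard.le
  have hkey := det_ineq hq1 hR hR0 hB hθ0 hθq (n := n) (H := n + n / E) hn3
    (fun i : {m // m ∈ S} => (i : ℕ)) (fun i => ⟨(hS i i.2).1, (hS i i.2).2.1⟩) a b hb hbB hab
    (fun c d hz => hN1 n hnN1 (fun i => (e i : ℕ))
        (fun i j hij => e.injective (Subtype.ext hij))
        (fun i => ⟨(hS _ (e i).2).1, (hS _ (e i).2).2.1⟩)
        (fun i => (a (e i) : ℝ) / b (e i)) (fun i => hab (e i)) c d (fun i => hz (e i)))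
  rw [final_id hW0] at hkey
  have := hnum E hEE1 hEpos n hnN2
  linarith

end MPf1a024.H84
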