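import Mathlib
import Pool.Agent.Work.MP_f1a024_nt.Bd.B01

namespace MPf1a024

open Finset

/-- The core inequality: `d` points in a short window `[m₀, m₀ + H]`. -/
lemma window {d : ℕ} (num den : Fin d → ℕ) (hden : ∀ j, 0 < den j) (hnum : ∀ j, 0 < num j)
    (hinj : Function.Injective fun j => (num j : ℝ) / den j) (r : Fin d) (coef : Fin d → ℝ)
    (Y : ℕ → ℝ) (C ρ A γ X : ℝ) (hC : 1 ≤ C) (hρ0 : 0 < ρ)
    (hX1 : 1 ≤ X) (hX : ∀ j, (num j : ℝ) / den j ≤ X) (hρX : ρ ≤ X)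
    (hA : 1 ≤ A) (hγ : 1 ≤ γ)
    (m : Fin d → ℕ) (hm : Function.Injective m) (m₀ H : ℕ) (h0 : ∀ i, m₀ ≤ m i)
    (h1 : ∀ i, m i ≤ m₀ + H)
    (hY : ∀ i, |Y (m i) - ∑ j, coef j * ((num j : ℝ) / den j) ^ m i| ≤ C * ρ ^ m i)
    (c z : Fin d → ℤ) (hc : ∀ i, 0 < c i) (hcle : ∀ i, (c i : ℝ) ≤ A * γ ^ m i)
    (hz : ∀ i, (c i : ℝ) * Y (m i) = z i)
    (hbig : ((∏ j, (den j : ℝ)) * X ^ d * γ ^ d) ^ H * (d.factorial * C ^ d) * ρ ^ m₀ <
      |coef r| * ((num r : ℝ) / den r) ^ m₀) (hρr : ρ ≤ (num r : ℝ) / den r) :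
    1 ≤ ((∏ j, (den j : ℝ)) * X ^ d * γ ^ d) ^ H *
      (d.factorial * (|coef r| + C ^ d) * A ^ d) * (γ ^ d * ((num r : ℝ) / den r)) ^ m₀ := by
  set x : Fin d → ℝ := fun j => (num j : ℝ) / den j with hx
  have hxpos : ∀ j, 0 < x j := by
    intro j
    have h1 : (0 : ℝ) < num j := by exact_mod_cast hnum j
    have h2 : (0 : ℝ) < den j := by exact_mod_cast hden j
    rw [hx]; positivity
  set P : ℝ := ∏ j, (den j : ℝ) with hP
  have hP1 : 1 ≤ P := by
    rw [hP]
    calc (1 : ℝ) = ∏ _j : Fin d, (1 : ℝ) := by simp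
      _ ≤ ∏ j, (den j : ℝ) := Finset.prod_le_prod (fun _ _ => zero_le_one)
          (fun j _ => by exact_mod_cast hden j)
  set h : Fin d → ℕ := fun i => m i - m₀ with hh
  have hhinj : Function.Injective h := by
    intro i j hij
    apply hm
    have := h0 i
    have := h0 j
    simp only [hh] at hij
    omega
  have hhH : ∀ i, h i ≤ H := by
    intro i
    have := h1 i
    simp only [hh]
    omega
  set M : Matrix (Fin d) (Fin d) ℝ := Matrix.of fun j i => x j ^ h i with hM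
  set R : Fin d → ℝ := fun i => Y (m i) - ∑ j, coef j * x j ^ m i with hR
  have hdec := det_updateRow_decomp x r coef m m₀ h0 (fun i => Y (m i)) R
    (fun i => by rw [hR]; ring)
  have hMeq : (Matrix.of fun j i => x j ^ (m i - m₀)) = M := rfl
  rw [hMeq] at hdec
  have hentry : ∀ j i, |M j i| ≤ X ^ H := by
    intro j i
    rw [hM, Matrix.of_apply, abs_of_pos (pow_pos (hxpos j) _)]
    calc x j ^ h i ≤ X ^ h i := pow_le_pow_left₀ (hxpos j).le (hX j) _
      _ ≤ X ^ H := pow_le_pow_right₀ hX1 (hhH i)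
  have hdetM : |M.det| ≤ d.factorial * (X ^ H) ^ d := abs_det_le M _ hentry
  have hlow : 1 ≤ P ^ H * |M.det| := one_le_det num den hden hnum hinj h hhinj H hhH
  have hd1 : 1 ≤ d := by
    have := r.pos
    omega
  -- the remainder determinant
  have hdetR : |(M.updateRow r R).det| ≤ ρ ^ m₀ * (d.factorial * (C * X ^ H) ^ d) := by
    have e1 : R = ρ ^ m₀ • (fun i => R i / ρ ^ m₀) := by
      funext i
      rw [Pi.smul_apply, smul_eq_mul]
      field_simp
    rw [e1, Matrix.det_updateRow_smul, abs_mul, abs_of_pos (pow_pos hρ0 _)]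
    refine mul_le_mul_of_nonneg_left ?_ (pow_pos hρ0 _).le
    apply abs_det_le
    intro j i
    have hCX : X ^ H ≤ C * X ^ H := by
      have : 0 ≤ X ^ H := by positivity
      nlinarith
    by_cases hj : j = r
    · subst hj
      rw [Matrix.updateRow_self, abs_div, abs_of_pos (pow_pos hρ0 m₀), div_le_iff₀ (pow_pos hρ0 _)]
      calc |R i| ≤ C * ρ ^ m i := hY i
        _ = C * (ρ ^ h i * ρ ^ m₀) := by
            rw [← pow_add]
            congr 2
            have := h0 i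
            simp only [hh]
            omega
        _ ≤ C * (X ^ H * ρ ^ m₀) := by
            gcongr
            calc ρ ^ h i ≤ X ^ h i := pow_le_pow_left₀ hρ0.le hρX _
              _ ≤ X ^ H := pow_le_pow_right₀ hX1 (hhH i)
        _ = C * X ^ H * ρ ^ m₀ := by ring
    · rw [Matrix.updateRow_ne hj]
      exact (hentry j i).trans hCX
  have hγH : 1 ≤ (γ ^ d) ^ H := one_le_pow₀ (one_le_pow₀ hγ)
  have hxr : 0 < x r ^ m₀ := pow_pos (hxpos r) _
  have hPH : 1 ≤ P ^ H := one_le_pow₀ hP1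
  have hPHpos : 0 < P ^ H := by linarith
  -- nonvanishing
  have hne : (M.updateRow r fun i => Y (m i)).det ≠ 0 := by
    intro h0'
    rw [hdec] at h0'
    have e1 : |coef r| * x r ^ m₀ * |M.det| ≤ ρ ^ m₀ * (d.factorial * (C * X ^ H) ^ d) := by
      have : coef r * x r ^ m₀ * M.det = -(M.updateRow r R).det := by linarith
      calc |coef r| * x r ^ m₀ * |M.det| = |coef r * x r ^ m₀ * M.det| := by
            rw [abs_mul, abs_mul, abs_of_pos hxr]
        _ = |(M.updateRow r R).det| := by rw [this, abs_neg]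
        _ ≤ _ := hdetR
    have e2 : |coef r| * x r ^ m₀ ≤ P ^ H * (ρ ^ m₀ * (d.factorial * (C * X ^ H) ^ d)) := by
      calc |coef r| * x r ^ m₀ = (|coef r| * x r ^ m₀) * 1 := by ring
        _ ≤ (|coef r| * x r ^ m₀) * (P ^ H * |M.det|) := by
            apply mul_le_mul_of_nonneg_left hlow; positivity
        _ = P ^ H * (|coef r| * x r ^ m₀ * |M.det|) := by ring
        _ ≤ _ := by apply mul_le_mul_of_nonneg_left e1 hPHpos.le
    have e3 : P ^ H * (ρ ^ m₀ * (d.factorial * (C * X ^ H) ^ d)) ≤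
        (P * X ^ d * γ ^ d) ^ H * (d.factorial * C ^ d) * ρ ^ m₀ := by
      have : (P * X ^ d * γ ^ d) ^ H * (d.factorial * C ^ d) * ρ ^ m₀ =
          (γ ^ d) ^ H * (P ^ H * (ρ ^ m₀ * (d.factorial * (C * X ^ H) ^ d))) := by
        rw [mul_pow, mul_pow, mul_pow, ← pow_mul X, ← pow_mul X, mul_comm d H]; ring
      rw [this]
      apply le_mul_of_one_le_left _ hγH
      positivity
    have : x r ^ m₀ = ((num r : ℝ) / den r) ^ m₀ := rfl
    rw [this] at e2
    linarith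
  -- upper bound
  have hup : |(M.updateRow r fun i => Y (m i)).det| ≤
      x r ^ m₀ * ((X ^ H) ^ d * (d.factorial * (|coef r| + C ^ d))) := by
    rw [hdec]
    have hρm : ρ ^ m₀ ≤ x r ^ m₀ := pow_le_pow_left₀ hρ0.le hρr _
    calc |coef r * x r ^ m₀ * M.det + (M.updateRow r R).det|
        ≤ |coef r * x r ^ m₀ * M.det| + |(M.updateRow r R).det| := abs_add_le _ _
      _ = |coef r| * x r ^ m₀ * |M.det| + |(M.updateRow r R).det| := by
          rw [abs_mul, abs_mul, abs_of_pos hxr]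
      _ ≤ |coef r| * x r ^ m₀ * (d.factorial * (X ^ H) ^ d) +
          ρ ^ m₀ * (d.factorial * (C * X ^ H) ^ d) := by
          gcongr
      _ ≤ |coef r| * x r ^ m₀ * (d.factorial * (X ^ H) ^ d) +
          x r ^ m₀ * (d.factorial * (C * X ^ H) ^ d) := by
          gcongr
      _ = x r ^ m₀ * ((X ^ H) ^ d * (d.factorial * (|coef r| + C ^ d))) := by
          rw [mul_pow C]; ring
  have hint := one_le_det_updateRow num den hden r h H hhH (fun i => Y (m i)) c z hc hz hne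
  have hcprod : ∏ i, (c i : ℝ) ≤ A ^ d * (γ ^ (m₀ + H)) ^ d := by
    calc ∏ i, (c i : ℝ) ≤ ∏ _i : Fin d, (A * γ ^ (m₀ + H)) := by
          apply Finset.prod_le_prod
          · intro i _
            exact_mod_cast (hc i).le
          · intro i _
            refine (hcle i).trans ?_
            gcongr
            · exact h1 i
      _ = A ^ d * (γ ^ (m₀ + H)) ^ d := by
          rw [Finset.prod_const, Finset.card_univ, Fintype.card_fin, mul_pow]
  have hcpos : 0 ≤ ∏ i, (c i : ℝ) := Finset.prod_nonneg fun i _ => by exact_mod_cast (hc i).le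
  calc (1 : ℝ) ≤ P ^ H * |(M.updateRow r fun i => Y (m i)).det| * ∏ i, (c i : ℝ) := hint
    _ ≤ P ^ H * (x r ^ m₀ * ((X ^ H) ^ d * (d.factorial * (|coef r| + C ^ d)))) *
        (A ^ d * (γ ^ (m₀ + H)) ^ d) := by
        gcongr
    _ = (P * X ^ d * γ ^ d) ^ H *
      (d.factorial * (|coef r| + C ^ d) * A ^ d) * (γ ^ d * x r) ^ m₀ := by
        rw [mul_pow, mul_pow, mul_pow, pow_add γ, mul_pow, ← pow_mul X, ← pow_mul X,
          ← pow_mul γ, ← pow_mul γ, ← pow_mul γ, ← pow_mul γ, mul_comm d H, mul_comm d m₀]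
        ring

/-- **Abstract rarity theorem.** If `Y(m)` is a sum of `d` exponentials with distinct positive
rational bases plus a smaller error, and `c Y(m)` is an integer for some positive integer
`c ≤ A γ^m`, where `γ^d` times the smallest base is less than one, then this happens for fewer than
`d` values of `m` in every window `[n, (1+ε) n]`. -/
theorem rarity {d : ℕ} (num den : Fin d → ℕ) (hden : ∀ j, 0 < den j) (hnum : ∀ j, 0 < num j)
    (hinj : Function.Injective fun j => (num j : ℝ) / den j) (r : Fin d) (coef : Fin d → ℝ)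
    (hcoef : coef r ≠ 0) (Y : ℕ → ℝ) (C ρ : ℝ) (N₀ : ℕ) (hρ0 : 0 < ρ)
    (hρ : ρ < (num r : ℝ) / den r)
    (hY : ∀ m, N₀ ≤ m → |Y m - ∑ j, coef j * ((num j : ℝ) / den j) ^ m| ≤ C * ρ ^ m)
    (A γ : ℝ) (hγ : 1 ≤ γ) (hτ : γ ^ d * ((num r : ℝ) / den r) < 1) :
    ∃ ε : ℝ, 0 < ε ∧ ∃ N : ℕ, ∀ n : ℕ, N ≤ n → ∀ S : Finset ℕ,
      (∀ m ∈ S, n ≤ m ∧ (m : ℝ) ≤ (1 + ε) * n ∧
        ∃ c z : ℤ, 0 < c ∧ (c : ℝ) ≤ A * γ ^ m ∧ (c : ℝ) * Y m = z) → S.card < d := by
  obtain ⟨X, hX1, hX, hρX⟩ : ∃ X : ℝ, 1 ≤ X ∧ (∀ j, (num j : ℝ) / den j ≤ X) ∧ ρ ≤ X := by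
    refine ⟨1 + ρ + ∑ j, (num j : ℝ) / den j, ?_, ?_, ?_⟩
    · have : 0 ≤ ∑ j, (num j : ℝ) / den j := Finset.sum_nonneg fun j _ => by positivity
      linarith
    · intro j
      have : (num j : ℝ) / den j ≤ ∑ j, (num j : ℝ) / den j :=
        Finset.single_le_sum (f := fun j => (num j : ℝ) / den j)
          (fun j _ => by positivity) (Finset.mem_univ j)
      linarith
    · have : 0 ≤ ∑ j, (num j : ℝ) / den j := Finset.sum_nonneg fun j _ => by positivity
      linarith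
  set δ : ℝ := (num r : ℝ) / den r with hδ
  have hδ0 : 0 < δ := hρ0.trans hρ
  set P : ℝ := ∏ j, (den j : ℝ) with hP
  have hP1 : 1 ≤ P := by
    rw [hP]
    calc (1 : ℝ) = ∏ _j : Fin d, (1 : ℝ) := by simp
      _ ≤ ∏ j, (den j : ℝ) := Finset.prod_le_prod (fun _ _ => zero_le_one)
          (fun j _ => by exact_mod_cast hden j)
  set C' : ℝ := max C 1 with hC'
  have hC'1 : 1 ≤ C' := le_max_right _ _
  set A' : ℝ := max A 1 with hA'
  have hA'1 : 1 ≤ A' := le_max_right _ _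
  set K : ℝ := P * X ^ d * γ ^ d with hK
  have hK1 : 1 ≤ K := by
    rw [hK]
    have h1 : 1 ≤ X ^ d := one_le_pow₀ hX1
    have h2 : 1 ≤ γ ^ d := one_le_pow₀ hγ
    have h3 : 1 ≤ P * X ^ d := one_le_mul_of_one_le_of_one_le hP1 h1
    exact one_le_mul_of_one_le_of_one_le h3 h2
  set τ : ℝ := γ ^ d * δ with hτdef
  have hτ0 : 0 < τ := by rw [hτdef]; positivity
  -- the exponent
  obtain ⟨η, hη0, hη1, hη2⟩ : ∃ η : ℝ, 0 < η ∧ 2 * η ≤ Real.log (δ / ρ) ∧ 2 * η ≤ -Real.log τ := by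
    have h1 : 0 < Real.log (δ / ρ) := Real.log_pos (by rwa [one_lt_div hρ0])
    have h2 : 0 < -Real.log τ := by
      have := Real.log_neg hτ0 hτ
      linarith
    refine ⟨min (Real.log (δ / ρ)) (-Real.log τ) / 2, ?_, ?_, ?_⟩
    · have := lt_min h1 h2; linarith
    · have := min_le_left (Real.log (δ / ρ)) (-Real.log τ); linarith
    · have := min_le_right (Real.log (δ / ρ)) (-Real.log τ); linarith
  have hlogK : 0 ≤ Real.log K := Real.log_nonneg hK1
  set ε : ℝ := η / (Real.log K + 1) with hε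
  have hε0 : 0 < ε := by rw [hε]; positivity
  have hεK : ε * Real.log K ≤ η := by
    rw [hε, div_mul_eq_mul_div, div_le_iff₀ (by positivity)]
    nlinarith
  set C₁ : ℝ := (d.factorial * C' ^ d) / |coef r| with hC₁
  set C₂ : ℝ := d.factorial * (|coef r| + C' ^ d) * A' ^ d with hC₂
  have hcr : 0 < |coef r| := abs_pos.mpr hcoef
  obtain ⟨N₁, hN₁⟩ : ∃ N₁ : ℕ, max C₁ C₂ < Real.exp (η * N₁) := by
    obtain ⟨N₁, hN₁⟩ := exists_nat_gt (max C₁ C₂ / η)
    refine ⟨N₁, ?_⟩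
    have h1 : max C₁ C₂ < η * N₁ := by
      rw [div_lt_iff₀ hη0] at hN₁
      linarith
    have h2 : η * N₁ < Real.exp (η * N₁) := by
      have := Real.add_one_le_exp (η * N₁)
      linarith
    linarith
  refine ⟨ε, hε0, max N₀ N₁, ?_⟩
  intro n hn S hS
  by_contra hcard
  push Not at hcard
  obtain ⟨S', hS'S, hS'card⟩ := Finset.exists_subset_card_eq hcard
  have hd1 : 0 < d := r.pos
  set m : Fin d → ℕ := fun i => S'.orderEmbOfFin hS'card i with hm
  have hmS : ∀ i, m i ∈ S := fun i => hS'S (Finset.orderEmbOfFin_mem S' hS'card i)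
  have hminj : Function.Injective m := (S'.orderEmbOfFin hS'card).injective
  have hmono : Monotone m := (S'.orderEmbOfFin hS'card).monotone
  set m₀ : ℕ := m ⟨0, hd1⟩ with hm₀
  have h0 : ∀ i, m₀ ≤ m i := fun i => hmono (by rw [Fin.le_def]; exact Nat.zero_le _)
  set H : ℕ := m ⟨d - 1, by omega⟩ - m₀ with hH
  have h1 : ∀ i, m i ≤ m₀ + H := by
    intro i
    have h2 : m i ≤ m ⟨d - 1, by omega⟩ := hmono (by rw [Fin.le_def]; simp; omega)
    have h3 := h0 ⟨d - 1, by omega⟩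
    omega
  have hnm : n ≤ m₀ := (hS _ (hmS _)).1
  have hN1m : N₁ ≤ m₀ := (le_max_right _ _).trans (hn.trans hnm)
  have hHε : (H : ℝ) ≤ ε * m₀ := by
    have h2 := (hS _ (hmS ⟨d - 1, by omega⟩)).2.1
    have h3 := h0 ⟨d - 1, by omega⟩
    have h4 : (H : ℝ) = (m ⟨d - 1, by omega⟩ : ℝ) - m₀ := by
      rw [hH, Nat.cast_sub h3]
    have h5 : (n : ℝ) ≤ m₀ := by exact_mod_cast hnm
    rw [h4]
    nlinarith
  have hKH : K ^ H ≤ Real.exp (η * m₀) := by
    have hK0 : 0 < K := by linarith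
    calc K ^ H = Real.exp (H * Real.log K) := by
          rw [mul_comm, Real.exp_mul, Real.exp_log hK0, Real.rpow_natCast]
      _ ≤ Real.exp (η * m₀) := by
          apply Real.exp_le_exp.mpr
          calc (H : ℝ) * Real.log K ≤ (ε * m₀) * Real.log K := by gcongr
            _ = (ε * Real.log K) * m₀ := by ring
            _ ≤ η * m₀ := by gcongr
  have hexp : max C₁ C₂ < Real.exp (η * m₀) := by
    refine hN₁.trans_le (Real.exp_le_exp.mpr ?_)
    have : (N₁ : ℝ) ≤ m₀ := by exact_mod_cast hN1m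
    gcongr
  have hexpC₁ : C₁ < Real.exp (η * m₀) := (le_max_left _ _).trans_lt hexp
  have hexpC₂ : C₂ < Real.exp (η * m₀) := (le_max_right _ _).trans_lt hexp
  have hδρ : Real.exp (η * m₀) * Real.exp (η * m₀) * ρ ^ m₀ ≤ δ ^ m₀ := by
    have h2 : Real.exp (η * m₀) * Real.exp (η * m₀) ≤ (δ / ρ) ^ m₀ := by
      have hpos : 0 < δ / ρ := by positivity
      calc Real.exp (η * m₀) * Real.exp (η * m₀) = Real.exp ((2 * η) * m₀) := by
            rw [← Real.exp_add]; ring_nf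
        _ ≤ Real.exp (Real.log (δ / ρ) * m₀) := by
            apply Real.exp_le_exp.mpr; gcongr
        _ = (δ / ρ) ^ m₀ := by rw [Real.exp_mul, Real.exp_log hpos, Real.rpow_natCast]
    calc Real.exp (η * m₀) * Real.exp (η * m₀) * ρ ^ m₀ ≤ (δ / ρ) ^ m₀ * ρ ^ m₀ := by gcongr
      _ = δ ^ m₀ := by rw [← mul_pow]; congr 1; field_simp
  have hτm : Real.exp (η * m₀) * Real.exp (η * m₀) * τ ^ m₀ ≤ 1 := by
    have h2 : τ ^ m₀ = Real.exp (Real.log τ * m₀) := by
      rw [Real.exp_mul, Real.exp_log hτ0, Real.rpow_natCast]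
    rw [h2, ← Real.exp_add, ← Real.exp_add, Real.exp_le_one_iff]
    have : (0 : ℝ) ≤ m₀ := by positivity
    nlinarith
  have hchoose : ∀ i, ∃ c z : ℤ, 0 < c ∧ (c : ℝ) ≤ A * γ ^ m i ∧ (c : ℝ) * Y (m i) = z :=
    fun i => (hS _ (hmS i)).2.2
  choose c z hc hcle hz using hchoose
  have hwin := window num den hden hnum hinj r coef Y C' ρ A' γ X hC'1 hρ0 hX1 hX hρX hA'1 hγ
    m hminj m₀ H h0 h1 (fun i => by
      have h2 := hY (m i) ((le_max_left _ _).trans (hn.trans (hnm.trans (h0 i))))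
      refine h2.trans ?_
      gcongr
      exact le_max_left _ _) c z hc (fun i => by
      refine (hcle i).trans ?_
      gcongr
      exact le_max_left _ _) hz (by
      have h2 : (d.factorial : ℝ) * C' ^ d = C₁ * |coef r| := by
        rw [hC₁]; field_simp
      calc K ^ H * (d.factorial * C' ^ d) * ρ ^ m₀
          ≤ Real.exp (η * m₀) * (C₁ * |coef r|) * ρ ^ m₀ := by
            rw [← h2]; gcongr
        _ < Real.exp (η * m₀) * (Real.exp (η * m₀) * |coef r|) * ρ ^ m₀ := by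
            gcongr
        _ = |coef r| * (Real.exp (η * m₀) * Real.exp (η * m₀) * ρ ^ m₀) := by ring
        _ ≤ |coef r| * δ ^ m₀ := by gcongr) hρ.le
  have hC₂0 : 0 ≤ C₂ := by rw [hC₂]; positivity
  have : K ^ H * C₂ * τ ^ m₀ < 1 := by
    calc K ^ H * C₂ * τ ^ m₀ ≤ Real.exp (η * m₀) * C₂ * τ ^ m₀ := by gcongr
      _ < Real.exp (η * m₀) * Real.exp (η * m₀) * τ ^ m₀ := by gcongr
      _ ≤ 1 := hτm
  exact absurd hwin (not_le.mpr this)

end MPf1a024
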