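import Mathlib
import Pool.Agent.Work.MP_f1a024_nt.H84Win

namespace Pool.Agent.Results.MP_f1a024_nt.LargeDenominators

open MPf1a024

/-- `t(m) = zeta(2m)/zeta(m)^2` is within `θ^m` of a rational number `a/b` with a denominator
`b` at most `B^m` -/
def IsNear (B θ : ℝ) (m : ℕ) : Prop :=
  ∃ a b : ℤ, 0 < b ∧ (b : ℝ) ≤ B ^ m ∧
    ‖riemannZeta (2 * m) / riemannZeta m ^ 2 - (a : ℂ) / b‖ ≤ θ ^ m

lemma near_of_isNear {B θ : ℝ} {m : ℕ} (hm : 3 ≤ m) (h : IsNear B θ m) :
    H84.Near (max |B| 1) θ m := by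
  obtain ⟨a, b, hb, hbB, hab⟩ := h
  refine ⟨a, b, hb, ?_, ?_⟩
  · refine (hbB.trans (le_abs_self _)).trans ?_
    rw [abs_pow]
    exact pow_le_pow_left₀ (abs_nonneg _) (le_max_left _ _) _
  · rw [ratio_eq hm] at hab
    have e : ((T (-1) m : ℝ) : ℂ) - (a : ℂ) / b = ((T (-1) m - a / b : ℝ) : ℂ) := by
      push_cast
      ring
    rw [e, Complex.norm_real, Real.norm_eq_abs] at hab
    exact hab

theorem window (B : ℝ) :
    ∃ θ : ℝ, 0 < θ ∧ θ < 1 ∧ ∃ ε : ℝ, 0 < ε ∧ ∃ N L : ℕ, ∀ n : ℕ, N ≤ n → ∀ S : Finset ℕ,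
      (∀ m ∈ S, n ≤ m ∧ (m : ℝ) ≤ (1 + ε) * n ∧ IsNear B θ m) → S.card ≤ L := by
  obtain ⟨θ, hθ0, hθ1, E, hE, N, L, h⟩ := H84.window (max |B| 1) (le_max_right _ _)
  have hER : (0 : ℝ) < E := by exact_mod_cast hE
  refine ⟨θ, hθ0, hθ1, 1 / E, by positivity, max N 3, L, fun n hn S hS => ?_⟩
  refine h n (le_trans (le_max_left _ _) hn) S fun m hm => ?_
  obtain ⟨h1, h2, h3⟩ := hS m hm
  refine ⟨h1, ?_, near_of_isNear (le_trans (le_trans (le_max_right _ _) hn) h1) h3⟩
  obtain ⟨d, rfl⟩ := Nat.exists_eq_add_of_le h1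
  have h4 : d ≤ n / E := by
    rw [Nat.le_div_iff_mul_le hE]
    have h5 : ((n + d : ℕ) : ℝ) ≤ n + n / E := by
      rw [add_mul, one_mul, one_div_mul_eq_div] at h2
      exact h2
    have h6 : (d : ℝ) ≤ n / E := by push_cast at h5; linarith
    rw [le_div_iff₀ hER] at h6
    exact_mod_cast h6
  omega

open Classical in
theorem counting (P : ℕ → Prop) {ε : ℝ} (hε : 0 < ε) {N L : ℕ}
    (hN : ∀ n : ℕ, N ≤ n → ∀ S : Finset ℕ,
      (∀ m ∈ S, n ≤ m ∧ (m : ℝ) ≤ (1 + ε) * n ∧ P m) → S.card ≤ L) :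
    ∃ K : ℝ, ∀ x : ℕ, 2 ≤ x →
      (((Finset.Icc 1 x).filter P).card : ℝ) ≤ K * Real.log x := by
  set f : ℕ → ℕ := fun x => ((Finset.Icc 1 x).filter P).card with hf
  have hL : 0 < Real.log (1 + ε) := Real.log_pos (by linarith)
  obtain ⟨N₁, hN₁⟩ : ∃ N₁ : ℕ, (1 + ε) * (N + 2) ≤ N₁ := exists_nat_ge _
  have hfx : ∀ x, f x ≤ x := by
    intro x
    refine (Finset.card_filter_le _ _).trans ?_
    simp
  have main : ∀ x : ℕ, 1 ≤ x → (f x : ℝ) ≤ N₁ + L * (Real.log x / Real.log (1 + ε)) := by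
    intro x
    induction x using Nat.strong_induction_on with
    | _ x ih =>
      intro hx
      have hlx : 0 ≤ Real.log x := Real.log_nonneg (by exact_mod_cast hx)
      rcases le_or_gt x N₁ with h | h
      · have : (f x : ℝ) ≤ N₁ := by exact_mod_cast (hfx x).trans h
        have : 0 ≤ L * (Real.log x / Real.log (1 + ε)) := by positivity
        linarith
      · set n : ℕ := ⌈(x : ℝ) / (1 + ε)⌉₊ with hn
        have hnge : (x : ℝ) / (1 + ε) ≤ n := Nat.le_ceil _
        have hnlt : (n : ℝ) < x / (1 + ε) + 1 := Nat.ceil_lt_add_one (by positivity)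
        have hxN : (1 + ε) * (N + 2) < x := lt_of_le_of_lt hN₁ (by exact_mod_cast h)
        have hNx : (N + 2 : ℝ) < x / (1 + ε) := by
          rw [lt_div_iff₀ (by positivity)]; linarith
        have hNn : N + 2 ≤ n := by
          have : ((N + 2 : ℕ) : ℝ) < n := by push_cast; linarith
          exact (by exact_mod_cast this.le)
        have hlt : n - 1 < x := by
          have h3 : (x : ℝ) / (1 + ε) ≤ x := div_le_self (by positivity) (by linarith)
          have : (n : ℝ) < x + 1 := by linarith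
          have : n < x + 1 := by exact_mod_cast this
          omega
        have ih' := ih (n - 1) hlt (by omega)
        have hsplit : f x ≤ f (n - 1) + L := by
          have hsub : (Finset.Icc 1 x).filter P ⊆
              (Finset.Icc 1 (n - 1)).filter P ∪ (Finset.Icc n x).filter P := by
            intro m hm
            simp only [Finset.mem_filter, Finset.mem_Icc, Finset.mem_union] at hm ⊢
            by_cases hmn : m ≤ n - 1
            · left; exact ⟨⟨hm.1.1, hmn⟩, hm.2⟩
            · right; exact ⟨⟨by omega, hm.1.2⟩, hm.2⟩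
          have hw : ((Finset.Icc n x).filter P).card ≤ L := by
            refine hN n (by omega) _ ?_
            intro m hm
            simp only [Finset.mem_filter, Finset.mem_Icc] at hm
            refine ⟨hm.1.1, ?_, hm.2⟩
            have : (m : ℝ) ≤ x := by exact_mod_cast hm.1.2
            rw [div_le_iff₀ (by positivity)] at hnge
            linarith
          calc f x ≤ _ := Finset.card_le_card hsub
            _ ≤ _ := Finset.card_union_le _ _
            _ ≤ f (n - 1) + L := by simp only [hf]; omega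
        have hn1 : ((n - 1 : ℕ) : ℝ) ≤ x / (1 + ε) := by
          rw [Nat.cast_sub (by omega)]; push_cast; linarith
        have hn0 : (0 : ℝ) < ((n - 1 : ℕ) : ℝ) := by
          have : 0 < n - 1 := by omega
          exact_mod_cast this
        have hlog : Real.log ((n - 1 : ℕ) : ℝ) ≤ Real.log x - Real.log (1 + ε) := by
          rw [← Real.log_div (by positivity) (by positivity)]
          exact Real.log_le_log hn0 hn1
        have h5 : Real.log ((n - 1 : ℕ) : ℝ) / Real.log (1 + ε) ≤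
            Real.log x / Real.log (1 + ε) - 1 := by
          rw [div_le_iff₀ hL, sub_mul, div_mul_cancel₀ _ hL.ne']
          linarith
        have h6 : (f x : ℝ) ≤ f (n - 1) + L := by exact_mod_cast hsplit
        have h7 : (L : ℝ) * (Real.log ((n - 1 : ℕ) : ℝ) / Real.log (1 + ε)) ≤
            L * (Real.log x / Real.log (1 + ε) - 1) := by gcongr
        linarith
  refine ⟨N₁ / Real.log 2 + L / Real.log (1 + ε), fun x hx => ?_⟩
  have h2 : Real.log 2 ≤ Real.log x := Real.log_le_log (by norm_num) (by exact_mod_cast hx)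
  have hl2 : 0 < Real.log 2 := Real.log_pos (by norm_num)
  have h3 := main x (by omega)
  have h4 : (N₁ : ℝ) ≤ N₁ / Real.log 2 * Real.log x := by
    rw [div_mul_eq_mul_div, le_div_iff₀ hl2]
    gcongr
  have h5 : (N₁ / Real.log 2 + L / Real.log (1 + ε)) * Real.log x =
      N₁ / Real.log 2 * Real.log x + L * (Real.log x / Real.log (1 + ε)) := by ring
  rw [h5]
  linarith

open Classical in
/-- For every real `B` there is `θ` with `0 < θ < 1` such that the integers `m` for which
`zeta(2m)/zeta(m)^2` is within `θ^m` of a rational number with a denominator at most `B^m` are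
very rare: at most `L` in each interval `[n, (1+ε)n]` with `n` large, and `O(log x)` up to
`x`. -/
theorem result (B : ℝ) : ∃ θ : ℝ, 0 < θ ∧ θ < 1 ∧
    (∃ ε : ℝ, 0 < ε ∧ ∃ N L : ℕ, ∀ n : ℕ, N ≤ n → ∀ S : Finset ℕ,
      (∀ m ∈ S, n ≤ m ∧ (m : ℝ) ≤ (1 + ε) * n ∧ IsNear B θ m) → S.card ≤ L) ∧
    ∃ K : ℝ, ∀ x : ℕ, 2 ≤ x →
      (((Finset.Icc 1 x).filter (IsNear B θ)).card : ℝ) ≤ K * Real.log x := by
  obtain ⟨θ, h0, h1, ε, hε, N, L, h⟩ := window B
  exact ⟨θ, h0, h1, ⟨ε, hε, N, L, h⟩, counting _ hε h⟩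

end Pool.Agent.Results.MP_f1a024_nt.LargeDenominators
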